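import Pool.Agent.LYC.Defs

/-! Project LYC: elements with algebraically independent residues. -/

set_option autoImplicit false

namespace LYC

universe u

variable {k K : Type u} [Field k] [Field K] [Algebra k K]

/-- `W` is trivial on `k(t)` (write the element as a quotient of two polynomials in `t`:
`IntermediateField.mem_adjoin_iff_div`, `Algebra.adjoin_range_eq_range_aeval`). -/
theorem ResInd.val_adjoin {W : ValuationSubring K} {d : ℕ} {t : Fin d → K} (ht : ResInd k W t)
    (e : K) (he : e ∈ IntermediateField.adjoin k (Set.range t)) (he0 : e ≠ 0) :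
    W.valuation e = 1 := by
  rw [IntermediateField.mem_adjoin_range_iff] at he
  obtain ⟨r, s, rfl⟩ := he
  have hr : r ≠ 0 := by
    rintro rfl
    simp at he0
  have hs : s ≠ 0 := by
    rintro rfl
    simp at he0
  rw [map_div₀, ht r hr, ht s hs, div_one]

theorem ResInd.mem_adjoin {W : ValuationSubring K} {d : ℕ} {t : Fin d → K} (ht : ResInd k W t)
    (e : K) (he : e ∈ IntermediateField.adjoin k (Set.range t)) : e ∈ W := by
  rcases eq_or_ne e 0 with rfl | he0
  · exact W.zero_mem
  · rw [← ValuationSubring.valuation_le_one_iff]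
    exact (ht.val_adjoin e he he0).le

theorem ResInd.algInd {W : ValuationSubring K} {d : ℕ} {t : Fin d → K} (ht : ResInd k W t) :
    AlgebraicIndependent k t := by
  rw [algebraicIndependent_iff]
  intro P hP
  by_contra h
  have h1 := ht P h
  rw [hP, map_zero] at h1
  exact zero_ne_one h1

/-- The transcendence degree over `k(t)` (`Algebra.trdeg_add_eq` / `lift_trdeg_add_eq` and
`AlgebraicIndependent` ⇒ transcendence basis of `k(t)`). -/
theorem trdeg_adjoin {d : ℕ} {t : Fin d → K} (ht : AlgebraicIndependent k t) :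
    (d : Cardinal.{u}) + Algebra.trdeg (IntermediateField.adjoin k (Set.range t)) K =
      Algebra.trdeg k K := by
  obtain ⟨s, hs⟩ := exists_isTranscendenceBasis (IntermediateField.adjoin k (Set.range t)) K
  have hs' : IsTranscendenceBasis (Algebra.adjoin k (Set.range t)) ((↑) : s → K) :=
    IntermediateField.isTranscendenceBasis_adjoin_iff.1 hs
  have h1 : Algebra.trdeg k (Algebra.adjoin k (Set.range t)) = (d : Cardinal.{u}) := by
    have h := ht.aevalEquiv.lift_trdeg_eq
    rw [MvPolynomial.trdeg_of_isDomain] at h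
    simpa using h.symm
  rw [← hs.cardinalMk_eq_trdeg, hs'.cardinalMk_eq_trdeg, ← h1, trdeg_add_eq]

/-- Lifting algebraically independent elements of the residue field. -/
theorem exists_resInd (W : ValuationSubring K) (κ : Type u) [Field κ] [Algebra k κ]
    (D : LY.Res (k := k) W κ) (hW : ∀ c : k, algebraMap k K c ∈ W) {d : ℕ} (tb : Fin d → κ)
    (ht : AlgebraicIndependent k tb) :
    ∃ t : Fin d → K, ResInd k W t ∧ ∀ i, ∃ h : t i ∈ W, D.π ⟨t i, h⟩ = tb i := by
  choose t ht' using fun i => D.surj (tb i)
  refine ⟨fun i => (t i : K), ?_, fun i => ⟨(t i).2, ht' i⟩⟩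
  have key : ∀ P : MvPolynomial (Fin d) k, ∃ h : MvPolynomial.aeval (fun i => (t i : K)) P ∈ W,
      D.π ⟨_, h⟩ = MvPolynomial.aeval tb P := by
    intro P
    induction P using MvPolynomial.induction_on with
    | C a =>
      refine ⟨by simpa using hW a, ?_⟩
      rw [MvPolynomial.aeval_C tb]
      apply D.alg
      simp
    | add p q hp hq =>
      obtain ⟨h1, h1'⟩ := hp
      obtain ⟨h2, h2'⟩ := hq
      refine ⟨by rw [map_add]; exact W.add_mem _ _ h1 h2, ?_⟩
      rw [map_add (MvPolynomial.aeval tb), ← h1', ← h2', ← map_add D.π]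
      congr 1
      apply Subtype.ext
      simp
    | mul_X p i hp =>
      obtain ⟨h1, h1'⟩ := hp
      refine ⟨by rw [map_mul, MvPolynomial.aeval_X]; exact W.mul_mem _ _ h1 (t i).2, ?_⟩
      rw [map_mul (MvPolynomial.aeval tb), ← h1', MvPolynomial.aeval_X tb, ← ht' i, ← map_mul D.π]
      congr 1
      apply Subtype.ext
      simp
  intro P hP
  obtain ⟨h, h'⟩ := key P
  have h1 : W.valuation (MvPolynomial.aeval (fun i => (t i : K)) P) ≤ 1 :=
    (ValuationSubring.valuation_le_one_iff _ _).2 h
  refine le_antisymm h1 (not_lt.1 fun hlt => hP ?_)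
  have h2 := (D.ker ⟨_, h⟩).2 hlt
  rw [h'] at h2
  exact (algebraicIndependent_iff.1 ht) P h2

end LYC
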