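import Pool.Agent.LYC.Val
import Pool.Agent.LYC.ResLem

/-! Project LYC: the Abhyankar inequality. -/

set_option autoImplicit false

namespace LYC

universe u

variable {k K : Type u} [Field k] [Field K] [Algebra k K]

/-- The Abhyankar inequality. Proof: over `k' = k(t)` (contained in `W`, `ResInd.mem_adjoin`) every
independent family of `r` elements of the value group gives `r` algebraically independent elements
(`exists_lift`, `algInd_of_val`), so `r ≤ trdeg k' K`, hence `Module.rank ≤ trdeg k' K` (which is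
finite: `rank_le`), and `trdeg_adjoin`. -/
theorem abh_ineq [Algebra.EssFiniteType k K] (W : ValuationSubring K)
    (hW : ∀ c : k, algebraMap k K c ∈ W) {d : ℕ} (t : Fin d → K) (ht : ResInd k W t) :
    Module.rank ℤ (Gam W) + (d : Cardinal.{u}) ≤ Algebra.trdeg k K := by
  have hadd := trdeg_adjoin ht.algInd
  have hfin : Algebra.trdeg k K < Cardinal.aleph0 := trdeg_lt_aleph0 k K
  have hE : Algebra.trdeg (IntermediateField.adjoin k (Set.range t)) K < Cardinal.aleph0 := by
    refine lt_of_le_of_lt ?_ hfin
    rw [← hadd]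
    exact self_le_add_left _ _
  obtain ⟨n, hn⟩ := Cardinal.lt_aleph0.1 hE
  have hW' : ∀ c : IntermediateField.adjoin k (Set.range t),
      algebraMap (IntermediateField.adjoin k (Set.range t)) K c ∈ W :=
    fun c => ht.mem_adjoin _ c.2
  have hrank : Module.rank ℤ (Gam W) ≤ (n : Cardinal.{u}) := by
    refine rank_le fun s hs => ?_
    have he : LinearIndependent ℤ (fun i : Fin s.card => (s.equivFin.symm i : Gam W)) :=
      hs.comp _ s.equivFin.symm.injective
    obtain ⟨u, hu0, -, hu⟩ := exists_lift W _ he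
    have h1 := (algInd_of_val W hW' u hu0 hu).lift_cardinalMk_le_trdeg
    rw [hn] at h1
    simpa using h1
  rw [← hadd, add_comm]
  exact add_le_add le_rfl (hrank.trans_eq hn.symm)

/-- The Abhyankar inequality with the residue field. -/
theorem abh_ineq_res [Algebra.EssFiniteType k K] (W : ValuationSubring K)
    (hW : ∀ c : k, algebraMap k K c ∈ W) (κ : Type u) [Field κ] [Algebra k κ]
    [Algebra.EssFiniteType k κ] (D : LY.Res (k := k) W κ) :
    Module.rank ℤ (Gam W) + Algebra.trdeg k κ ≤ Algebra.trdeg k K := by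
  obtain ⟨d, hd⟩ := Cardinal.lt_aleph0.1 (trdeg_lt_aleph0 k κ)
  obtain ⟨s, hs⟩ := exists_isTranscendenceBasis k κ
  have hc : Cardinal.mk s = (d : Cardinal.{u}) := by rw [hs.cardinalMk_eq_trdeg, hd]
  obtain ⟨e⟩ : Nonempty (Fin d ≃ s) := by
    rw [← Cardinal.lift_mk_eq'.{0, u}]
    simp [hc]
  obtain ⟨t, ht, -⟩ := exists_resInd W κ D hW (fun i : Fin d => ((e i : s) : κ))
    (hs.1.comp e e.injective)
  rw [hd]
  exact abh_ineq W hW t ht

end LYC
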