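import Pool.Agent.LYC.Defs

/-! Project LYC: maximal proper valuation rings have rank one. -/

set_option autoImplicit false

namespace LYC

universe u

variable {K : Type u} [Field K]

/-- A valuation ring without intermediate rings has archimedean value group. Proof: let
`V₁(a) < 1`, `b ≠ 0` and suppose `V₁(b) < V₁(a)^n` for all `n`. The ring
`V₂ = {z | ∃ n, V₁(a^n z) ≤ 1}` contains `V₁` and `a⁻¹ ∉ V₁`, so `V₂ = ⊤`, `b⁻¹ ∈ V₂`, a
contradiction. -/
theorem arch_of_max (V₁ : ValuationSubring K)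
    (hmax : ∀ V₂ : ValuationSubring K, V₁ ≤ V₂ → V₂ = V₁ ∨ V₂ = ⊤) :
    MulArchimedean V₁.ValueGroup := by
  refine ⟨fun x y hy => ?_⟩
  obtain ⟨c, rfl⟩ := V₁.valuation_surjective x
  obtain ⟨d, rfl⟩ := V₁.valuation_surjective y
  let V₂ : ValuationSubring K :=
    { carrier := {z | ∃ n : ℕ, V₁.valuation z ≤ V₁.valuation d ^ n}
      mul_mem' := by
        rintro z w ⟨n, hn⟩ ⟨m, hm⟩
        refine ⟨n + m, ?_⟩
        rw [map_mul, pow_add]
        exact mul_le_mul' hn hm
      one_mem' := ⟨0, by simp⟩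
      add_mem' := by
        rintro z w ⟨n, hn⟩ ⟨m, hm⟩
        refine ⟨max n m, ?_⟩
        refine (V₁.valuation.map_add z w).trans (max_le ?_ ?_)
        · exact hn.trans (pow_le_pow_right₀ hy.le (le_max_left _ _))
        · exact hm.trans (pow_le_pow_right₀ hy.le (le_max_right _ _))
      zero_mem' := ⟨0, by simp⟩
      neg_mem' := by
        rintro z ⟨n, hn⟩
        exact ⟨n, by rwa [Valuation.map_neg]⟩
      mem_or_inv_mem' := by
        intro z
        rcases V₁.mem_or_inv_mem z with h | h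
        · exact Or.inl ⟨0, by simpa using (V₁.valuation_le_one_iff z).2 h⟩
        · exact Or.inr ⟨0, by simpa using (V₁.valuation_le_one_iff z⁻¹).2 h⟩ }
  have hle : V₁ ≤ V₂ := fun z h =>
    (⟨0, by simpa using (V₁.valuation_le_one_iff z).2 h⟩ :
      ∃ n : ℕ, V₁.valuation z ≤ V₁.valuation d ^ n)
  rcases hmax V₂ hle with h | h
  · exfalso
    have h1 : d ∈ V₂ := (⟨1, by simp⟩ : ∃ n : ℕ, V₁.valuation d ≤ V₁.valuation d ^ n)
    rw [h, ← V₁.valuation_le_one_iff] at h1
    exact absurd hy (not_lt.2 h1)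
  · have h1 : c ∈ V₂ := by
      rw [h]
      exact ValuationSubring.mem_top c
    exact h1

end LYC
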