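import Pool.Agent.LYC.Defs

/-! Project LYC: the residue field and the valuation ring induced on it. -/

set_option autoImplicit false

namespace LYC

universe u

variable {k K : Type u} [Field k] [Field K] [Algebra k K]

/-- The residue field (`IsLocalRing.ResidueField W` with the evident `k`-algebra structure). -/
theorem exists_res (W : ValuationSubring K) (hW : ∀ c : k, algebraMap k K c ∈ W) :
    ∃ (κ : Type u) (_ : Field κ) (_ : Algebra k κ), Nonempty (LY.Res (k := k) W κ) := by
  let f : k →+* W := (algebraMap k K).codRestrict W.toSubring hW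
  refine ⟨IsLocalRing.ResidueField W, inferInstance,
    ((IsLocalRing.residue W).comp f).toAlgebra, ⟨?_⟩⟩
  letI : Algebra k (IsLocalRing.ResidueField W) := ((IsLocalRing.residue W).comp f).toAlgebra
  refine ⟨IsLocalRing.residue W, IsLocalRing.residue_surjective, fun x => ?_, fun c x hx => ?_⟩
  · rw [IsLocalRing.residue_eq_zero_iff, ValuationSubring.valuation_lt_one_iff]
  · have h : x = f c := Subtype.ext hx
    rw [h]
    rfl

/-- The valuation ring `V/m_(V₁)` of the residue field of `V₁`, for `V ≤ V₁`. (If `π x = π x'` with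
`x' ∈ V` then `x - x' ∈ m_(V₁) ⊆ V`.) -/
theorem exists_comp (V V₁ : ValuationSubring K) (hV : ∀ c : k, algebraMap k K c ∈ V)
    (hle : V ≤ V₁) (κ : Type u) [Field κ] [Algebra k κ] (D₀ : LY.Res (k := k) V₁ κ) :
    ∃ (W' : ValuationSubring κ) (D : LY.Comp (k := k) V V₁ κ W'), D.toRes = D₀ ∧
      ∀ c : k, algebraMap k κ c ∈ W' := by
  have hm : ∀ z : K, V₁.valuation z < 1 → z ∈ V := by
    intro z hz
    rcases V.mem_or_inv_mem z with h | h
    · exact h
    · have h1 : V₁.valuation z⁻¹ ≤ 1 := by
        rw [V₁.valuation_le_one_iff]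
        exact hle h
      by_contra hzV
      have hz0 : z ≠ 0 := by
        rintro rfl
        exact hzV V.zero_mem
      have h2 : V₁.valuation z * V₁.valuation z⁻¹ = 1 := by
        rw [← map_mul, mul_inv_cancel₀ hz0, map_one]
      have h3 : V₁.valuation z * V₁.valuation z⁻¹ ≤ V₁.valuation z * 1 := mul_le_mul_right h1 _
      rw [h2, mul_one] at h3
      exact absurd hz (not_lt.2 h3)
  let W' : ValuationSubring κ :=
    { carrier := {y | ∃ x : V₁, (x : K) ∈ V ∧ D₀.π x = y}
      mul_mem' := by
        rintro _ _ ⟨x, hx, rfl⟩ ⟨y, hy, rfl⟩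
        exact ⟨x * y, V.mul_mem _ _ hx hy, map_mul _ _ _⟩
      one_mem' := ⟨1, V.one_mem, map_one _⟩
      add_mem' := by
        rintro _ _ ⟨x, hx, rfl⟩ ⟨y, hy, rfl⟩
        exact ⟨x + y, V.add_mem _ _ hx hy, map_add _ _ _⟩
      zero_mem' := ⟨0, V.zero_mem, map_zero _⟩
      neg_mem' := by
        rintro _ ⟨x, hx, rfl⟩
        exact ⟨-x, V.neg_mem _ hx, map_neg _ _⟩
      mem_or_inv_mem' := by
        intro y
        obtain ⟨x, rfl⟩ := D₀.surj y
        rcases V.mem_or_inv_mem (x : K) with h | h
        · exact Or.inl ⟨x, h, rfl⟩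
        · right
          by_cases hx : D₀.π x = 0
          · rw [hx, inv_zero]
            exact ⟨0, V.zero_mem, map_zero _⟩
          · refine ⟨⟨(x : K)⁻¹, hle h⟩, h, ?_⟩
            have hx0 : (x : K) ≠ 0 := by
              intro h0
              have : x = 0 := Subtype.ext h0
              rw [this, map_zero] at hx
              exact hx rfl
            refine eq_inv_of_mul_eq_one_left ?_
            rw [← map_mul, ← map_one D₀.π]
            congr 1
            exact Subtype.ext (inv_mul_cancel₀ hx0) }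
  have hW' : ∀ y : κ, y ∈ W' ↔ ∃ x : V₁, (x : K) ∈ V ∧ D₀.π x = y := fun y => Iff.rfl
  refine ⟨W', { toRes := D₀, le := hle, mem := fun x => ?_ }, rfl, fun c => ?_⟩
  · rw [hW']
    constructor
    · rintro ⟨x', hx', hxx⟩
      have h1 : D₀.π (x - x') = 0 := by
        rw [map_sub, hxx, sub_self]
      have h2 := hm _ ((D₀.ker _).1 h1)
      have h3 : (x : K) = ((x - x' : V₁) : K) + (x' : K) := by
        push_cast
        ring
      rw [h3]
      exact V.add_mem _ _ h2 hx'
    · exact fun hx => ⟨x, hx, rfl⟩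
  · rw [hW']
    exact ⟨⟨algebraMap k K c, hle (hV c)⟩, hV c, D₀.alg c _ rfl⟩

end LYC
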