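import Pool.Agent.LYC.Val

/-! Project LYC: the largest proper overring. -/

set_option autoImplicit false

namespace LYC

universe u

variable {k K : Type u} [Field k] [Field K] [Algebra k K]

/-- an element of a larger valuation ring which is not in the smaller one -/
theorem MaxOver_val {W : ValuationSubring K} {z : K} (hz : z ∉ W) : W.valuation z⁻¹ < 1 := by
  have h1 : 1 < W.valuation z := by
    rw [← not_le, ValuationSubring.valuation_le_one_iff]
    exact hz
  rw [map_inv₀]
  exact inv_lt_one_of_one_lt₀ h1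

/-- an element which is a unit -/
theorem MaxOver_unit {W : ValuationSubring K} {z : K} (h0 : z ≠ 0) (hz : z ∈ W) (hz' : z⁻¹ ∈ W) :
    W.valuation z = 1 := by
  rw [← ValuationSubring.valuation_le_one_iff] at hz hz'
  refine le_antisymm hz ?_
  rw [map_inv₀] at hz'
  have h1 : W.valuation z ≠ 0 := (W.valuation.ne_zero_iff).2 h0
  have h2 : 0 < W.valuation z := zero_lt_iff.2 h1
  exact (inv_le_one₀ h2).1 hz'

/-- A valuation ring containing `k` is contained in a maximal proper valuation ring. Proof: otherwise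
there is a strictly increasing sequence `V ≤ V_0 < V_1 < …` of proper valuation rings; choose `x_i`
(`i < n + 1`, `n = trdeg`) in `V_(i+1)` such that `V_i.valuation (x_i) < 1` and
`V_(i+1).valuation (x_i) = 1` (`z ∈ V_(i+1) \ V_i`, `x_i = z⁻¹`). The values of the `x_i` for `V_0` are
independent (look at the largest index with nonzero exponent), so the `x_i` are algebraically
independent (`algInd_of_val`), a contradiction. -/
theorem exists_max_over [Algebra.EssFiniteType k K] (V : ValuationSubring K)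
    (hV : ∀ c : k, algebraMap k K c ∈ V) (hne : V ≠ ⊤) :
    ∃ V₁ : ValuationSubring K, V ≤ V₁ ∧ V₁ ≠ ⊤ ∧
      ∀ V₂ : ValuationSubring K, V₁ ≤ V₂ → V₂ = V₁ ∨ V₂ = ⊤ := by
  by_contra hcon
  have hnext : ∀ W : {W : ValuationSubring K // V ≤ W ∧ W ≠ ⊤},
      ∃ W' : {W : ValuationSubring K // V ≤ W ∧ W ≠ ⊤}, W.1 < W'.1 := by
    rintro ⟨W, hW1, hW2⟩
    by_contra hno
    refine hcon ⟨W, hW1, hW2, fun V₂ hV₂ => ?_⟩
    by_contra h3
    rw [not_or] at h3
    exact hno ⟨⟨V₂, hW1.trans hV₂, h3.2⟩, lt_of_le_of_ne hV₂ (Ne.symm h3.1)⟩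
  choose f hf using hnext
  set s : ℕ → {W : ValuationSubring K // V ≤ W ∧ W ≠ ⊤} := fun n => f^[n] ⟨V, le_rfl, hne⟩ with hs
  have hs0 : (s 0).1 = V := rfl
  have hlt : ∀ n, (s n).1 < (s (n + 1)).1 := by
    intro n
    have h1 : s (n + 1) = f (s n) := Function.iterate_succ_apply' f n _
    rw [h1]
    exact hf (s n)
  have hmono : Monotone (fun n => (s n).1) := (strictMono_nat_of_lt_succ hlt).monotone
  have hz : ∀ n, ∃ z, z ∈ (s (n + 1)).1 ∧ z ∉ (s n).1 := fun n => SetLike.exists_of_lt (hlt n)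
  choose z hz1 hz2 using hz
  have hz0 : ∀ n, z n ≠ 0 := by
    intro n h0
    apply hz2 n
    rw [h0]
    exact zero_mem _
  have hx1 : ∀ n, (s n).1.valuation (z n)⁻¹ < 1 := fun n => MaxOver_val (hz2 n)
  have hxi : ∀ n, (z n)⁻¹ ∈ (s n).1 := fun n =>
    ((s n).1.mem_or_inv_mem (z n)).resolve_left (hz2 n)
  have hx2 : ∀ n j, n < j → (s j).1.valuation (z n)⁻¹ = 1 := by
    intro n j hnj
    have h1 : z n ∈ (s j).1 := hmono (Nat.succ_le_of_lt hnj) (hz1 n)
    have h2 : (z n)⁻¹ ∈ (s j).1 := hmono hnj.le (hxi n)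
    exact MaxOver_unit (inv_ne_zero (hz0 n)) h2 (by rwa [inv_inv])
  have key : ∀ r : ℕ, AlgebraicIndependent k (fun i : Fin r => (z i)⁻¹) := by
    intro r
    refine algInd_of_val V hV _ (fun i => inv_ne_zero (hz0 i)) fun a ha => ?_
    by_contra hane
    have hex : (Finset.univ.filter (fun i => a i ≠ 0)).Nonempty := by
      by_contra hem
      rw [Finset.not_nonempty_iff_eq_empty] at hem
      apply hane
      funext i
      by_contra hi
      have : i ∈ Finset.univ.filter (fun i => a i ≠ 0) := by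
        rw [Finset.mem_filter]
        exact ⟨Finset.mem_univ i, hi⟩
      rw [hem] at this
      exact absurd this (Finset.notMem_empty i)
    obtain ⟨j, hj, hmax⟩ := Finset.exists_max_image _ (fun i : Fin r => i) hex
    rw [Finset.mem_filter] at hj
    have hp0 : (∏ i : Fin r, (z i)⁻¹ ^ a i) ≠ 0 :=
      Finset.prod_ne_zero_iff.2 fun i _ => zpow_ne_zero _ (inv_ne_zero (hz0 i))
    have hpV : (∏ i : Fin r, (z i)⁻¹ ^ a i) ∈ V := by
      rw [← ValuationSubring.valuation_le_one_iff]
      exact ha.le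
    have hpV' : (∏ i : Fin r, (z i)⁻¹ ^ a i)⁻¹ ∈ V := by
      rw [← ValuationSubring.valuation_le_one_iff, map_inv₀]
      rw [ha, inv_one]
    have hle : V ≤ (s j).1 := (s j).2.1
    have h1 : (s j).1.valuation (∏ i : Fin r, (z i)⁻¹ ^ a i) = 1 :=
      MaxOver_unit hp0 (hle hpV) (hle hpV')
    rw [map_prod] at h1
    have h2 : ∏ i : Fin r, (s j).1.valuation ((z i)⁻¹ ^ a i) =
        (s j).1.valuation ((z j)⁻¹ ^ a j) := by
      refine Finset.prod_eq_single j (fun i _ hij => ?_) fun h => absurd (Finset.mem_univ j) h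
      by_cases hai : a i = 0
      · rw [hai, zpow_zero, map_one]
      · have h3 : i ≤ j := hmax i (by
          rw [Finset.mem_filter]
          exact ⟨Finset.mem_univ i, hai⟩)
        have h4 : (i : ℕ) < j := Fin.lt_def.1 (lt_of_le_of_ne h3 hij)
        rw [map_zpow₀, hx2 i j h4, one_zpow]
    rw [h2, map_zpow₀] at h1
    exact hj.2 ((zpow_eq_one_iff_right₀ zero_le (hx1 j).ne).1 h1)
  obtain ⟨n, hn⟩ := Cardinal.lt_aleph0.1 (trdeg_lt_aleph0 k K)
  have h1 := (key (n + 1)).lift_cardinalMk_le_trdeg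
  rw [hn] at h1
  simp only [Cardinal.mk_fin, Cardinal.lift_natCast] at h1
  have h2 : n + 1 ≤ n := by exact_mod_cast h1
  omega

end LYC
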