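import Pool.Agent.LYC.CovTrans
import Pool.Agent.LYC.MaxOver
import Pool.Agent.LYC.Arch

/-! Project LYC: components of the induced valuation ring. -/

set_option autoImplicit false

namespace LYC

universe u

variable {k K : Type u} [Field k] [Field K] [Algebra k K]

/-- Adjacent coarsenings `X ⋖ X₁` of `W'` come from adjacent coarsenings `Y ⋖ Y₁` of `V`
(with the same residue map, compare `covBy_comp`). -/
theorem covBy_comp' (V V₁ : ValuationSubring K) (hV : ∀ c : k, algebraMap k K c ∈ V) (κ : Type u)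
    [Field κ] [Algebra k κ]
    (W' : ValuationSubring κ) (D : LY.Comp (k := k) V V₁ κ W') (X X₁ : ValuationSubring κ)
    (hX : W' ≤ X) (hXX : X ⋖ X₁) :
    ∃ Y Y₁ : ValuationSubring K, V ≤ Y ∧ Y ⋖ Y₁ ∧ Y₁ ≤ V₁ ∧ (∀ x : V₁, D.π x ∈ X ↔ (x : K) ∈ Y) ∧
      (∀ x : V₁, D.π x ∈ X₁ ↔ (x : K) ∈ Y₁) := by
  obtain ⟨Y, hY1, hY2, hY3, -⟩ := exists_over V V₁ κ W' D X hX
  obtain ⟨Y₁, hZ1, hZ2, hZ3, -⟩ := exists_over V V₁ κ W' D X₁ (hX.trans hXX.le)
  -- comparison of two rings below `V₁` through their images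
  have key : ∀ (A B : ValuationSubring K) (A' B' : ValuationSubring κ), A ≤ V₁ → B ≤ V₁ →
      (∀ x : V₁, D.π x ∈ A' ↔ (x : K) ∈ A) → (∀ x : V₁, D.π x ∈ B' ↔ (x : K) ∈ B) →
      (A ≤ B ↔ A' ≤ B') := by
    intro A B A' B' hA _ h1 h2
    constructor
    · intro h y hy
      obtain ⟨x, rfl⟩ := D.surj y
      exact (h2 x).2 (h ((h1 x).1 hy))
    · intro h x hx
      exact (h2 ⟨x, hA hx⟩).1 (h ((h1 ⟨x, hA hx⟩).2 hx))
  refine ⟨Y, Y₁, hY1, ⟨?_, ?_⟩, hZ2, hY3, hZ3⟩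
  · rw [lt_iff_le_not_ge]
    refine ⟨(key Y Y₁ X X₁ hY2 hZ2 hY3 hZ3).2 hXX.le, fun h => ?_⟩
    exact hXX.lt.not_ge ((key Y₁ Y X₁ X hZ2 hY2 hZ3 hY3).1 h)
  · intro Z hYZ hZY
    have hZV : Z ≤ V₁ := hZY.le.trans hZ2
    obtain ⟨W'', D'', hD, -⟩ := exists_comp (k := k) Z V₁ (fun c => hYZ.le (hY1 (hV c))) hZV κ D.toRes
    have hπ : D''.π = D.π := congrArg LY.Res.π hD
    have hm : ∀ x : V₁, D.π x ∈ W'' ↔ (x : K) ∈ Z := by
      intro x
      rw [← hπ]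
      exact D''.mem x
    refine hXX.2 (c := W'') ?_ ?_
    · rw [lt_iff_le_not_ge]
      refine ⟨(key Y Z X W'' hY2 hZV hY3 hm).1 hYZ.le, fun h => ?_⟩
      exact hYZ.not_ge ((key Z Y W'' X hZV hY2 hm hY3).2 h)
    · rw [lt_iff_le_not_ge]
      refine ⟨(key Z Y₁ W'' X₁ hZV hZ2 hm hZ3).1 hZY.le, fun h => ?_⟩
      exact hZY.not_ge ((key Y₁ Z X₁ W'' hZ2 hZV hZ3 hm).2 h)

/-- The component of `Y ⋖ Y₁` is the component of `X ⋖ X₁`, if `Y ⋖ Y₁` are the preimages in `V₁` of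
`X ⋖ X₁`. -/
theorem comp_comp (V₁ : ValuationSubring K) (κ : Type u) [Field κ] [Algebra k κ]
    (D : LY.Res (k := k) V₁ κ) (X X₁ : ValuationSubring κ) (hXX : X ≤ X₁)
    (Y Y₁ : ValuationSubring K) (hY₁ : Y₁ ≤ V₁) (hX : ∀ x : V₁, D.π x ∈ X ↔ (x : K) ∈ Y)
    (hX₁ : ∀ x : V₁, D.π x ∈ X₁ ↔ (x : K) ∈ Y₁)
    (κ₁ : Type u) [Field κ₁] [Algebra k κ₁] (W₁ : ValuationSubring κ₁)
    (E : LY.Comp (k := k) Y Y₁ κ₁ W₁) : Nonempty (LY.Comp (k := k) X X₁ κ₁ W₁) := by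
  let ρ : Y₁ →+* X₁ :=
    { toFun := fun x => ⟨D.π ⟨x, hY₁ x.2⟩, (hX₁ _).2 x.2⟩
      map_one' := Subtype.ext (by
        show D.π ⟨1, _⟩ = 1
        exact map_one D.π)
      map_mul' := fun x y => Subtype.ext (by
        show D.π ⟨(x : K) * y, _⟩ = D.π ⟨x, _⟩ * D.π ⟨y, _⟩
        rw [← map_mul]
        rfl)
      map_zero' := Subtype.ext (by
        show D.π ⟨0, _⟩ = 0
        exact map_zero D.π)
      map_add' := fun x y => Subtype.ext (by
        show D.π ⟨(x : K) + y, _⟩ = D.π ⟨x, _⟩ + D.π ⟨y, _⟩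
        rw [← map_add]
        rfl) }
  have hρ : Function.Surjective ρ := by
    intro y
    obtain ⟨x, hx⟩ := D.surj (y : κ)
    have hx2 : (x : K) ∈ Y₁ := (hX₁ x).1 (by rw [hx]; exact y.2)
    exact ⟨⟨x, hx2⟩, Subtype.ext hx⟩
  have hker : RingHom.ker ρ ≤ RingHom.ker E.π := by
    intro x hx
    rw [RingHom.mem_ker] at hx ⊢
    have h1 : D.π ⟨x, hY₁ x.2⟩ = 0 := congrArg Subtype.val hx
    rw [D.ker] at h1
    rw [E.ker]
    exact ResTrans_lt hY₁ h1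
  let φ : X₁ →+* κ₁ := RingHom.liftOfSurjective ρ hρ ⟨E.π, hker⟩
  have hφ : ∀ x, φ (ρ x) = E.π x := fun x =>
    RingHom.liftOfRightInverse_comp_apply ρ (Function.surjInv hρ)
      (Function.rightInverse_surjInv hρ) ⟨E.π, hker⟩ x
  refine ⟨⟨⟨φ, ?_, ?_, ?_⟩, hXX, ?_⟩⟩
  · intro z
    obtain ⟨x, hx⟩ := E.surj z
    exact ⟨ρ x, by rw [hφ, hx]⟩
  · intro y
    obtain ⟨x, rfl⟩ := hρ y
    rw [hφ, E.ker, ResTrans_unit, ResTrans_unit, not_iff_not]
    constructor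
    · exact fun h => h.map ρ
    · intro h
      obtain ⟨y', hy'⟩ := h.exists_right_inv
      obtain ⟨x', rfl⟩ := hρ y'
      rw [← map_mul] at hy'
      have h1 : D.π ⟨((x * x' : Y₁) : K), hY₁ (x * x').2⟩ = 1 := congrArg Subtype.val hy'
      have h2 : D.π (⟨((x * x' : Y₁) : K), hY₁ (x * x').2⟩ - 1) = 0 := by
        rw [map_sub, h1, map_one, sub_self]
      rw [D.ker] at h2
      have h3 : Y₁.valuation (((x * x' - 1 : Y₁)) : K) < 1 := ResTrans_lt hY₁ h2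
      rw [ResTrans_unit] at h3
      have h4 : IsUnit (x * x') := by
        by_contra hn
        have h5 : x * x' ∈ IsLocalRing.maximalIdeal Y₁ := hn
        have h6 : x * x' - 1 ∈ IsLocalRing.maximalIdeal Y₁ := h3
        have h7 := Ideal.sub_mem _ h5 h6
        rw [sub_sub_cancel] at h7
        exact (IsLocalRing.maximalIdeal.isMaximal Y₁).ne_top ((Ideal.eq_top_iff_one _).2 h7)
      exact isUnit_of_mul_isUnit_left h4
  · intro c y hy
    have hc : algebraMap k K c ∈ V₁ := ResTrans_mem V₁ κ D c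
    have h1 : D.π ⟨algebraMap k K c, hc⟩ = algebraMap k κ c := D.alg c _ rfl
    have hc2 : algebraMap k K c ∈ Y₁ := (hX₁ ⟨_, hc⟩).1 (by rw [h1, ← hy]; exact y.2)
    have h2 : ρ ⟨algebraMap k K c, hc2⟩ = y := Subtype.ext (by
      show D.π ⟨algebraMap k K c, _⟩ = _
      rw [h1, hy])
    rw [← h2, hφ]
    exact E.alg c _ rfl
  · intro y
    obtain ⟨x, rfl⟩ := hρ y
    change φ (ρ x) ∈ W₁ ↔ D.π ⟨x, hY₁ x.2⟩ ∈ X
    rw [hφ, E.mem, hX]

/-- The residue field of the trivial valuation ring. -/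
theorem top_ess [Algebra.EssFiniteType k K] (κ : Type u) [Field κ] [Algebra k κ]
    (D : LY.Res (k := k) (⊤ : ValuationSubring K) κ) : Algebra.EssFiniteType k κ := by
  let f : K →ₐ[k] κ :=
    { toFun := fun x => D.π ⟨x, ValuationSubring.mem_top x⟩
      map_one' := map_one D.π
      map_mul' := fun x y => map_mul D.π ⟨x, _⟩ ⟨y, _⟩
      map_zero' := map_zero D.π
      map_add' := fun x y => map_add D.π ⟨x, _⟩ ⟨y, _⟩
      commutes' := fun c => D.alg c _ rfl }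
  refine Algebra.EssFiniteType.of_surjective f fun y => ?_
  obtain ⟨x, rfl⟩ := D.surj y
  exact ⟨x, rfl⟩

/-- Maximality passes to the component over the trivial valuation ring. -/
theorem top_max (V : ValuationSubring K) (hmax : ∀ Z : ValuationSubring K, V ≤ Z → Z = V ∨ Z = ⊤)
    (κ : Type u) [Field κ] [Algebra k κ] (W' : ValuationSubring κ)
    (D : LY.Comp (k := k) V ⊤ κ W') :
    ∀ Z : ValuationSubring κ, W' ≤ Z → Z = W' ∨ Z = ⊤ := by
  intro Z hZ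
  obtain ⟨V₂, h1, -, h3, -⟩ := exists_over V ⊤ κ W' D Z hZ
  rcases hmax V₂ h1 with h | h
  · left
    ext y
    obtain ⟨x, rfl⟩ := D.surj y
    rw [h3, D.mem, h]
  · right
    rw [eq_top_iff]
    intro y _
    obtain ⟨x, rfl⟩ := D.surj y
    rw [h3, h]
    exact ValuationSubring.mem_top _

theorem top_ne (V : ValuationSubring K) (hne : V ≠ ⊤) (κ : Type u) [Field κ] [Algebra k κ]
    (W' : ValuationSubring κ) (D : LY.Comp (k := k) V ⊤ κ W') : W' ≠ ⊤ := by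
  rintro rfl
  apply hne
  rw [eq_top_iff]
  intro x hx
  exact (D.mem ⟨x, hx⟩).1 (ValuationSubring.mem_top _)

end LYC
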