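import Pool.Agent.LYC.Defs

/-! Project LYC: residue fields and composites. -/

set_option autoImplicit false

namespace LYC

universe u

variable {k K : Type u} [Field k] [Field K] [Algebra k K]

/-- A valuation ring with a residue field over `k` contains `k`. -/
theorem ResTrans_mem (V₁ : ValuationSubring K) (κ : Type u) [Field κ] [Algebra k κ]
    (D : LY.Res (k := k) V₁ κ) (c : k) : algebraMap k K c ∈ V₁ := by
  rcases V₁.mem_or_inv_mem (algebraMap k K c) with h | h
  · exact h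
  · by_contra hn
    have hc : c ≠ 0 := by
      rintro rfl
      exact hn (by rw [map_zero]; exact V₁.zero_mem)
    have h1 : D.π ⟨(algebraMap k K c)⁻¹, h⟩ = algebraMap k κ c⁻¹ :=
      D.alg c⁻¹ ⟨(algebraMap k K c)⁻¹, h⟩ (by rw [map_inv₀])
    have h2 : D.π ⟨(algebraMap k K c)⁻¹, h⟩ = 0 := by
      rw [D.ker]
      show V₁.valuation (algebraMap k K c)⁻¹ < 1
      rw [map_inv₀]
      have h3 : 1 < V₁.valuation (algebraMap k K c) := by
        rw [← not_le, V₁.valuation_le_one_iff]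
        exact hn
      exact inv_lt_one_of_one_lt₀ h3
    rw [h1] at h2
    have h4 : algebraMap k κ c⁻¹ ≠ 0 := by
      rw [Ne, map_eq_zero]
      exact inv_ne_zero hc
    exact h4 h2

/-- Units of a valuation ring. -/
theorem ResTrans_unit {L : Type u} [Field L] (A : ValuationSubring L) (x : A) :
    A.valuation (x : L) < 1 ↔ ¬ IsUnit x := by
  rw [← A.valuation_lt_one_iff, IsLocalRing.mem_maximalIdeal, mem_nonunits_iff]

theorem ResTrans_lt {V₂ V₁ : ValuationSubring K} (h : V₂ ≤ V₁) {x : K}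
    (hx : V₁.valuation x < 1) : V₂.valuation x < 1 := by
  by_contra hn
  rw [not_lt] at hn
  have hx0 : x ≠ 0 := by
    rintro rfl
    rw [map_zero] at hn
    exact absurd hn (not_le.2 zero_lt_one)
  have h1 : x⁻¹ ∈ V₂ := by
    rw [← V₂.valuation_le_one_iff, map_inv₀]
    exact inv_le_one_of_one_le₀ hn
  have h2 : V₁.valuation x⁻¹ ≤ 1 := (V₁.valuation_le_one_iff _).2 (h h1)
  rw [map_inv₀] at h2
  have h3 : V₁.valuation x ≠ 0 := by
    rw [Ne, map_eq_zero]
    exact hx0
  have h4 : (1 : V₁.ValueGroup) < (V₁.valuation x)⁻¹ :=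
    (one_lt_inv₀ (zero_lt_iff.2 h3)).2 hx
  exact absurd h2 (not_le.2 h4)

/-- Valuation rings `W₂ ≥ W'` of the residue field come from valuation rings `V₂`, `V ≤ V₂ ≤ V₁`,
with the same residue field: `V₂ = {x ∈ V₁ | π x ∈ W₂}`; the residue map of `W₂` is
`y ↦ D₂.π x`, `π x = y`, `x ∈ V₂`. -/
theorem exists_over (V V₁ : ValuationSubring K) (κ : Type u) [Field κ] [Algebra k κ]
    (W' : ValuationSubring κ) (D : LY.Comp (k := k) V V₁ κ W') (W₂ : ValuationSubring κ)
    (hW₂ : W' ≤ W₂) :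
    ∃ V₂ : ValuationSubring K, V ≤ V₂ ∧ V₂ ≤ V₁ ∧ (∀ x : V₁, D.π x ∈ W₂ ↔ (x : K) ∈ V₂) ∧
      ∀ (κ₂ : Type u) [Field κ₂] [Algebra k κ₂], LY.Res (k := k) V₂ κ₂ →
        Nonempty (LY.Res (k := k) W₂ κ₂) := by
  have hle : V.toSubring ≤ (W₂.toSubring.comap D.π).map V₁.subtype := by
    intro x hx
    have hx1 : x ∈ V₁ := D.le hx
    exact ⟨⟨x, hx1⟩, hW₂ ((D.mem ⟨x, hx1⟩).2 hx), rfl⟩
  let V₂ : ValuationSubring K := ValuationSubring.ofLE V _ hle
  have hm : ∀ x : K, x ∈ V₂ ↔ ∃ h : x ∈ V₁, D.π ⟨x, h⟩ ∈ W₂ := by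
    intro x
    constructor
    · rintro ⟨y, hy, rfl⟩
      exact ⟨y.2, hy⟩
    · rintro ⟨h, hx⟩
      exact ⟨⟨x, h⟩, hx, rfl⟩
  have h21 : V₂ ≤ V₁ := fun x hx => ((hm x).1 hx).1
  refine ⟨V₂, fun x hx => hle hx, h21, fun x => ?_, ?_⟩
  · rw [hm]
    exact ⟨fun h => ⟨x.2, h⟩, fun ⟨_, h⟩ => h⟩
  · intro κ₂ _ _ D₂
    let ρ : V₂ →+* W₂ :=
      { toFun := fun x => ⟨D.π ⟨x, h21 x.2⟩, ((hm x).1 x.2).2⟩
        map_one' := Subtype.ext (by
          show D.π ⟨1, _⟩ = 1
          exact map_one D.π)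
        map_mul' := fun x y => Subtype.ext (by
          show D.π ⟨(x : K) * y, _⟩ = D.π ⟨x, _⟩ * D.π ⟨y, _⟩
          rw [← map_mul]
          rfl)
        map_zero' := Subtype.ext (by
          show D.π ⟨0, _⟩ = 0
          exact map_zero D.π)
        map_add' := fun x y => Subtype.ext (by
          show D.π ⟨(x : K) + y, _⟩ = D.π ⟨x, _⟩ + D.π ⟨y, _⟩
          rw [← map_add]
          rfl) }
    have hρ : Function.Surjective ρ := by
      intro y
      obtain ⟨x, hx⟩ := D.surj (y : κ)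
      have hx2 : (x : K) ∈ V₂ := (hm x).2 ⟨x.2, by rw [hx]; exact y.2⟩
      exact ⟨⟨x, hx2⟩, Subtype.ext hx⟩
    have hker : RingHom.ker ρ ≤ RingHom.ker D₂.π := by
      intro x hx
      rw [RingHom.mem_ker] at hx ⊢
      have h1 : D.π ⟨x, h21 x.2⟩ = 0 := congrArg Subtype.val hx
      rw [D.ker] at h1
      rw [D₂.ker]
      exact ResTrans_lt h21 h1
    let φ : W₂ →+* κ₂ := RingHom.liftOfSurjective ρ hρ ⟨D₂.π, hker⟩
    have hφ : ∀ x, φ (ρ x) = D₂.π x := fun x =>
      RingHom.liftOfRightInverse_comp_apply ρ (Function.surjInv hρ)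
        (Function.rightInverse_surjInv hρ) ⟨D₂.π, hker⟩ x
    refine ⟨⟨φ, ?_, ?_, ?_⟩⟩
    · intro z
      obtain ⟨x, hx⟩ := D₂.surj z
      exact ⟨ρ x, by rw [hφ, hx]⟩
    · intro y
      obtain ⟨x, rfl⟩ := hρ y
      rw [hφ, D₂.ker, ResTrans_unit, ResTrans_unit, not_iff_not]
      constructor
      · exact fun h => h.map ρ
      · intro h
        obtain ⟨y', hy'⟩ := h.exists_right_inv
        obtain ⟨x', rfl⟩ := hρ y'
        rw [← map_mul] at hy'
        have h1 : D.π ⟨((x * x' : V₂) : K), h21 (x * x').2⟩ = 1 := congrArg Subtype.val hy'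
        have h2 : D.π (⟨((x * x' : V₂) : K), h21 (x * x').2⟩ - 1) = 0 := by
          rw [map_sub, h1, map_one, sub_self]
        rw [D.ker] at h2
        have h3 : V₂.valuation (((x * x' - 1 : V₂)) : K) < 1 := ResTrans_lt h21 h2
        rw [ResTrans_unit] at h3
        have h4 : IsUnit (x * x') := by
          by_contra hn
          have h5 : x * x' ∈ IsLocalRing.maximalIdeal V₂ := hn
          have h6 : x * x' - 1 ∈ IsLocalRing.maximalIdeal V₂ := h3
          have h7 := Ideal.sub_mem _ h5 h6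
          rw [sub_sub_cancel] at h7
          exact (IsLocalRing.maximalIdeal.isMaximal V₂).ne_top ((Ideal.eq_top_iff_one _).2 h7)
        exact isUnit_of_mul_isUnit_left h4
    · intro c y hy
      have hc : algebraMap k K c ∈ V₁ := ResTrans_mem V₁ κ D.toRes c
      have h1 : D.π ⟨algebraMap k K c, hc⟩ = algebraMap k κ c := D.alg c _ rfl
      have hc2 : algebraMap k K c ∈ V₂ := (hm _).2 ⟨hc, by rw [h1, ← hy]; exact y.2⟩
      have h2 : ρ ⟨algebraMap k K c, hc2⟩ = y := Subtype.ext (by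
        show D.π ⟨algebraMap k K c, _⟩ = _
        rw [h1, hy])
      rw [← h2, hφ]
      exact D₂.alg c _ rfl

/-- Separability of the residue fields passes to the induced valuation ring. -/
theorem sepRes_comp (V V₁ : ValuationSubring K) (κ : Type u) [Field κ] [Algebra k κ]
    (W' : ValuationSubring κ) (D : LY.Comp (k := k) V V₁ κ W')
    (h : ∀ V₂ : ValuationSubring K, V ≤ V₂ → SepRes k V₂) (W₂ : ValuationSubring κ)
    (hW₂ : W' ≤ W₂) : SepRes k W₂ := by
  obtain ⟨V₂, h1, -, -, h2⟩ := exists_over V V₁ κ W' D W₂ hW₂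
  obtain ⟨κ₂, _, _, ⟨D₂⟩, h3⟩ := h V₂ h1
  exact ⟨κ₂, inferInstance, inferInstance, h2 κ₂ D₂, h3⟩

/-- Elements with independent residues for `V` give such elements for `W'` (`t' i = π (t i)`). -/
theorem resInd_comp (V V₁ : ValuationSubring K) (κ : Type u) [Field κ] [Algebra k κ]
    (W' : ValuationSubring κ) (D : LY.Comp (k := k) V V₁ κ W') {d : ℕ} (t : Fin d → K)
    (ht : ResInd k V t) : ∃ t' : Fin d → κ, ResInd k W' t' := by
  have ht1 : ∀ i, t i ∈ V₁ := by
    intro i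
    apply D.le
    rw [← V.valuation_le_one_iff]
    have := ht (MvPolynomial.X i) (MvPolynomial.X_ne_zero i)
    rw [MvPolynomial.aeval_X] at this
    exact this.le
  let φ : k →+* V₁ := (algebraMap k K).codRestrict V₁.toSubring (ResTrans_mem V₁ κ D.toRes)
  let ev : MvPolynomial (Fin d) k →+* V₁ := MvPolynomial.eval₂Hom φ (fun i => ⟨t i, ht1 i⟩)
  let t' : Fin d → κ := fun i => D.π ⟨t i, ht1 i⟩
  have e1 : ∀ P, (ev P : K) = MvPolynomial.aeval t P := by
    intro P
    have h : V₁.subtype.comp ev = (MvPolynomial.aeval t : MvPolynomial (Fin d) k →ₐ[k] K).toRingHom := by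
      apply MvPolynomial.ringHom_ext
      · intro c
        show V₁.subtype (MvPolynomial.eval₂Hom φ _ (MvPolynomial.C c)) = MvPolynomial.aeval t _
        rw [MvPolynomial.eval₂Hom_C, MvPolynomial.aeval_C]
        rfl
      · intro i
        show V₁.subtype (MvPolynomial.eval₂Hom φ _ (MvPolynomial.X i)) = MvPolynomial.aeval t _
        rw [MvPolynomial.eval₂Hom_X', MvPolynomial.aeval_X]
        rfl
    exact RingHom.congr_fun h P
  have e2 : ∀ P, D.π (ev P) = MvPolynomial.aeval t' P := by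
    intro P
    have h : D.π.comp ev = (MvPolynomial.aeval t' : MvPolynomial (Fin d) k →ₐ[k] κ).toRingHom := by
      apply MvPolynomial.ringHom_ext
      · intro c
        show D.π (MvPolynomial.eval₂Hom φ _ (MvPolynomial.C c)) = MvPolynomial.aeval t' _
        rw [MvPolynomial.eval₂Hom_C, MvPolynomial.aeval_C]
        exact D.alg c _ rfl
      · intro i
        show D.π (MvPolynomial.eval₂Hom φ _ (MvPolynomial.X i)) = MvPolynomial.aeval t' _
        rw [MvPolynomial.eval₂Hom_X', MvPolynomial.aeval_X]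
    exact RingHom.congr_fun h P
  refine ⟨t', fun P hP => ?_⟩
  have h1 : V.valuation (ev P : K) = 1 := by
    rw [e1]
    exact ht P hP
  have h2 : (ev P : K) ∈ V := by
    rw [← V.valuation_le_one_iff]
    exact h1.le
  have h3 : (ev P : K)⁻¹ ∈ V := by
    rw [← V.valuation_le_one_iff, map_inv₀, h1, inv_one]
  have h4 : D.π (ev P) ∈ W' := (D.mem _).2 h2
  have h5 : D.π ⟨(ev P : K)⁻¹, D.le h3⟩ ∈ W' := (D.mem _).2 h3
  have h0 : (ev P : K) ≠ 0 := by
    intro h
    rw [h, map_zero] at h1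
    exact zero_ne_one h1
  have h6 : D.π (ev P) * D.π ⟨(ev P : K)⁻¹, D.le h3⟩ = 1 := by
    rw [← map_mul]
    have : ev P * (⟨(ev P : K)⁻¹, D.le h3⟩ : V₁) = 1 := Subtype.ext (mul_inv_cancel₀ h0)
    rw [this, map_one]
  rw [← e2]
  have h7 := congrArg W'.valuation h6
  rw [map_mul, map_one] at h7
  have h8 : W'.valuation (D.π (ev P)) ≤ 1 := (W'.valuation_le_one_iff _).2 h4
  have h9 : W'.valuation (D.π ⟨(ev P : K)⁻¹, D.le h3⟩) ≤ 1 := (W'.valuation_le_one_iff _).2 h5
  exact le_antisymm h8 (by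
    rw [← h7]
    exact mul_le_of_le_one_right' h9)

end LYC
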