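import Pool.Agent.LYC.CompOf
import Pool.Agent.LYC.ResTrans

/-! Project LYC: coarsenings of the induced valuation ring. -/

set_option autoImplicit false

namespace LYC

universe u

variable {k K : Type u} [Field k] [Field K] [Algebra k K]

theorem CovTrans_inv (V₁ : ValuationSubring K) (κ : Type u) [Field κ] [Algebra k κ]
    (D : LY.Res (k := k) V₁ κ) (z : V₁) (hz : D.π z ≠ 0) :
    ∃ h : (z : K)⁻¹ ∈ V₁, D.π ⟨(z : K)⁻¹, h⟩ = (D.π z)⁻¹ := by
  have h1 : ¬ V₁.valuation (z : K) < 1 := fun h => hz ((D.ker z).2 h)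
  rw [not_lt] at h1
  have h2 : (z : K)⁻¹ ∈ V₁ := by
    rw [← V₁.valuation_le_one_iff, map_inv₀]
    exact inv_le_one_of_one_le₀ h1
  refine ⟨h2, ?_⟩
  have hz0 : (z : K) ≠ 0 := by
    intro h
    apply hz
    have : z = 0 := Subtype.ext h
    rw [this, map_zero]
  refine eq_inv_of_mul_eq_one_left ?_
  rw [← map_mul]
  have : (⟨(z : K)⁻¹, h2⟩ : V₁) * z = 1 := Subtype.ext (inv_mul_cancel₀ hz0)
  rw [this, map_one]

/-- units of the induced ring -/
theorem CovTrans_one (V V₁ : ValuationSubring K) (κ : Type u) [Field κ] [Algebra k κ]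
    (W' : ValuationSubring κ) (D : LY.Comp (k := k) V V₁ κ W') (z : V₁) :
    W'.valuation (D.π z) = 1 ↔ V.valuation (z : K) = 1 := by
  constructor
  · intro h
    have h0 : D.π z ≠ 0 := by
      intro h'
      rw [h', map_zero] at h
      exact zero_ne_one h
    obtain ⟨h1, h2⟩ := CovTrans_inv V₁ κ D.toRes z h0
    have h3 : V.valuation (z : K) ≤ 1 := by
      rw [V.valuation_le_one_iff, ← D.mem, ← W'.valuation_le_one_iff]
      exact h.le
    have h4 : V.valuation (z : K)⁻¹ ≤ 1 := by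
      rw [V.valuation_le_one_iff]
      apply (D.mem ⟨(z : K)⁻¹, h1⟩).1
      rw [← W'.valuation_le_one_iff, h2, map_inv₀, h, inv_one]
    have hz0 : (z : K) ≠ 0 := by
      intro h'
      apply h0
      have : z = 0 := Subtype.ext h'
      rw [this, map_zero]
    have h5 : V.valuation (z : K) * V.valuation (z : K)⁻¹ = 1 := by
      rw [← map_mul, mul_inv_cancel₀ hz0, map_one]
    refine le_antisymm h3 ?_
    rw [← h5]
    exact mul_le_of_le_one_right' h4
  · intro h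
    have hz0 : (z : K) ≠ 0 := by
      intro h'
      rw [h', map_zero] at h
      exact zero_ne_one h
    have h2 : (z : K) ∈ V := by
      rw [← V.valuation_le_one_iff]
      exact h.le
    have h3 : (z : K)⁻¹ ∈ V := by
      rw [← V.valuation_le_one_iff, map_inv₀, h, inv_one]
    have h4 : D.π z ∈ W' := (D.mem _).2 h2
    have h5 : D.π ⟨(z : K)⁻¹, D.le h3⟩ ∈ W' := (D.mem _).2 h3
    have h6 : D.π z * D.π ⟨(z : K)⁻¹, D.le h3⟩ = 1 := by
      rw [← map_mul]
      have : z * (⟨(z : K)⁻¹, D.le h3⟩ : V₁) = 1 := Subtype.ext (mul_inv_cancel₀ hz0)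
      rw [this, map_one]
    have h7 := congrArg W'.valuation h6
    rw [map_mul, map_one] at h7
    have h8 : W'.valuation (D.π z) ≤ 1 := (W'.valuation_le_one_iff _).2 h4
    have h9 : W'.valuation (D.π ⟨(z : K)⁻¹, D.le h3⟩) ≤ 1 := (W'.valuation_le_one_iff _).2 h5
    exact le_antisymm h8 (by
      rw [← h7]
      exact mul_le_of_le_one_right' h9)

theorem CovTrans_lt (V V₁ : ValuationSubring K) (κ : Type u) [Field κ] [Algebra k κ]
    (W' : ValuationSubring κ) (D : LY.Comp (k := k) V V₁ κ W') (z : V₁)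
    (hz : V.valuation (z : K) < 1) : W'.valuation (D.π z) < 1 := by
  refine lt_of_le_of_ne ?_ fun h => hz.ne ((CovTrans_one V V₁ κ W' D z).1 h)
  rw [W'.valuation_le_one_iff, D.mem, ← V.valuation_le_one_iff]
  exact hz.le

/-- Elements with independent residues lift (`V₁`-lifts of `t'`; the residue of a polynomial in the
lifts is the polynomial in `t'`, a unit of `W'`). -/
theorem resInd_lift (V V₁ : ValuationSubring K) (κ : Type u) [Field κ] [Algebra k κ]
    (W' : ValuationSubring κ) (D : LY.Comp (k := k) V V₁ κ W') {d : ℕ} (t' : Fin d → κ)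
    (ht : ResInd k W' t') : ∃ t : Fin d → K, ResInd k V t := by
  choose s hs using fun i => D.surj (t' i)
  let φ : k →+* V₁ := (algebraMap k K).codRestrict V₁.toSubring (ResTrans_mem V₁ κ D.toRes)
  let ev : MvPolynomial (Fin d) k →+* V₁ := MvPolynomial.eval₂Hom φ s
  let t : Fin d → K := fun i => (s i : K)
  have e1 : ∀ P, (ev P : K) = MvPolynomial.aeval t P := by
    intro P
    have h : V₁.subtype.comp ev = (MvPolynomial.aeval t : MvPolynomial (Fin d) k →ₐ[k] K).toRingHom := by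
      apply MvPolynomial.ringHom_ext
      · intro c
        show V₁.subtype (MvPolynomial.eval₂Hom φ _ (MvPolynomial.C c)) = MvPolynomial.aeval t _
        rw [MvPolynomial.eval₂Hom_C, MvPolynomial.aeval_C]
        rfl
      · intro i
        show V₁.subtype (MvPolynomial.eval₂Hom φ _ (MvPolynomial.X i)) = MvPolynomial.aeval t _
        rw [MvPolynomial.eval₂Hom_X', MvPolynomial.aeval_X]
        rfl
    exact RingHom.congr_fun h P
  have e2 : ∀ P, D.π (ev P) = MvPolynomial.aeval t' P := by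
    intro P
    have h : D.π.comp ev = (MvPolynomial.aeval t' : MvPolynomial (Fin d) k →ₐ[k] κ).toRingHom := by
      apply MvPolynomial.ringHom_ext
      · intro c
        show D.π (MvPolynomial.eval₂Hom φ _ (MvPolynomial.C c)) = MvPolynomial.aeval t' _
        rw [MvPolynomial.eval₂Hom_C, MvPolynomial.aeval_C]
        exact D.alg c _ rfl
      · intro i
        show D.π (MvPolynomial.eval₂Hom φ _ (MvPolynomial.X i)) = MvPolynomial.aeval t' _
        rw [MvPolynomial.eval₂Hom_X', MvPolynomial.aeval_X]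
        exact hs i
    exact RingHom.congr_fun h P
  refine ⟨t, fun P hP => ?_⟩
  rw [← e1, ← CovTrans_one V V₁ κ W' D, e2]
  exact ht P hP

/-- `FGRes` passes to the induced valuation ring. -/
theorem fgRes_comp (V V₁ : ValuationSubring K) (κ : Type u) [Field κ] [Algebra k κ]
    (W' : ValuationSubring κ) (D : LY.Comp (k := k) V V₁ κ W') (h : FGRes k V) : FGRes k W' := by
  classical
  obtain ⟨T, hT, hx⟩ := h
  let T' : Finset κ := T.attach.image fun x : {x // x ∈ T} => D.π ⟨(x : K), D.le (hT x x.2)⟩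
  have hadj : ∀ a ∈ Algebra.adjoin k (T : Set K), ∃ h : a ∈ V₁,
      D.π ⟨a, h⟩ ∈ Algebra.adjoin k (T' : Set κ) := by
    intro a ha
    induction ha using Algebra.adjoin_induction with
    | mem x hx' =>
      refine ⟨D.le (hT x hx'), Algebra.subset_adjoin ?_⟩
      exact Finset.mem_coe.2 (Finset.mem_image.2 ⟨⟨x, hx'⟩, Finset.mem_attach _ _, rfl⟩)
    | algebraMap c =>
      refine ⟨ResTrans_mem V₁ κ D.toRes c, ?_⟩
      rw [D.alg c _ rfl]
      exact Subalgebra.algebraMap_mem _ c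
    | add x y _ _ h1 h2 =>
      obtain ⟨h1, h1'⟩ := h1
      obtain ⟨h2, h2'⟩ := h2
      refine ⟨V₁.add_mem _ _ h1 h2, ?_⟩
      have e : (⟨x + y, V₁.add_mem _ _ h1 h2⟩ : V₁) = ⟨x, h1⟩ + ⟨y, h2⟩ := rfl
      rw [e, map_add]
      exact add_mem h1' h2'
    | mul x y _ _ h1 h2 =>
      obtain ⟨h1, h1'⟩ := h1
      obtain ⟨h2, h2'⟩ := h2
      refine ⟨V₁.mul_mem _ _ h1 h2, ?_⟩
      have e : (⟨x * y, V₁.mul_mem _ _ h1 h2⟩ : V₁) = ⟨x, h1⟩ * ⟨y, h2⟩ := rfl
      rw [e, map_mul]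
      exact mul_mem h1' h2'
  refine ⟨T', ?_, ?_⟩
  · intro y hy
    obtain ⟨x, _, rfl⟩ := Finset.mem_image.1 hy
    exact (D.mem _).2 (hT x x.2)
  · intro y hy
    obtain ⟨x, rfl⟩ := D.surj y
    have hxV : (x : K) ∈ V := (D.mem x).1 hy
    obtain ⟨a, ha, b, hb, hb1, hab⟩ := hx x hxV
    obtain ⟨ha1, ha2⟩ := hadj a ha
    obtain ⟨hb2, hb3⟩ := hadj b hb
    refine ⟨_, ha2, _, hb3, (CovTrans_one V V₁ κ W' D _).2 hb1, ?_⟩
    rw [← map_mul, ← map_sub]
    exact CovTrans_lt V V₁ κ W' D _ hab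

/-- Adjacent coarsenings `X ⋖ X₁` of `W'` come from adjacent coarsenings `Y ⋖ Y₁` of `V`
(`exists_over`; a ring `Z` between `Y` and `Y₁` has an image in `κ`, `exists_comp`, and is determined
by it). -/
theorem covBy_comp (V V₁ : ValuationSubring K) (hV : ∀ c : k, algebraMap k K c ∈ V) (κ : Type u)
    [Field κ] [Algebra k κ]
    (W' : ValuationSubring κ) (D : LY.Comp (k := k) V V₁ κ W') (X X₁ : ValuationSubring κ)
    (hX : W' ≤ X) (hXX : X ⋖ X₁) :
    ∃ Y Y₁ : ValuationSubring K, V ≤ Y ∧ Y ⋖ Y₁ ∧ Nonempty (LY.Comp (k := k) Y V₁ κ X) ∧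
      Nonempty (LY.Comp (k := k) Y₁ V₁ κ X₁) := by
  obtain ⟨Y, hY1, hY2, hY3, -⟩ := exists_over V V₁ κ W' D X hX
  obtain ⟨Y₁, hZ1, hZ2, hZ3, -⟩ := exists_over V V₁ κ W' D X₁ (hX.trans hXX.le)
  -- comparison of two rings below `V₁` through their images
  have key : ∀ (A B : ValuationSubring K) (A' B' : ValuationSubring κ), A ≤ V₁ → B ≤ V₁ →
      (∀ x : V₁, D.π x ∈ A' ↔ (x : K) ∈ A) → (∀ x : V₁, D.π x ∈ B' ↔ (x : K) ∈ B) →
      (A ≤ B ↔ A' ≤ B') := by
    intro A B A' B' hA _ h1 h2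
    constructor
    · intro h y hy
      obtain ⟨x, rfl⟩ := D.surj y
      exact (h2 x).2 (h ((h1 x).1 hy))
    · intro h x hx
      exact (h2 ⟨x, hA hx⟩).1 (h ((h1 ⟨x, hA hx⟩).2 hx))
  refine ⟨Y, Y₁, hY1, ⟨?_, ?_⟩, ⟨⟨D.toRes, hY2, hY3⟩⟩, ⟨⟨D.toRes, hZ2, hZ3⟩⟩⟩
  · rw [lt_iff_le_not_ge]
    refine ⟨(key Y Y₁ X X₁ hY2 hZ2 hY3 hZ3).2 hXX.le, fun h => ?_⟩
    exact hXX.lt.not_ge ((key Y₁ Y X₁ X hZ2 hY2 hZ3 hY3).1 h)
  · intro Z hYZ hZY
    have hZV : Z ≤ V₁ := hZY.le.trans hZ2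
    obtain ⟨W'', D'', hD, -⟩ := exists_comp (k := k) Z V₁ (fun c => hYZ.le (hY1 (hV c))) hZV κ D.toRes
    have hπ : D''.π = D.π := congrArg LY.Res.π hD
    have hm : ∀ x : V₁, D.π x ∈ W'' ↔ (x : K) ∈ Z := by
      intro x
      rw [← hπ]
      exact D''.mem x
    refine hXX.2 (c := W'') ?_ ?_
    · rw [lt_iff_le_not_ge]
      refine ⟨(key Y Z X W'' hY2 hZV hY3 hm).1 hYZ.le, fun h => ?_⟩
      exact hYZ.not_ge ((key Z Y W'' X hZV hY2 hm hY3).2 h)
    · rw [lt_iff_le_not_ge]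
      refine ⟨(key Z Y₁ W'' X₁ hZV hZ2 hm hZ3).1 hZY.le, fun h => ?_⟩
      exact hZY.not_ge ((key Y₁ Z X₁ W'' hZ2 hZV hZ3 hm).2 h)

end LYC
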