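import Pool.Agent.LYC.Abh

/-! Project LYC: the transcendence defect. -/

set_option autoImplicit false

namespace LYC

universe u

variable {K : Type u} [Field K]

/-- The rational rank of the value group. -/
noncomputable def rr (W : ValuationSubring K) : ℕ := Module.finrank ℤ (Additive (W.ValueGroup)ˣ)

/-- The transcendence degree over `k` of the residue field: the maximal number of elements with
algebraically independent residues. -/
noncomputable def td (k : Type u) [Field k] [Algebra k K] (W : ValuationSubring K) : ℕ :=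
  sSup {d : ℕ | ∃ t : Fin d → K, ResInd k W t}

/-- The transcendence defect (Abhyankar defect) of a valuation ring. -/
noncomputable def defect (k : Type u) [Field k] [Algebra k K] (W : ValuationSubring K) : ℤ :=
  (Cardinal.toNat (Algebra.trdeg k K) : ℤ) - rr W - td k W

variable {k : Type u} [Field k] [Algebra k K]

/-- The empty family has independent residues. -/
theorem Defect_zero (W : ValuationSubring K) (hW : ∀ c : k, algebraMap k K c ∈ W)
    (t : Fin 0 → K) : ResInd k W t := by
  intro P hP
  obtain ⟨c, rfl⟩ : ∃ c : k, P = MvPolynomial.C c := ⟨_, MvPolynomial.eq_C_of_isEmpty P⟩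
  have hc : c ≠ 0 := by
    rintro rfl
    exact hP (map_zero _)
  rw [MvPolynomial.aeval_C]
  exact Val_const W hW hc

/-- The bound of the number of elements with independent residues. -/
theorem Defect_le [Algebra.EssFiniteType k K] (W : ValuationSubring K)
    (hW : ∀ c : k, algebraMap k K c ∈ W) {d : ℕ} (t : Fin d → K) (ht : ResInd k W t) :
    d ≤ Cardinal.toNat (Algebra.trdeg k K) := by
  obtain ⟨n, hn⟩ := Cardinal.lt_aleph0.1 (trdeg_lt_aleph0 k K)
  have h1 := abh_ineq W hW t ht
  rw [hn] at h1 ⊢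
  rw [Cardinal.toNat_natCast]
  have h2 : (d : Cardinal.{u}) ≤ (n : Cardinal.{u}) := le_trans (self_le_add_left _ _) h1
  exact_mod_cast h2

theorem Defect_bdd [Algebra.EssFiniteType k K] (W : ValuationSubring K)
    (hW : ∀ c : k, algebraMap k K c ∈ W) : BddAbove {d : ℕ | ∃ t : Fin d → K, ResInd k W t} :=
  ⟨Cardinal.toNat (Algebra.trdeg k K), fun _ ⟨t, ht⟩ => Defect_le W hW t ht⟩

/-- A finite transcendence basis. -/
theorem Defect_basis (k L : Type u) [Field k] [Field L] [Algebra k L] [Algebra.EssFiniteType k L] :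
    ∃ (d : ℕ) (t : Fin d → L), AlgebraicIndependent k t ∧
      Algebra.trdeg k L = (d : Cardinal.{u}) := by
  obtain ⟨d, hd⟩ := Cardinal.lt_aleph0.1 (trdeg_lt_aleph0 k L)
  obtain ⟨s, hs⟩ := exists_isTranscendenceBasis k L
  have hc : Cardinal.mk s = (d : Cardinal.{u}) := by rw [hs.cardinalMk_eq_trdeg, hd]
  obtain ⟨e⟩ : Nonempty (Fin d ≃ s) := by
    rw [← Cardinal.lift_mk_eq'.{0, u}]
    simp [hc]
  exact ⟨d, fun i => ((e i : s) : L), hs.1.comp e e.injective, hd⟩

/-- The residues of elements with independent residues are algebraically independent. -/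
theorem Defect_indep (W : ValuationSubring K) (hW : ∀ c : k, algebraMap k K c ∈ W) (κ : Type u)
    [Field κ] [Algebra k κ] (D : LY.Res (k := k) W κ) {d : ℕ} (t : Fin d → K)
    (ht : ResInd k W t) : ∃ tb : Fin d → κ, AlgebraicIndependent k tb := by
  have hm : ∀ i, t i ∈ W := fun i =>
    ht.mem_adjoin (t i) (IntermediateField.subset_adjoin k _ ⟨i, rfl⟩)
  let c : k →+* W := (algebraMap k K).codRestrict W.toSubring hW
  let φ : MvPolynomial (Fin d) k →+* W := MvPolynomial.eval₂Hom c (fun i => ⟨t i, hm i⟩)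
  have h1 : W.subtype.comp φ = (MvPolynomial.aeval t : MvPolynomial (Fin d) k →ₐ[k] K).toRingHom := by
    refine MvPolynomial.ringHom_ext (fun a => ?_) (fun i => ?_)
    · simp [φ, c]
    · simp [φ]
  have h2 : D.π.comp φ = (MvPolynomial.aeval (fun i => D.π ⟨t i, hm i⟩) :
      MvPolynomial (Fin d) k →ₐ[k] κ).toRingHom := by
    refine MvPolynomial.ringHom_ext (fun a => ?_) (fun i => ?_)
    · simp only [RingHom.comp_apply, φ, MvPolynomial.eval₂Hom_C, AlgHom.toRingHom_eq_coe,
        RingHom.coe_coe, MvPolynomial.aeval_C]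
      exact D.alg a _ rfl
    · simp [φ]
  refine ⟨fun i => D.π ⟨t i, hm i⟩, ?_⟩
  rw [algebraicIndependent_iff]
  intro P hP
  by_contra hP0
  have h3 := ht P hP0
  have h4 : D.π (φ P) = 0 := by
    have := congrArg (fun f : MvPolynomial (Fin d) k →+* κ => f P) h2
    exact this.trans hP
  have h5 : ((φ P : W) : K) = MvPolynomial.aeval t P :=
    congrArg (fun f : MvPolynomial (Fin d) k →+* K => f P) h1
  rw [D.ker, h5, h3] at h4
  exact lt_irrefl _ h4

/-- The rank is finite (`abh_ineq` with `d = 0`: the empty family, `Fin.elim0`). -/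
theorem rank_eq_rr [Algebra.EssFiniteType k K] (W : ValuationSubring K)
    (hW : ∀ c : k, algebraMap k K c ∈ W) : Module.rank ℤ (Gam W) = (rr W : Cardinal.{u}) := by
  have h1 := abh_ineq W hW (Fin.elim0 : Fin 0 → K) (Defect_zero W hW _)
  have h2 : Module.rank ℤ (Gam W) < Cardinal.aleph0 :=
    lt_of_le_of_lt (le_trans (self_le_add_right _ _) h1) (trdeg_lt_aleph0 k K)
  exact (Cardinal.cast_toNat_of_lt_aleph0 h2).symm

theorem exists_td [Algebra.EssFiniteType k K] (W : ValuationSubring K)
    (hW : ∀ c : k, algebraMap k K c ∈ W) : ∃ t : Fin (td k W) → K, ResInd k W t := by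
  exact Nat.sSup_mem (s := {d : ℕ | ∃ t : Fin d → K, ResInd k W t})
    ⟨0, Fin.elim0, Defect_zero W hW _⟩ (Defect_bdd W hW)

theorem le_td [Algebra.EssFiniteType k K] (W : ValuationSubring K)
    (hW : ∀ c : k, algebraMap k K c ∈ W) {d : ℕ} (t : Fin d → K) (ht : ResInd k W t) :
    d ≤ td k W := by
  exact le_csSup (Defect_bdd W hW) ⟨t, ht⟩

/-- `td` is the transcendence degree of the residue field (`exists_resInd`; conversely the residues of
`t` are algebraically independent). -/
theorem trdeg_eq_td [Algebra.EssFiniteType k K] (W : ValuationSubring K)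
    (hW : ∀ c : k, algebraMap k K c ∈ W) (κ : Type u) [Field κ] [Algebra k κ]
    [Algebra.EssFiniteType k κ] (D : LY.Res (k := k) W κ) :
    Algebra.trdeg k κ = (td k W : Cardinal.{u}) := by
  obtain ⟨d, tb, htb, hd⟩ := Defect_basis k κ
  obtain ⟨t, ht, -⟩ := exists_resInd W κ D hW tb htb
  have h1 : d ≤ td k W := le_td W hW t ht
  obtain ⟨t', ht'⟩ := exists_td W hW
  obtain ⟨tb', htb'⟩ := Defect_indep W hW κ D t' ht'
  have h2 := htb'.lift_cardinalMk_le_trdeg
  rw [hd] at h2
  have h3 : td k W ≤ d := by simpa using h2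
  rw [hd, le_antisymm h1 h3]

/-- The Abhyankar inequality. -/
theorem defect_nonneg [Algebra.EssFiniteType k K] (W : ValuationSubring K)
    (hW : ∀ c : k, algebraMap k K c ∈ W) : 0 ≤ defect k W := by
  obtain ⟨n, hn⟩ := Cardinal.lt_aleph0.1 (trdeg_lt_aleph0 k K)
  obtain ⟨t, ht⟩ := exists_td W hW
  have h1 := abh_ineq W hW t ht
  rw [rank_eq_rr W hW, hn] at h1
  have h2 : rr W + td k W ≤ n := by exact_mod_cast h1
  have h3 : Cardinal.toNat (Algebra.trdeg k K) = n := by rw [hn, Cardinal.toNat_natCast]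
  unfold defect
  rw [h3]
  omega

/-- The trivial valuation has defect zero. -/
theorem defect_top [Algebra.EssFiniteType k K] : defect k (⊤ : ValuationSubring K) = 0 := by
  have h1 := defect_nonneg (k := k) (⊤ : ValuationSubring K) (fun _ => ValuationSubring.mem_top _)
  obtain ⟨d, t, ht, hd⟩ := Defect_basis k K
  have h2 : ResInd k (⊤ : ValuationSubring K) t := by
    intro P hP
    have h3 : MvPolynomial.aeval t P ≠ 0 := fun h => hP ((algebraicIndependent_iff.1 ht) P h)
    have h4 : ∀ x : K, (⊤ : ValuationSubring K).valuation x ≤ 1 := fun x =>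
      ((⊤ : ValuationSubring K).valuation_le_one_iff x).2 (ValuationSubring.mem_top x)
    have h5 : (⊤ : ValuationSubring K).valuation (MvPolynomial.aeval t P) ≠ 0 :=
      (Valuation.ne_zero_iff _).2 h3
    refine le_antisymm (h4 _) ?_
    have h6 := h4 (MvPolynomial.aeval t P)⁻¹
    rw [map_inv₀] at h6
    exact (inv_le_one₀ (zero_lt_iff.2 h5)).1 h6
  have h3 := le_td (k := k) (⊤ : ValuationSubring K) (fun _ => ValuationSubring.mem_top _) t h2
  have h4 : Cardinal.toNat (Algebra.trdeg k K) = d := by rw [hd, Cardinal.toNat_natCast]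
  unfold defect at h1 ⊢
  rw [h4] at h1 ⊢
  omega

end LYC
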