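import Pool.Agent.LYC.Defs

/-! Project LYC: additivity of the rational rank. -/

set_option autoImplicit false

namespace LYC

universe u

variable {k K : Type u} [Field k] [Field K] [Algebra k K]

/-- the map of value groups -/
noncomputable def RankAdd_phi (V V₁ : ValuationSubring K) (h : V ≤ V₁) :
    Gam V →ₗ[ℤ] Gam V₁ :=
  (MonoidHom.toAdditive (Units.map ((V.mapOfLE V₁ h : V.ValueGroup →*₀ V₁.ValueGroup) :
    V.ValueGroup →* V₁.ValueGroup))).toIntLinearMap

/-- the values of the units of `V₁` -/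
noncomputable def RankAdd_eta (V V₁ : ValuationSubring K) :
    Additive V₁.unitGroup →ₗ[ℤ] Gam V :=
  (MonoidHom.toAdditive ((Units.map (V.valuation.toMonoidWithZeroHom.toMonoidHom)).comp
    V₁.unitGroup.subtype)).toIntLinearMap

/-- the values of the residues of the units of `V₁` -/
noncomputable def RankAdd_theta (V₁ : ValuationSubring K) {κ : Type u} [Field κ]
    (W' : ValuationSubring κ) (π : V₁ →+* κ) : Additive V₁.unitGroup →ₗ[ℤ] Gam W' :=
  (MonoidHom.toAdditive ((Units.map (W'.valuation.toMonoidWithZeroHom.toMonoidHom)).comp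
    ((Units.map (π : V₁ →* κ)).comp V₁.unitGroupMulEquiv.toMonoidHom))).toIntLinearMap

theorem RankAdd_val_one {K : Type u} [Field K] (V : ValuationSubring K) (x : Kˣ) :
    V.valuation (x : K) = 1 ↔ (x : K) ∈ V ∧ ((x⁻¹ : Kˣ) : K) ∈ V := by
  rw [← V.valuation_le_one_iff, ← V.valuation_le_one_iff, Units.val_inv_eq_inv_val, map_inv₀]
  have h0 : V.valuation (x : K) ≠ 0 := (Valuation.ne_zero_iff _).2 x.ne_zero
  rw [inv_le_one₀ (zero_lt_iff.2 h0)]
  exact le_antisymm_iff

theorem RankAdd_eta_ker (V V₁ : ValuationSubring K) (x : Additive V₁.unitGroup) :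
    RankAdd_eta V V₁ x = 0 ↔ V.valuation ((x.toMul : Kˣ) : K) = 1 := by
  constructor
  · intro h
    have h1 := congrArg (fun y : Gam V => ((y.toMul : (V.ValueGroup)ˣ) : V.ValueGroup)) h
    exact h1
  · intro h
    have h1 : (RankAdd_eta V V₁ x).toMul = 1 := Units.ext h
    exact congrArg Additive.ofMul h1

theorem RankAdd_theta_ker (V₁ : ValuationSubring K) {κ : Type u} [Field κ]
    (W' : ValuationSubring κ) (π : V₁ →+* κ) (x : Additive V₁.unitGroup) :
    RankAdd_theta V₁ W' π x = 0 ↔ W'.valuation (π (V₁.unitGroupMulEquiv x.toMul : V₁ˣ)) = 1 := by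
  constructor
  · intro h
    have h1 := congrArg (fun y : Gam W' => ((y.toMul : (W'.ValueGroup)ˣ) : W'.ValueGroup)) h
    exact h1
  · intro h
    have h1 : (RankAdd_theta V₁ W' π x).toMul = 1 := Units.ext h
    exact congrArg Additive.ofMul h1

/-- Additivity of the rational rank. Proof: `φ : Γ_V → Γ_(V₁)` with kernel the range of
`η : U → Γ_V`, `U = V₁.unitGroup`, written additively; `θ : U → Γ_(W')`, `x ↦ W'(π x)`, has the same
kernel as `η` (a unit `x` of `V₁` has `V(x) = 1` iff `W'(π x) = 1`, because `x ∈ V ↔ π x ∈ W'`). So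
`rank (range η) = rank (U/ker η) = rank (U/ker θ) = rank (range θ) ≤ rank Γ_(W')`
(`LinearMap.quotKerEquivRange`), and `rank Γ_V = rank (range φ) + rank (ker φ)`
(`LinearMap.rank_range_add_rank_ker`). -/
theorem rank_le_add (V V₁ : ValuationSubring K) (κ : Type u) [Field κ] [Algebra k κ]
    (W' : ValuationSubring κ) (D : LY.Comp (k := k) V V₁ κ W') :
    Module.rank ℤ (Gam V) ≤ Module.rank ℤ (Gam V₁) + Module.rank ℤ (Gam W') := by
  have hker : LinearMap.ker (RankAdd_eta V V₁) = LinearMap.ker (RankAdd_theta V₁ W' D.π) := by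
    ext x
    rw [LinearMap.mem_ker, LinearMap.mem_ker, RankAdd_eta_ker, RankAdd_theta_ker]
    have h1 := RankAdd_val_one V (x.toMul : Kˣ)
    have h2 := RankAdd_val_one W' (Units.map (D.π : V₁ →* κ) (V₁.unitGroupMulEquiv x.toMul))
    have h3 : ((Units.map (D.π : V₁ →* κ) (V₁.unitGroupMulEquiv x.toMul) : κˣ) : κ) =
        D.π (V₁.unitGroupMulEquiv x.toMul : V₁ˣ) := rfl
    have h4 : (((Units.map (D.π : V₁ →* κ) (V₁.unitGroupMulEquiv x.toMul))⁻¹ : κˣ) : κ) =
        D.π ((V₁.unitGroupMulEquiv x.toMul)⁻¹ : V₁ˣ) := rfl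
    rw [h3, h4, D.mem, D.mem] at h2
    rw [h1, h2]
    rfl
  have hle : LinearMap.ker (RankAdd_phi V V₁ D.le) ≤ LinearMap.range (RankAdd_eta V V₁) := by
    intro γ hγ
    rw [LinearMap.mem_ker] at hγ
    obtain ⟨x, hx⟩ := V.valuation_surjective ((γ.toMul : (V.ValueGroup)ˣ) : V.ValueGroup)
    have hx0 : x ≠ 0 := by
      rintro rfl
      rw [map_zero] at hx
      exact (γ.toMul : (V.ValueGroup)ˣ).ne_zero hx.symm
    have h1 : V.mapOfLE V₁ D.le ((γ.toMul : (V.ValueGroup)ˣ) : V.ValueGroup) = 1 :=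
      congrArg (fun y : Gam V₁ => ((y.toMul : (V₁.ValueGroup)ˣ) : V₁.ValueGroup)) hγ
    rw [← hx, ValuationSubring.mapOfLE_valuation_apply] at h1
    have h2 : (Units.mk0 x hx0) ∈ V₁.unitGroup := h1
    refine ⟨Additive.ofMul ⟨Units.mk0 x hx0, h2⟩, ?_⟩
    have h3 : (RankAdd_eta V V₁ (Additive.ofMul ⟨Units.mk0 x hx0, h2⟩)).toMul = γ.toMul :=
      Units.ext hx
    exact congrArg Additive.ofMul h3
  have h1 := LinearMap.rank_range_add_rank_ker (RankAdd_phi V V₁ D.le)
  rw [← h1]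
  refine add_le_add (Submodule.rank_le _) ?_
  refine (Submodule.rank_mono hle).trans ?_
  have h2 := (RankAdd_eta V V₁).quotKerEquivRange.rank_eq
  have h3 := (RankAdd_theta V₁ W' D.π).quotKerEquivRange.rank_eq
  rw [← h2, hker, h3]
  exact Submodule.rank_le _

end LYC
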