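import Pool.Agent.LYC.Val

/-! Project LYC: additivity of the rational rank, the other inequality. -/

set_option autoImplicit false

namespace LYC

universe u

variable {k K : Type u} [Field k] [Field K] [Algebra k K]

/-- the map of value groups -/
noncomputable def RankEq_phi (V V₁ : ValuationSubring K) (h : V ≤ V₁) :
    Gam V →ₗ[ℤ] Gam V₁ :=
  (MonoidHom.toAdditive (Units.map ((V.mapOfLE V₁ h : V.ValueGroup →*₀ V₁.ValueGroup) :
    V.ValueGroup →* V₁.ValueGroup))).toIntLinearMap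

/-- the values of the units of `V₁` -/
noncomputable def RankEq_eta (V V₁ : ValuationSubring K) :
    Additive V₁.unitGroup →ₗ[ℤ] Gam V :=
  (MonoidHom.toAdditive ((Units.map (V.valuation.toMonoidWithZeroHom.toMonoidHom)).comp
    V₁.unitGroup.subtype)).toIntLinearMap

/-- the values of the residues of the units of `V₁` -/
noncomputable def RankEq_theta (V₁ : ValuationSubring K) {κ : Type u} [Field κ]
    (W' : ValuationSubring κ) (π : V₁ →+* κ) : Additive V₁.unitGroup →ₗ[ℤ] Gam W' :=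
  (MonoidHom.toAdditive ((Units.map (W'.valuation.toMonoidWithZeroHom.toMonoidHom)).comp
    ((Units.map (π : V₁ →* κ)).comp V₁.unitGroupMulEquiv.toMonoidHom))).toIntLinearMap

theorem RankEq_val_one {K : Type u} [Field K] (V : ValuationSubring K) (x : Kˣ) :
    V.valuation (x : K) = 1 ↔ (x : K) ∈ V ∧ ((x⁻¹ : Kˣ) : K) ∈ V := by
  rw [← V.valuation_le_one_iff, ← V.valuation_le_one_iff, Units.val_inv_eq_inv_val, map_inv₀]
  have h0 : V.valuation (x : K) ≠ 0 := (Valuation.ne_zero_iff _).2 x.ne_zero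
  rw [inv_le_one₀ (zero_lt_iff.2 h0)]
  exact le_antisymm_iff

theorem RankEq_eta_ker (V V₁ : ValuationSubring K) (x : Additive V₁.unitGroup) :
    RankEq_eta V V₁ x = 0 ↔ V.valuation ((x.toMul : Kˣ) : K) = 1 := by
  constructor
  · intro h
    have h1 := congrArg (fun y : Gam V => ((y.toMul : (V.ValueGroup)ˣ) : V.ValueGroup)) h
    exact h1
  · intro h
    have h1 : (RankEq_eta V V₁ x).toMul = 1 := Units.ext h
    exact congrArg Additive.ofMul h1

theorem RankEq_theta_ker (V₁ : ValuationSubring K) {κ : Type u} [Field κ]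
    (W' : ValuationSubring κ) (π : V₁ →+* κ) (x : Additive V₁.unitGroup) :
    RankEq_theta V₁ W' π x = 0 ↔ W'.valuation (π (V₁.unitGroupMulEquiv x.toMul : V₁ˣ)) = 1 := by
  constructor
  · intro h
    have h1 := congrArg (fun y : Gam W' => ((y.toMul : (W'.ValueGroup)ˣ) : W'.ValueGroup)) h
    exact h1
  · intro h
    have h1 : (RankEq_theta V₁ W' π x).toMul = 1 := Units.ext h
    exact congrArg Additive.ofMul h1

theorem RankEq_ker (V V₁ : ValuationSubring K) (κ : Type u) [Field κ] [Algebra k κ]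
    (W' : ValuationSubring κ) (D : LY.Comp (k := k) V V₁ κ W') :
    LinearMap.ker (RankEq_eta V V₁) = LinearMap.ker (RankEq_theta V₁ W' D.π) := by
  ext x
  rw [LinearMap.mem_ker, LinearMap.mem_ker, RankEq_eta_ker, RankEq_theta_ker]
  have h1 := RankEq_val_one V (x.toMul : Kˣ)
  have h2 := RankEq_val_one W' (Units.map (D.π : V₁ →* κ) (V₁.unitGroupMulEquiv x.toMul))
  have h3 : ((Units.map (D.π : V₁ →* κ) (V₁.unitGroupMulEquiv x.toMul) : κˣ) : κ) =
      D.π (V₁.unitGroupMulEquiv x.toMul : V₁ˣ) := rfl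
  have h4 : (((Units.map (D.π : V₁ →* κ) (V₁.unitGroupMulEquiv x.toMul))⁻¹ : κˣ) : κ) =
      D.π ((V₁.unitGroupMulEquiv x.toMul)⁻¹ : V₁ˣ) := rfl
  rw [h3, h4, D.mem, D.mem] at h2
  rw [h1, h2]
  rfl

theorem RankEq_phi_surj (V V₁ : ValuationSubring K) (h : V ≤ V₁) :
    Function.Surjective (RankEq_phi V V₁ h) := by
  intro γ
  obtain ⟨x, hx⟩ := V₁.valuation_surjective ((γ.toMul : (V₁.ValueGroup)ˣ) : V₁.ValueGroup)
  have hx0 : x ≠ 0 := by
    rintro rfl
    rw [map_zero] at hx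
    exact (γ.toMul : (V₁.ValueGroup)ˣ).ne_zero hx.symm
  refine ⟨Additive.ofMul (Units.map (V.valuation.toMonoidWithZeroHom.toMonoidHom)
    (Units.mk0 x hx0)), ?_⟩
  have h3 : (RankEq_phi V V₁ h (Additive.ofMul (Units.map
      (V.valuation.toMonoidWithZeroHom.toMonoidHom) (Units.mk0 x hx0)))).toMul = γ.toMul := by
    apply Units.ext
    have h4 : V.mapOfLE V₁ h (V.valuation x) = V₁.valuation x :=
      ValuationSubring.mapOfLE_valuation_apply V V₁ h x
    rw [← hx, ← h4]
    rfl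
  exact congrArg Additive.ofMul h3

theorem RankEq_theta_surj (V₁ : ValuationSubring K) {κ : Type u} [Field κ] [Algebra k κ]
    (W' : ValuationSubring κ) (D : LY.Res (k := k) V₁ κ) :
    Function.Surjective (RankEq_theta V₁ W' D.π) := by
  intro γ
  obtain ⟨y, hy⟩ := W'.valuation_surjective ((γ.toMul : (W'.ValueGroup)ˣ) : W'.ValueGroup)
  have hy0 : y ≠ 0 := by
    rintro rfl
    rw [map_zero] at hy
    exact (γ.toMul : (W'.ValueGroup)ˣ).ne_zero hy.symm
  obtain ⟨x, hx⟩ := D.surj y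
  have h1 : V₁.valuation (x : K) = 1 := by
    have h2 : V₁.valuation (x : K) ≤ 1 := (V₁.valuation_le_one_iff _).2 x.2
    have h3 : ¬ V₁.valuation (x : K) < 1 := fun h => by
      rw [← D.ker, hx] at h
      exact hy0 h
    exact le_antisymm h2 (not_lt.1 h3)
  have hx0 : (x : K) ≠ 0 := by
    intro h
    rw [h, map_zero] at h1
    exact zero_ne_one h1
  have hmem : Units.mk0 (x : K) hx0 ∈ V₁.unitGroup := h1
  refine ⟨Additive.ofMul ⟨Units.mk0 (x : K) hx0, hmem⟩, ?_⟩
  have h3 : (RankEq_theta V₁ W' D.π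
      (Additive.ofMul ⟨Units.mk0 (x : K) hx0, hmem⟩)).toMul = γ.toMul := by
    apply Units.ext
    have h5 : ((V₁.unitGroupMulEquiv ⟨Units.mk0 (x : K) hx0, hmem⟩ : V₁ˣ) : V₁) = x :=
      Subtype.ext rfl
    have h4 : ((RankEq_theta V₁ W' D.π (Additive.ofMul
        ⟨Units.mk0 (x : K) hx0, hmem⟩)).toMul : W'.ValueGroup) =
        W'.valuation (D.π ((V₁.unitGroupMulEquiv ⟨Units.mk0 (x : K) hx0, hmem⟩ : V₁ˣ) : V₁)) := rfl
    rw [h4, h5, hx, hy]
  exact congrArg Additive.ofMul h3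

theorem RankEq_eta_le (V V₁ : ValuationSubring K) (h : V ≤ V₁) :
    LinearMap.range (RankEq_eta V V₁) ≤ LinearMap.ker (RankEq_phi V V₁ h) := by
  rintro γ ⟨x, rfl⟩
  rw [LinearMap.mem_ker]
  have h1 : (RankEq_phi V V₁ h (RankEq_eta V V₁ x)).toMul = 1 := by
    apply Units.ext
    have h2 : V.mapOfLE V₁ h (V.valuation ((x.toMul : Kˣ) : K)) =
        V₁.valuation ((x.toMul : Kˣ) : K) := ValuationSubring.mapOfLE_valuation_apply V V₁ h _
    have h3 : V₁.valuation ((x.toMul : Kˣ) : K) = 1 := x.toMul.2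
    exact h2.trans h3
  exact congrArg Additive.ofMul h1

/-- Proof: as `rank_le_add` (LYC_RankAdd.lean in the store): `φ : Γ_V → Γ_(V₁)` is surjective, its
kernel is the range of `η`, and `θ : U → Γ_(W')` is surjective with the same kernel as `η`; so
`rank Γ_V = rank Γ_(V₁) + rank Γ_(W')`. -/
theorem add_le_rank (V V₁ : ValuationSubring K) (κ : Type u) [Field κ] [Algebra k κ]
    (W' : ValuationSubring κ) (D : LY.Comp (k := k) V V₁ κ W') :
    Module.rank ℤ (Gam V₁) + Module.rank ℤ (Gam W') ≤ Module.rank ℤ (Gam V) := by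
  have h1 := LinearMap.rank_range_add_rank_ker (RankEq_phi V V₁ D.le)
  rw [← h1]
  refine add_le_add ?_ ?_
  · rw [LinearMap.range_eq_top.2 (RankEq_phi_surj V V₁ D.le), rank_top]
  · refine le_trans ?_ (Submodule.rank_mono (RankEq_eta_le V V₁ D.le))
    have h2 := (RankEq_eta V V₁).quotKerEquivRange.rank_eq
    have h3 := (RankEq_theta V₁ W' D.π).quotKerEquivRange.rank_eq
    rw [← h2, RankEq_ker V V₁ κ W' D, h3,
      LinearMap.range_eq_top.2 (RankEq_theta_surj V₁ W' D.toRes), rank_top]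

end LYC
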