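import Pool.Agent.LYC.Defect
import Pool.Agent.LYC.RankEq
import Pool.Agent.LYC.RankAdd
import Pool.Agent.LYC.CovTrans

/-! Project LYC: additivity of the defect. -/

set_option autoImplicit false

namespace LYC

universe u

variable {k K : Type u} [Field k] [Field K] [Algebra k K]

theorem rr_comp [Algebra.EssFiniteType k K] (V V₁ : ValuationSubring K)
    (hV : ∀ c : k, algebraMap k K c ∈ V) (κ : Type u) [Field κ] [Algebra k κ]
    [Algebra.EssFiniteType k κ] (W' : ValuationSubring κ) (hW' : ∀ c : k, algebraMap k κ c ∈ W')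
    (D : LY.Comp (k := k) V V₁ κ W') : rr V = rr V₁ + rr W' := by
  have h1 := rank_le_add V V₁ κ W' D
  have h2 := add_le_rank V V₁ κ W' D
  rw [rank_eq_rr V hV, rank_eq_rr V₁ (fun c => D.le (hV c)), rank_eq_rr W' hW'] at h1 h2
  exact le_antisymm (by exact_mod_cast h1) (by exact_mod_cast h2)

theorem td_comp [Algebra.EssFiniteType k K] (V V₁ : ValuationSubring K)
    (hV : ∀ c : k, algebraMap k K c ∈ V) (κ : Type u) [Field κ] [Algebra k κ]
    [Algebra.EssFiniteType k κ] (W' : ValuationSubring κ) (hW' : ∀ c : k, algebraMap k κ c ∈ W')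
    (D : LY.Comp (k := k) V V₁ κ W') : td k V = td k W' := by
  apply le_antisymm
  · obtain ⟨t, ht⟩ := exists_td V hV
    obtain ⟨t', ht'⟩ := resInd_comp V V₁ κ W' D t ht
    exact le_td W' hW' t' ht'
  · obtain ⟨t', ht'⟩ := exists_td W' hW'
    obtain ⟨t, ht⟩ := resInd_lift V V₁ κ W' D t' ht'
    exact le_td V hV t ht

/-- Additivity of the defect. -/
theorem defect_comp [Algebra.EssFiniteType k K] (V V₁ : ValuationSubring K)
    (hV : ∀ c : k, algebraMap k K c ∈ V) (κ : Type u) [Field κ] [Algebra k κ]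
    [Algebra.EssFiniteType k κ] (W' : ValuationSubring κ) (hW' : ∀ c : k, algebraMap k κ c ∈ W')
    (D : LY.Comp (k := k) V V₁ κ W') : defect k V = defect k V₁ + defect k W' := by
  have h1 := rr_comp V V₁ hV κ W' hW' D
  have h2 := td_comp V V₁ hV κ W' hW' D
  have h3 := trdeg_eq_td V₁ (fun c => D.le (hV c)) κ D.toRes
  have h4 : Cardinal.toNat (Algebra.trdeg k κ) = td k V₁ := by
    rw [h3, Cardinal.toNat_natCast]
  unfold defect
  rw [h1, h2, h4]
  push_cast
  ring

end LYC
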