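import Pool.Agent.helper90.LY.Defs

/-! Project LYC (part C of LUY, MP_53121e_ag): definitions. -/

set_option autoImplicit false

namespace LYC

universe u

/-- The value group, written additively. -/
abbrev Gam {K : Type u} [Field K] (W : ValuationSubring K) : Type u := Additive (W.ValueGroup)ˣ

/-- The residues of `t 0, …, t (d-1)` are algebraically independent over `k`. -/
def ResInd (k : Type u) {K : Type u} [Field k] [Field K] [Algebra k K] (W : ValuationSubring K)
    {d : ℕ} (t : Fin d → K) : Prop :=
  ∀ P : MvPolynomial (Fin d) k, P ≠ 0 → W.valuation (MvPolynomial.aeval t P) = 1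

/-- `κ` is a finitely generated separable field extension of `k`. -/
def FGSep (k κ : Type u) [Field k] [Field κ] [Algebra k κ] : Prop :=
  ∃ (d : ℕ) (t : Fin d → κ), AlgebraicIndependent k t ∧
    FiniteDimensional (IntermediateField.adjoin k (Set.range t)) κ ∧
    Algebra.IsSeparable (IntermediateField.adjoin k (Set.range t)) κ

/-- The residue field of `W` is finitely generated and separable over `k`. -/
def SepRes (k : Type u) {K : Type u} [Field k] [Field K] [Algebra k K]
    (W : ValuationSubring K) : Prop :=
  ∃ (κ : Type u) (_ : Field κ) (_ : Algebra k κ), Nonempty (LY.Res (k := k) W κ) ∧ FGSep k κ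

/-- The residue field of `W` is generated over `k`, as a field, by the residues of finitely many
elements. -/
def FGRes (k : Type u) {K : Type u} [Field k] [Field K] [Algebra k K]
    (W : ValuationSubring K) : Prop :=
  ∃ T : Finset K, (∀ x ∈ T, x ∈ W) ∧ ∀ x ∈ W, ∃ a ∈ Algebra.adjoin k (T : Set K),
    ∃ b ∈ Algebra.adjoin k (T : Set K), W.valuation b = 1 ∧ W.valuation (x * b - a) < 1

end LYC
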