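import Pool.Agent.LYC.SepOver
import Pool.Agent.LYC.Defect

/-! Project LYC: dense subfields. -/

set_option autoImplicit false

namespace LYC

universe u

/-- `L` is dense in `K` for the topology of `W`. -/
def Dense {k K : Type u} [Field k] [Field K] [Algebra k K] (W : ValuationSubring K)
    (L : IntermediateField k K) : Prop :=
  ∀ x h : K, h ≠ 0 → ∃ c ∈ L, W.valuation (x - c) < W.valuation h

/-- `K` is separable over `L`: separable algebraic over `L(z)`, `z` algebraically independent. -/
def SepGen {k K : Type u} [Field k] [Field K] [Algebra k K] (L : IntermediateField k K) : Prop :=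
  ∃ (m : ℕ) (z : Fin m → K), AlgebraicIndependent L z ∧
    Algebra.IsSeparable (IntermediateField.adjoin L (Set.range z)) K

theorem SepGen.fin {k K : Type u} [Field k] [Field K] [Algebra k K] [Algebra.EssFiniteType k K]
    {L : IntermediateField k K} (h : SepGen L) :
    ∃ (m : ℕ) (z : Fin m → K), AlgebraicIndependent L z ∧
      FiniteDimensional (IntermediateField.adjoin L (Set.range z)) K ∧
      Algebra.IsSeparable (IntermediateField.adjoin L (Set.range z)) K := by
  obtain ⟨m, z, h1, h2⟩ := h
  refine ⟨m, z, h1, ?_, h2⟩
  have h3 : Algebra.EssFiniteType L K := Algebra.EssFiniteType.of_comp k L K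
  have h4 : Algebra.EssFiniteType (IntermediateField.adjoin L (Set.range z)) K :=
    Algebra.EssFiniteType.of_comp L _ K
  exact Algebra.finite_of_essFiniteType_of_isAlgebraic

/-- The condition on the rank one components: `K` is separable over a dense subfield `L` of defect at
most one, with conditions on the residue field. -/
def Good (k : Type u) {K : Type u} [Field k] [Field K] [Algebra k K] (W : ValuationSubring K) :
    Prop :=
  ∃ L : IntermediateField k K, SepGen L ∧ Dense W L ∧
    defect k (W.comap (algebraMap L K)) ≤ 1 ∧
    (SepOver k (W.comap (algebraMap L K)) ∨ (PerfectField k ∧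
      (FGRes k (W.comap (algebraMap L K)) ∨ defect k (W.comap (algebraMap L K)) = 0)))

end LYC
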