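import Pool.Agent.LYC.DenseDefs

/-! Project LYC: valuation rings and dense subfields. -/

set_option autoImplicit false

namespace LYC

universe u

variable {k K : Type u} [Field k] [Field K] [Algebra k K]

/-- Comparison of values in `L` and `K`. -/
theorem comap_le (W : ValuationSubring K) (L : IntermediateField k K) (x y : L) :
    (W.comap (algebraMap L K)).valuation x ≤ (W.comap (algebraMap L K)).valuation y ↔
      W.valuation (x : K) ≤ W.valuation (y : K) := by
  rcases eq_or_ne y 0 with rfl | hy
  · rw [map_zero, le_zero_iff, map_eq_zero]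
    change _ ↔ W.valuation (x : K) ≤ W.valuation ((0 : L) : K)
    rw [ZeroMemClass.coe_zero, map_zero, le_zero_iff, map_eq_zero]
    exact (ZeroMemClass.coe_eq_zero (x := x)).symm
  · have hy' : (y : K) ≠ 0 := fun h => hy (Subtype.ext h)
    have h1 : (W.comap (algebraMap L K)).valuation y ≠ 0 := (Valuation.ne_zero_iff _).2 hy
    have h2 : W.valuation (y : K) ≠ 0 := (Valuation.ne_zero_iff _).2 hy'
    rw [← div_le_one₀ (zero_lt_iff.2 h1), ← div_le_one₀ (zero_lt_iff.2 h2), ← map_div₀, ← map_div₀,
      ValuationSubring.valuation_le_one_iff, ValuationSubring.valuation_le_one_iff,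
      ValuationSubring.mem_comap]
    rfl

theorem comap_lt (W : ValuationSubring K) (L : IntermediateField k K) (x y : L) :
    (W.comap (algebraMap L K)).valuation x < (W.comap (algebraMap L K)).valuation y ↔
      W.valuation (x : K) < W.valuation (y : K) := by
  rw [← not_le, ← not_le, comap_le]

theorem comap_lt_one (W : ValuationSubring K) (L : IntermediateField k K) (x : L) :
    (W.comap (algebraMap L K)).valuation x < 1 ↔ W.valuation (x : K) < 1 := by
  have h := comap_lt W L x 1
  rw [map_one] at h
  rw [h]
  change _ < W.valuation ((1 : L) : K) ↔ _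
  rw [OneMemClass.coe_one, map_one]

theorem comap_one (W : ValuationSubring K) (L : IntermediateField k K) (x : L) :
    (W.comap (algebraMap L K)).valuation x = 1 ↔ W.valuation (x : K) = 1 := by
  have h1 := comap_le W L x 1
  have h2 := comap_le W L 1 x
  rw [map_one] at h1 h2
  have h3 : W.valuation ((1 : L) : K) = 1 := by rw [OneMemClass.coe_one, map_one]
  rw [h3] at h1 h2
  rw [le_antisymm_iff, h1, h2, ← le_antisymm_iff]

/-- Every value is the value of an element of `L`. -/
theorem Dense.exists_val {W : ValuationSubring K} {L : IntermediateField k K} (hd : Dense W L)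
    (x : K) : ∃ c : L, W.valuation (c : K) = W.valuation x := by
  rcases eq_or_ne x 0 with rfl | hx
  · exact ⟨0, rfl⟩
  · obtain ⟨c, hc, h⟩ := hd x x hx
    refine ⟨⟨c, hc⟩, ?_⟩
    have h1 : W.valuation (x - (x - c)) = W.valuation x :=
      Valuation.map_sub_eq_of_lt_left _ h
    rw [sub_sub_cancel] at h1
    exact h1

theorem Dense.exists_res {W : ValuationSubring K} {L : IntermediateField k K} (hd : Dense W L)
    (x : K) : ∃ c : L, W.valuation (x - (c : K)) < 1 := by
  obtain ⟨c, hc, h⟩ := hd x 1 one_ne_zero
  rw [map_one] at h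
  exact ⟨⟨c, hc⟩, h⟩

theorem dense_ne_top (W : ValuationSubring K) (L : IntermediateField k K) (hd : Dense W L)
    (hne : W ≠ ⊤) : W.comap (algebraMap L K) ≠ ⊤ := by
  intro h
  apply hne
  rw [eq_top_iff]
  intro x _
  obtain ⟨c, hc⟩ := hd.exists_res x
  have h1 : (c : K) ∈ W := by
    have h2 : c ∈ W.comap (algebraMap L K) := by
      rw [h]
      exact ValuationSubring.mem_top _
    exact ValuationSubring.mem_comap.1 h2
  have h2 : x - (c : K) ∈ W := (W.valuation_le_one_iff _).1 hc.le
  have h3 := W.add_mem _ _ h2 h1
  rwa [sub_add_cancel] at h3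

theorem dense_arch (W : ValuationSubring K) (L : IntermediateField k K)
    (harch : MulArchimedean W.ValueGroup) :
    MulArchimedean (W.comap (algebraMap L K)).ValueGroup := by
  refine ⟨fun x y hy => ?_⟩
  obtain ⟨a, rfl⟩ := (W.comap (algebraMap L K)).valuation_surjective x
  obtain ⟨b, rfl⟩ := (W.comap (algebraMap L K)).valuation_surjective y
  have h1 : 1 < W.valuation (b : K) := by
    have h2 := comap_lt W L 1 b
    rw [map_one] at h2
    have h3 := h2.1 hy
    rwa [OneMemClass.coe_one, map_one] at h3
  obtain ⟨n, hn⟩ := MulArchimedean.arch (W.valuation (a : K)) h1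
  refine ⟨n, ?_⟩
  rw [← map_pow, comap_le]
  change _ ≤ W.valuation ((b ^ n : L) : K)
  rw [SubmonoidClass.coe_pow, map_pow]
  exact hn

end LYC
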