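import Pool.Agent.LYC.DenseLem
import Pool.Agent.LYC.CompOf

/-! Project LYC: value groups and residue fields of dense subfields. -/

set_option autoImplicit false

namespace LYC

universe u

variable {k K : Type u} [Field k] [Field K] [Algebra k K]

/-- The value group of a dense subfield. -/
theorem dense_fg (W : ValuationSubring K) (L : IntermediateField k K) (hd : Dense W L)
    (h : Group.FG (W.ValueGroup)ˣ) :
    Group.FG ((W.comap (algebraMap L K)).ValueGroup)ˣ := by
  let f : Lˣ →* (W.ValueGroup)ˣ := Units.map ((W.valuation : K →* W.ValueGroup).comp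
    (algebraMap L K : L →* K))
  let g : Lˣ →* ((W.comap (algebraMap L K)).ValueGroup)ˣ :=
    Units.map ((W.comap (algebraMap L K)).valuation : L →* (W.comap (algebraMap L K)).ValueGroup)
  have hf : Function.Surjective f := by
    intro γ
    obtain ⟨x, hx⟩ := W.valuation_surjective (γ : W.ValueGroup)
    obtain ⟨c, hc⟩ := hd.exists_val x
    have hc0 : c ≠ 0 := by
      rintro rfl
      apply γ.ne_zero
      rw [← hx, ← hc]
      rw [ZeroMemClass.coe_zero, map_zero]
    refine ⟨Units.mk0 c hc0, Units.ext ?_⟩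
    change W.valuation (c : K) = _
    rw [hc, hx]
  have hg : Function.Surjective g := by
    intro γ
    obtain ⟨x, hx⟩ := (W.comap (algebraMap L K)).valuation_surjective
      (γ : (W.comap (algebraMap L K)).ValueGroup)
    have hx0 : x ≠ 0 := by
      rintro rfl
      apply γ.ne_zero
      rw [← hx, map_zero]
    refine ⟨Units.mk0 x hx0, Units.ext ?_⟩
    exact hx
  have hker : f.ker = g.ker := by
    ext x
    rw [MonoidHom.mem_ker, MonoidHom.mem_ker, Units.ext_iff, Units.ext_iff]
    exact (comap_one W L (x : L)).symm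
  let e : (W.ValueGroup)ˣ ≃* ((W.comap (algebraMap L K)).ValueGroup)ˣ :=
    (QuotientGroup.quotientKerEquivOfSurjective f hf).symm.trans
      ((QuotientGroup.quotientMulEquivOfEq hker).trans
        (QuotientGroup.quotientKerEquivOfSurjective g hg))
  have := h
  exact Group.fg_of_surjective (f := e.toMonoidHom) e.surjective

/-- The residue field of a dense subfield. -/
theorem dense_res (W : ValuationSubring K) (L : IntermediateField k K) (hd : Dense W L)
    (κ : Type u) [Field κ] [Algebra k κ] (R : LY.Res (k := k) W κ) :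
    Nonempty (LY.Res (k := k) (W.comap (algebraMap L K)) κ) := by
  let ι : (W.comap (algebraMap L K)) →+* W :=
    { toFun := fun x => ⟨((x : L) : K), ValuationSubring.mem_comap.1 x.2⟩
      map_one' := rfl
      map_mul' := fun _ _ => rfl
      map_zero' := rfl
      map_add' := fun _ _ => rfl }
  refine ⟨⟨R.π.comp ι, ?_, ?_, ?_⟩⟩
  · intro y
    obtain ⟨x, rfl⟩ := R.surj y
    obtain ⟨c, hc⟩ := hd.exists_res (x : K)
    have h1 : (x : K) - c ∈ W := (W.valuation_le_one_iff _).1 hc.le
    have h2 : (c : K) ∈ W := by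
      have := W.sub_mem x.2 h1
      rwa [sub_sub_cancel] at this
    refine ⟨⟨c, ValuationSubring.mem_comap.2 h2⟩, ?_⟩
    rw [← sub_eq_zero, RingHom.comp_apply, ← map_sub, R.ker]
    change W.valuation ((c : K) - (x : K)) < 1
    rw [Valuation.map_sub_swap]
    exact hc
  · intro x
    rw [RingHom.comp_apply, R.ker, comap_lt_one]
    rfl
  · intro c x hx
    rw [RingHom.comp_apply]
    refine R.alg c _ ?_
    change ((x : L) : K) = _
    rw [hx]
    rfl

/-- Two residue fields are isomorphic. -/
theorem ess_unique (W : ValuationSubring K) (κ₀ κ : Type u) [Field κ₀] [Algebra k κ₀] [Field κ]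
    [Algebra k κ] (R₀ : LY.Res (k := k) W κ₀) (R : LY.Res (k := k) W κ)
    [Algebra.EssFiniteType k κ₀] : Algebra.EssFiniteType k κ := by
  have hker : RingHom.ker R₀.π ≤ RingHom.ker R.π := by
    intro x hx
    rw [RingHom.mem_ker] at hx ⊢
    rw [R.ker, ← R₀.ker]
    exact hx
  let φ : κ₀ →+* κ := RingHom.liftOfSurjective R₀.π R₀.surj ⟨R.π, hker⟩
  have hφ : ∀ x, φ (R₀.π x) = R.π x := fun x =>
    RingHom.liftOfRightInverse_comp_apply R₀.π (Function.surjInv R₀.surj)
      (Function.rightInverse_surjInv R₀.surj) ⟨R.π, hker⟩ x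
  let ψ : κ₀ →ₐ[k] κ :=
    { φ with
      commutes' := fun c => by
        have hc : algebraMap k K c ∈ W := ResTrans_mem W κ R c
        have h1 : R₀.π ⟨algebraMap k K c, hc⟩ = algebraMap k κ₀ c := R₀.alg c _ rfl
        have h2 : R.π ⟨algebraMap k K c, hc⟩ = algebraMap k κ c := R.alg c _ rfl
        change φ (algebraMap k κ₀ c) = _
        rw [← h1, hφ, h2] }
  have hψ : Function.Surjective ψ := by
    intro y
    obtain ⟨x, rfl⟩ := R.surj y
    exact ⟨R₀.π x, hφ x⟩
  exact Algebra.EssFiniteType.of_surjective ψ hψ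

/-- The transcendence degree of the residue field of a dense subfield. -/
theorem dense_td [Algebra.EssFiniteType k K] (W : ValuationSubring K)
    (hW : ∀ c : k, algebraMap k K c ∈ W) (L : IntermediateField k K) (hd : Dense W L)
    [Algebra.EssFiniteType k L] : td k W ≤ td k (W.comap (algebraMap L K)) := by
  obtain ⟨κ, _, _, ⟨R⟩⟩ := exists_res W hW
  obtain ⟨R'⟩ := dense_res W L hd κ R
  have hWL : ∀ c : k, algebraMap k L c ∈ W.comap (algebraMap L K) := fun c =>
    ValuationSubring.mem_comap.2 (hW c)
  obtain ⟨t, ht⟩ := exists_td W hW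
  obtain ⟨tb, htb⟩ := Defect_indep W hW κ R t ht
  obtain ⟨t', ht', -⟩ := exists_resInd _ κ R' hWL tb htb
  exact le_td _ hWL t' ht'

end LYC
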