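import Pool.Agent.LYC.Defs

/-! Project LYC: finitely generated value groups and composites. -/

set_option autoImplicit false

namespace LYC

universe u

variable {k K : Type u} [Field k] [Field K] [Algebra k K]

/-- The value group of a coarsening is a quotient (`ValuationSubring.mapOfLE`). -/
theorem fg_of_le (V V₁ : ValuationSubring K) (hle : V ≤ V₁) (h : Group.FG (V.ValueGroup)ˣ) :
    Group.FG (V₁.ValueGroup)ˣ := by
  have := h
  refine Group.fg_of_surjective (f := Units.map ((V.mapOfLE V₁ hle :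
    V.ValueGroup →*₀ V₁.ValueGroup) : V.ValueGroup →* V₁.ValueGroup)) ?_
  intro γ
  obtain ⟨x, hx⟩ := V₁.valuation_surjective (γ : V₁.ValueGroup)
  have hx0 : x ≠ 0 := by
    rintro rfl
    rw [map_zero] at hx
    exact γ.ne_zero hx.symm
  refine ⟨Units.map V.valuation.toMonoidWithZeroHom.toMonoidHom (Units.mk0 x hx0), ?_⟩
  refine Units.ext ?_
  have h1 : V.mapOfLE V₁ hle (V.valuation x) = V₁.valuation x :=
    ValuationSubring.mapOfLE_valuation_apply V V₁ hle x
  exact h1.trans hx

/-- the values of the units of `V₁` -/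
noncomputable def FGAdd_eta (V V₁ : ValuationSubring K) :
    Additive V₁.unitGroup →ₗ[ℤ] Gam V :=
  (MonoidHom.toAdditive ((Units.map (V.valuation.toMonoidWithZeroHom.toMonoidHom)).comp
    V₁.unitGroup.subtype)).toIntLinearMap

/-- the values of the residues of the units of `V₁` -/
noncomputable def FGAdd_theta (V₁ : ValuationSubring K) {κ : Type u} [Field κ]
    (W' : ValuationSubring κ) (π : V₁ →+* κ) : Additive V₁.unitGroup →ₗ[ℤ] Gam W' :=
  (MonoidHom.toAdditive ((Units.map (W'.valuation.toMonoidWithZeroHom.toMonoidHom)).comp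
    ((Units.map (π : V₁ →* κ)).comp V₁.unitGroupMulEquiv.toMonoidHom))).toIntLinearMap

theorem FGAdd_val_one {K : Type u} [Field K] (V : ValuationSubring K) (x : Kˣ) :
    V.valuation (x : K) = 1 ↔ (x : K) ∈ V ∧ ((x⁻¹ : Kˣ) : K) ∈ V := by
  rw [← V.valuation_le_one_iff, ← V.valuation_le_one_iff, Units.val_inv_eq_inv_val, map_inv₀]
  have h0 : V.valuation (x : K) ≠ 0 := (Valuation.ne_zero_iff _).2 x.ne_zero
  rw [inv_le_one₀ (zero_lt_iff.2 h0)]
  exact le_antisymm_iff

theorem FGAdd_eta_ker (V V₁ : ValuationSubring K) (x : Additive V₁.unitGroup) :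
    FGAdd_eta V V₁ x = 0 ↔ V.valuation ((x.toMul : Kˣ) : K) = 1 := by
  constructor
  · intro h
    have h1 := congrArg (fun y : Gam V => ((y.toMul : (V.ValueGroup)ˣ) : V.ValueGroup)) h
    exact h1
  · intro h
    have h1 : (FGAdd_eta V V₁ x).toMul = 1 := Units.ext h
    exact congrArg Additive.ofMul h1

theorem FGAdd_theta_ker (V₁ : ValuationSubring K) {κ : Type u} [Field κ]
    (W' : ValuationSubring κ) (π : V₁ →+* κ) (x : Additive V₁.unitGroup) :
    FGAdd_theta V₁ W' π x = 0 ↔ W'.valuation (π (V₁.unitGroupMulEquiv x.toMul : V₁ˣ)) = 1 := by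
  constructor
  · intro h
    have h1 := congrArg (fun y : Gam W' => ((y.toMul : (W'.ValueGroup)ˣ) : W'.ValueGroup)) h
    exact h1
  · intro h
    have h1 : (FGAdd_theta V₁ W' π x).toMul = 1 := Units.ext h
    exact congrArg Additive.ofMul h1

/-- The value group of `W' = V/m_(V₁)` is isomorphic to a subgroup of the value group of `V`: with
`U = V₁.unitGroup`, the homomorphisms `η : U → Γ_V`, `x ↦ V(x)`, and `θ : U → Γ_(W')`,
`x ↦ W'(π x)`, have the same kernel, `θ` is surjective, and subgroups of finitely generated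
commutative groups are finitely generated. (Compare LYC_RankAdd.lean in the store.) -/
theorem fg_comp (V V₁ : ValuationSubring K) (κ : Type u) [Field κ] [Algebra k κ]
    (W' : ValuationSubring κ) (D : LY.Comp (k := k) V V₁ κ W') (h : Group.FG (V.ValueGroup)ˣ) :
    Group.FG (W'.ValueGroup)ˣ := by
  have hker : LinearMap.ker (FGAdd_eta V V₁) = LinearMap.ker (FGAdd_theta V₁ W' D.π) := by
    ext x
    rw [LinearMap.mem_ker, LinearMap.mem_ker, FGAdd_eta_ker, FGAdd_theta_ker]
    have h1 := FGAdd_val_one V (x.toMul : Kˣ)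
    have h2 := FGAdd_val_one W' (Units.map (D.π : V₁ →* κ) (V₁.unitGroupMulEquiv x.toMul))
    have h3 : ((Units.map (D.π : V₁ →* κ) (V₁.unitGroupMulEquiv x.toMul) : κˣ) : κ) =
        D.π (V₁.unitGroupMulEquiv x.toMul : V₁ˣ) := rfl
    have h4 : (((Units.map (D.π : V₁ →* κ) (V₁.unitGroupMulEquiv x.toMul))⁻¹ : κˣ) : κ) =
        D.π ((V₁.unitGroupMulEquiv x.toMul)⁻¹ : V₁ˣ) := rfl
    rw [h3, h4, D.mem, D.mem] at h2
    rw [h1, h2]
    rfl
  have hsurj : LinearMap.range (FGAdd_theta V₁ W' D.π) = ⊤ := by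
    rw [LinearMap.range_eq_top]
    intro γ
    obtain ⟨y, hy⟩ := W'.valuation_surjective ((γ.toMul : (W'.ValueGroup)ˣ) : W'.ValueGroup)
    have hy0 : y ≠ 0 := by
      rintro rfl
      rw [map_zero] at hy
      exact (γ.toMul : (W'.ValueGroup)ˣ).ne_zero hy.symm
    obtain ⟨x, hx⟩ := D.surj y
    have hx1 : V₁.valuation (x : K) = 1 := by
      refine le_antisymm ((V₁.valuation_le_one_iff _).2 x.2) (not_lt.1 fun hlt => hy0 ?_)
      rw [← hx]
      exact (D.ker x).2 hlt
    have hx0 : (x : K) ≠ 0 := by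
      intro h0
      rw [h0, map_zero] at hx1
      exact zero_ne_one hx1
    have hu : (Units.mk0 (x : K) hx0) ∈ V₁.unitGroup := hx1
    refine ⟨Additive.ofMul ⟨Units.mk0 (x : K) hx0, hu⟩, ?_⟩
    have h3 : (FGAdd_theta V₁ W' D.π (Additive.ofMul ⟨Units.mk0 (x : K) hx0, hu⟩)).toMul =
        γ.toMul := by
      refine Units.ext ?_
      rw [← hy, ← hx]
      rfl
    exact congrArg Additive.ofMul h3
  have hfin : Module.Finite ℤ (Gam V) :=
    Module.Finite.iff_addGroup_fg.2 (GroupFG.iff_add_fg.1 h)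
  have hnoe : IsNoetherian ℤ (Gam V) := inferInstance
  have h1 : Module.Finite ℤ (LinearMap.range (FGAdd_eta V V₁)) := inferInstance
  have h2 : Module.Finite ℤ (Additive V₁.unitGroup ⧸ LinearMap.ker (FGAdd_eta V V₁)) :=
    Module.Finite.equiv (FGAdd_eta V V₁).quotKerEquivRange.symm
  rw [hker] at h2
  have h3 : Module.Finite ℤ (LinearMap.range (FGAdd_theta V₁ W' D.π)) :=
    Module.Finite.equiv (FGAdd_theta V₁ W' D.π).quotKerEquivRange
  rw [hsurj] at h3
  have h4 : Module.Finite ℤ (Gam W') := Module.Finite.equiv (Submodule.topEquiv (R := ℤ))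
  exact GroupFG.iff_add_fg.2 (Module.Finite.iff_addGroup_fg.1 h4)

end LYC
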