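import Pool.Agent.LYC.Defs

/-! Project LYC: finitely generated separable extensions. -/

set_option autoImplicit false

namespace LYC

universe u

variable {k κ : Type u} [Field k] [Field κ] [Algebra k κ]

/-- `κ/k` is a finitely generated field extension. -/
theorem FGSep.ess (h : FGSep k κ) : Algebra.EssFiniteType k κ := by
  obtain ⟨d, t, -, hfin, -⟩ := h
  have h1 : Algebra.EssFiniteType k (IntermediateField.adjoin k (Set.range t)) :=
    IntermediateField.essFiniteType_iff.2
      (IntermediateField.fg_adjoin_of_finite (Set.finite_range t))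
  have h2 : Algebra.FiniteType (IntermediateField.adjoin k (Set.range t)) κ := inferInstance
  exact Algebra.EssFiniteType.comp k (IntermediateField.adjoin k (Set.range t)) κ

/-- Finitely generated extensions of perfect fields are separable (Mathlib:
`exists_isTranscendenceBasis_and_isSeparable_of_perfectField` or
`exists_isTranscendenceBasis_and_isSeparable_of_linearIndepOn_pow_of_essFiniteType`). -/
theorem fgSep_of_perfect [PerfectField k] [Algebra.EssFiniteType k κ] : FGSep k κ := by
  obtain ⟨s, hs, hsep⟩ := exists_isTranscendenceBasis_and_isSeparable_of_perfectField k κ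
  have hr : Set.range (fun i : Fin s.card => ((s.equivFin.symm i : s) : κ)) = (s : Set κ) := by
    ext x
    constructor
    · rintro ⟨i, rfl⟩
      exact (s.equivFin.symm i).2
    · intro hx
      exact ⟨s.equivFin ⟨x, hx⟩, by simp⟩
  refine ⟨s.card, fun i => ((s.equivFin.symm i : s) : κ), ?_, ?_, ?_⟩
  · exact hs.1.comp _ s.equivFin.symm.injective
  · rw [hr]
    have h1 : Algebra.EssFiniteType (IntermediateField.adjoin k (s : Set κ)) κ :=
      Algebra.EssFiniteType.of_comp k _ κ
    have h2 : Algebra.IsAlgebraic (IntermediateField.adjoin k (s : Set κ)) κ := inferInstance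
    exact Algebra.finite_of_essFiniteType_of_isAlgebraic
  · rw [hr]
    exact hsep

/-- the valuation ring contains `k` -/
theorem SepLem_mem {K : Type u} [Field K] [Algebra k K] (W : ValuationSubring K)
    (D : LY.Res (k := k) W κ) (c : k) : algebraMap k K c ∈ W := by
  by_contra hc
  have hc0 : c ≠ 0 := by
    rintro rfl
    rw [map_zero] at hc
    exact hc W.zero_mem
  have h1 : (algebraMap k K c)⁻¹ ∈ W := (W.mem_or_inv_mem _).resolve_left hc
  have h2 : W.valuation (algebraMap k K c)⁻¹ < 1 := by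
    have h3 : ¬ W.valuation (algebraMap k K c) ≤ 1 := fun h => hc ((W.valuation_le_one_iff _).1 h)
    rw [map_inv₀]
    exact inv_lt_one_of_one_lt₀ (not_le.1 h3)
  have h3 : D.π ⟨(algebraMap k K c)⁻¹, h1⟩ = 0 := (D.ker _).2 h2
  have h4 : D.π ⟨(algebraMap k K c)⁻¹, h1⟩ = algebraMap k κ c⁻¹ :=
    D.alg c⁻¹ _ (by rw [map_inv₀])
  rw [h4] at h3
  have h5 := (algebraMap k κ).injective (h3.trans (map_zero _).symm)
  exact hc0 (inv_eq_zero.1 h5)

/-- the residues of the elements of `k[T]` are rational functions of the residues of `T` -/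
theorem SepLem_adjoin {K : Type u} [Field K] [Algebra k K] (W : ValuationSubring K)
    (D : LY.Res (k := k) W κ) (T : Finset K) (hT : ∀ x ∈ T, x ∈ W) (F : IntermediateField k κ)
    (hF : ∀ x : W, (x : K) ∈ T → D.π x ∈ F) {a : K} (ha : a ∈ Algebra.adjoin k (T : Set K)) :
    ∃ h : a ∈ W, D.π ⟨a, h⟩ ∈ F := by
  induction ha using Algebra.adjoin_induction with
  | mem x hx => exact ⟨hT x hx, hF ⟨x, hT x hx⟩ hx⟩
  | algebraMap c =>
    refine ⟨SepLem_mem W D c, ?_⟩
    rw [D.alg c _ rfl]
    exact F.algebraMap_mem c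
  | add x y _ _ hx hy =>
    obtain ⟨h1, h2⟩ := hx
    obtain ⟨h3, h4⟩ := hy
    refine ⟨W.add_mem _ _ h1 h3, ?_⟩
    have h5 : D.π ⟨x + y, W.add_mem _ _ h1 h3⟩ = D.π ⟨x, h1⟩ + D.π ⟨y, h3⟩ := by
      rw [← map_add]
      rfl
    rw [h5]
    exact F.add_mem h2 h4
  | mul x y _ _ hx hy =>
    obtain ⟨h1, h2⟩ := hx
    obtain ⟨h3, h4⟩ := hy
    refine ⟨W.mul_mem _ _ h1 h3, ?_⟩
    have h5 : D.π ⟨x * y, W.mul_mem _ _ h1 h3⟩ = D.π ⟨x, h1⟩ * D.π ⟨y, h3⟩ := by
      rw [← map_mul]
      rfl
    rw [h5]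
    exact F.mul_mem h2 h4

/-- Over a perfect field `FGRes` implies `SepRes` (the residue field `κ` is generated by the residues
of `T`, so it is finitely generated; `D` is any residue map). -/
theorem sepRes_of_fg {K : Type u} [Field K] [Algebra k K] [PerfectField k]
    (W : ValuationSubring K) (D : LY.Res (k := k) W κ) (h : FGRes k W) : SepRes k W := by
  classical
  obtain ⟨T, hT, hTW⟩ := h
  let S : Finset κ := T.attach.image fun x => D.π ⟨x.1, hT x.1 x.2⟩
  let F : IntermediateField k κ := IntermediateField.adjoin k (S : Set κ)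
  have hF : ∀ x : W, (x : K) ∈ T → D.π x ∈ F := by
    intro x hx
    apply IntermediateField.subset_adjoin
    rw [Finset.mem_coe, Finset.mem_image]
    exact ⟨⟨x, hx⟩, Finset.mem_attach _ _, rfl⟩
  have htop : F = ⊤ := by
    rw [eq_top_iff]
    intro y _
    obtain ⟨x, rfl⟩ := D.surj y
    obtain ⟨a, ha, b, hb, hb1, hab⟩ := hTW x x.2
    obtain ⟨haW, haF⟩ := SepLem_adjoin W D T hT F hF ha
    obtain ⟨hbW, hbF⟩ := SepLem_adjoin W D T hT F hF hb
    have h1 : D.π (x * ⟨b, hbW⟩ - ⟨a, haW⟩) = 0 := (D.ker _).2 hab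
    rw [map_sub, map_mul, sub_eq_zero] at h1
    have h2 : D.π ⟨b, hbW⟩ ≠ 0 := by
      intro h0
      have h3 := (D.ker _).1 h0
      exact absurd h3 (by simp [hb1])
    rw [eq_div_of_mul_eq h2 h1]
    exact F.div_mem haF hbF
  have hess : Algebra.EssFiniteType k κ := by
    rw [← IntermediateField.fg_top_iff, ← htop]
    exact IntermediateField.fg_adjoin_finset S
  exact ⟨κ, inferInstance, inferInstance, ⟨D⟩, fgSep_of_perfect⟩

end LYC
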