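import Pool.Agent.LYC.Abh
import Pool.Agent.LYC.MaxOver
import Pool.Agent.LYC.Arch
import Pool.Agent.LYC.CompOf
import Pool.Agent.LYC.RankAdd
import Pool.Agent.LYC.ResTrans
import Pool.Agent.LYC.SepLem
import Pool.Agent.LYC.FGAdd

/-! Project LYC: the induction on the rank. -/

set_option autoImplicit false

namespace LYC

universe u

/-- The induction on the rank of a valuation, for a property `Q` of valuation rings of function
fields. -/
theorem induct {k : Type u} [Field k]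
    (Q : ∀ (K : Type u) [Field K] [Algebra k K], ValuationSubring K → Prop)
    (h0 : ∀ (K : Type u) [Field K] [Algebra k K] [Algebra.EssFiniteType k K], Q K ⊤)
    (h1 : ∀ (K : Type u) [Field K] [Algebra k K] [Algebra.EssFiniteType k K]
      (W : ValuationSubring K) (_ : ∀ c : k, algebraMap k K c ∈ W)
      (_ : MulArchimedean W.ValueGroup) (_ : W ≠ ⊤) (κ : Type u) [Field κ] [Algebra k κ]
      (_ : LY.Res (k := k) W κ) (_ : FGSep k κ)
      (_ : Algebra.trdeg k K ≤ Module.rank ℤ (Gam W) + Algebra.trdeg k κ + 1)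
      (_ : Group.FG (W.ValueGroup)ˣ ∨ Infinite k ∨ 1 ≤ Algebra.trdeg k κ), Q K W)
    (h2 : ∀ (K : Type u) [Field K] [Algebra k K] [Algebra.EssFiniteType k K]
      (W W₁ : ValuationSubring K) (_ : ∀ c : k, algebraMap k K c ∈ W) (κ : Type u) [Field κ]
      [Algebra k κ] [Algebra.EssFiniteType k κ] (W' : ValuationSubring κ)
      (_ : LY.Comp (k := k) W W₁ κ W') (_ : Q K W₁) (_ : Q κ W'), Q K W) :
    ∀ (n : ℕ) (K : Type u) [Field K] [Algebra k K] [Algebra.EssFiniteType k K]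
      (V : ValuationSubring K) (_ : ∀ c : k, algebraMap k K c ∈ V)
      (_ : Algebra.trdeg k K = (n : Cardinal.{u}))
      (_ : ∀ V₂ : ValuationSubring K, V ≤ V₂ → SepRes k V₂) (d : ℕ) (t : Fin d → K)
      (_ : ResInd k V t)
      (_ : Algebra.trdeg k K ≤ Module.rank ℤ (Gam V) + (d : Cardinal.{u}) + 1)
      (_ : Group.FG (V.ValueGroup)ˣ ∨ Infinite k ∨ 1 ≤ d), Q K V := by
  intro n
  induction n using Nat.strong_induction_on with
  | _ n ih =>
  intro K _ _ _ V hV hn hsep d t ht hr hk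
  by_cases htop : V = ⊤
  · subst htop
    exact h0 K
  obtain ⟨V₁, hle, hne₁, hmax⟩ := exists_max_over V hV htop
  have hV₁ : ∀ c : k, algebraMap k K c ∈ V₁ := fun c => hle (hV c)
  obtain ⟨κ, _, _, ⟨D₀⟩, hκ⟩ := hsep V₁ hle
  have hess : Algebra.EssFiniteType k κ := hκ.ess
  obtain ⟨W', D, hD, hW'⟩ := exists_comp V V₁ hV hle κ D₀
  obtain ⟨t', ht'⟩ := resInd_comp V V₁ κ W' D t ht
  have e1 := rank_le_add V V₁ κ W' D
  have e2 := abh_ineq_res V₁ hV₁ κ D.toRes
  have e3 := abh_ineq W' hW' t' ht'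
  have e4 := rank_pos V₁ hne₁
  -- finiteness
  have hfin : Algebra.trdeg k K < Cardinal.aleph0 := _root_.trdeg_lt_aleph0 k K
  have hfinκ : Algebra.trdeg k κ < Cardinal.aleph0 := _root_.trdeg_lt_aleph0 k κ
  obtain ⟨m, hm⟩ := Cardinal.lt_aleph0.1 hfinκ
  obtain ⟨r₁, hr₁⟩ := Cardinal.lt_aleph0.1
    (lt_of_le_of_lt (le_trans (self_le_add_right _ _) e2) hfin)
  obtain ⟨r₂, hr₂⟩ := Cardinal.lt_aleph0.1
    (lt_of_le_of_lt (le_trans (self_le_add_right _ _) e3) hfinκ)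
  obtain ⟨r, hr'⟩ := Cardinal.lt_aleph0.1 (lt_of_le_of_lt e1 (by
    rw [hr₁, hr₂]
    exact_mod_cast Cardinal.natCast_lt_aleph0 (n := r₁ + r₂)))
  rw [hr₁, hr₂, hr'] at e1
  rw [hr₁, hm, hn] at e2
  rw [hr₂, hm] at e3
  rw [hr₁] at e4
  rw [hn, hr'] at hr
  have f1 : r ≤ r₁ + r₂ := by exact_mod_cast e1
  have f2 : r₁ + m ≤ n := by exact_mod_cast e2
  have f3 : r₂ + d ≤ m := by exact_mod_cast e3
  have f4 : 1 ≤ r₁ := by exact_mod_cast e4
  have f5 : n ≤ r + d + 1 := by exact_mod_cast hr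
  have hQ₁ : Q K V₁ := by
    refine h1 K V₁ hV₁ (arch_of_max V₁ hmax) hne₁ κ D.toRes hκ ?_ ?_
    · rw [hn, hr₁, hm]
      exact_mod_cast (by omega : n ≤ r₁ + m + 1)
    · rcases hk with h | h | h
      · exact Or.inl (fg_of_le V V₁ hle h)
      · exact Or.inr (Or.inl h)
      · right
        right
        rw [hm]
        exact_mod_cast (by omega : 1 ≤ m)
  have hQ' : Q κ W' := by
    refine ih m (by omega) κ W' hW' hm (sepRes_comp V V₁ κ W' D hsep) d t' ht' ?_ ?_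
    · rw [hm, hr₂]
      exact_mod_cast (by omega : m ≤ r₂ + d + 1)
    · rcases hk with h | h | h
      · exact Or.inl (fg_comp V V₁ κ W' D h)
      · exact Or.inr (Or.inl h)
      · exact Or.inr (Or.inr h)
  exact h2 K V V₁ hV κ W' D hQ₁ hQ'

end LYC
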