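import Pool.Agent.LYC.Val
import Pool.Agent.LYC.ResLem

/-! Project LYC: residue fields in the Abhyankar case. -/

set_option autoImplicit false

namespace LYC

universe u

variable {k K : Type u} [Field k] [Field K] [Algebra k K]

/-- An algebraic field extension which is essentially of finite type is finite. -/
theorem Perf_fin (E L : Type u) [Field E] [Field L] [Algebra E L] [Algebra.EssFiniteType E L]
    [Algebra.IsAlgebraic E L] : FiniteDimensional E L := by
  obtain ⟨s, hs⟩ := IntermediateField.fg_top E L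
  have h1 : FiniteDimensional E (IntermediateField.adjoin E (s : Set L)) :=
    IntermediateField.finiteDimensional_adjoin fun x _ =>
      (Algebra.IsAlgebraic.isAlgebraic (R := E) x).isIntegral
  rw [hs] at h1
  exact IntermediateField.topEquiv.toLinearEquiv.finiteDimensional

/-- A monomial with natural exponents. -/
noncomputable def PerfU {r : ℕ} (u : Fin r → K) (m : Fin r →₀ ℕ) : K := ∏ i, u i ^ m i

theorem PerfU_ne {r : ℕ} {u : Fin r → K} (hu0 : ∀ i, u i ≠ 0) (m : Fin r →₀ ℕ) :
    PerfU u m ≠ 0 :=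
  Finset.prod_ne_zero_iff.2 fun i _ => pow_ne_zero _ (hu0 i)

theorem PerfU_inj (W : ValuationSubring K) {r : ℕ} {u : Fin r → K} (hu0 : ∀ i, u i ≠ 0)
    (hu : ∀ a : Fin r → ℤ, W.valuation (∏ i, u i ^ a i) = 1 → a = 0) {m l : Fin r →₀ ℕ}
    (h : W.valuation (PerfU u m) = W.valuation (PerfU u l)) : m = l := by
  have h1 : ∏ i, u i ^ ((m i : ℤ) - (l i : ℤ)) = PerfU u m / PerfU u l := by
    unfold PerfU
    rw [← Finset.prod_div_distrib]
    refine Finset.prod_congr rfl fun i _ => ?_
    rw [zpow_sub₀ (hu0 i), zpow_natCast, zpow_natCast]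
  have h2 : W.valuation (∏ i, u i ^ ((m i : ℤ) - (l i : ℤ))) = 1 := by
    rw [h1, map_div₀, h, div_self]
    exact (W.valuation.ne_zero_iff).2 (PerfU_ne hu0 l)
  have h3 := hu (fun i => (m i : ℤ) - (l i : ℤ)) h2
  ext i
  have h4 := congrFun h3 i
  simp only [Pi.zero_apply] at h4
  omega

/-- The dominating term of a polynomial in elements with independent values. -/
theorem Perf_dom (W : ValuationSubring K) (F : IntermediateField k K)
    (hF : ∀ e : F, e ≠ 0 → W.valuation (e : K) = 1) {r : ℕ} {u : Fin r → K}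
    (hu0 : ∀ i, u i ≠ 0)
    (hu : ∀ a : Fin r → ℤ, W.valuation (∏ i, u i ^ a i) = 1 → a = 0)
    {P : MvPolynomial (Fin r) F} (hP : P ≠ 0) :
    ∃ (m : Fin r →₀ ℕ) (c : F), c ≠ 0 ∧
      W.valuation (MvPolynomial.aeval u P - (c : K) * PerfU u m) < W.valuation (PerfU u m) := by
  classical
  have hne : P.support.Nonempty := MvPolynomial.support_nonempty.2 hP
  obtain ⟨m, hm, hmax⟩ := Finset.exists_max_image P.support (fun m => W.valuation (PerfU u m)) hne
  have hc : P.coeff m ≠ 0 := MvPolynomial.mem_support_iff.1 hm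
  refine ⟨m, P.coeff m, hc, ?_⟩
  have h1 : MvPolynomial.aeval u P = ∑ l ∈ P.support, ((P.coeff l : F) : K) * PerfU u l := by
    rw [MvPolynomial.aeval_def, MvPolynomial.eval₂_eq']
    rfl
  rw [h1, ← Finset.add_sum_erase _ _ hm, add_sub_cancel_left]
  refine Valuation.map_sum_lt _ ((W.valuation.ne_zero_iff).2 (PerfU_ne hu0 m)) fun l hl => ?_
  have hl1 := Finset.mem_of_mem_erase hl
  have hl2 := Finset.ne_of_mem_erase hl
  rw [map_mul, hF _ (MvPolynomial.mem_support_iff.1 hl1), one_mul]
  exact lt_of_le_of_ne (hmax l hl1) fun h => hl2 (PerfU_inj W hu0 hu h)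

/-- The residues of `k(t, u)`. -/
theorem Perf_res (W : ValuationSubring K) (F : IntermediateField k K)
    (hF : ∀ e : F, e ≠ 0 → W.valuation (e : K) = 1) {r : ℕ} {u : Fin r → K}
    (hu0 : ∀ i, u i ≠ 0)
    (hu : ∀ a : Fin r → ℤ, W.valuation (∏ i, u i ^ a i) = 1 → a = 0)
    (e : K) (he : e ∈ IntermediateField.adjoin F (Set.range u)) (hv : W.valuation e ≤ 1) :
    ∃ c : F, W.valuation (e - (c : K)) < 1 := by
  rcases lt_or_eq_of_le hv with h1 | h1
  · exact ⟨0, by simpa using h1⟩
  obtain ⟨P, Q, hPQ⟩ := (IntermediateField.mem_adjoin_range_iff F u e).1 he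
  have he0 : e ≠ 0 := by
    rintro rfl
    simp at h1
  have hP : P ≠ 0 := by
    rintro rfl
    simp at hPQ
    exact he0 hPQ
  have hQ : Q ≠ 0 := by
    rintro rfl
    simp at hPQ
    exact he0 hPQ
  obtain ⟨m, c, hc, hm⟩ := Perf_dom W F hF hu0 hu hP
  obtain ⟨l, d, hd, hl⟩ := Perf_dom W F hF hu0 hu hQ
  set p := MvPolynomial.aeval u P with hp
  set q := MvPolynomial.aeval u Q with hq
  have hvc : W.valuation ((c : K) * PerfU u m) = W.valuation (PerfU u m) := by
    rw [map_mul, hF c hc, one_mul]
  have hvd : W.valuation ((d : K) * PerfU u l) = W.valuation (PerfU u l) := by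
    rw [map_mul, hF d hd, one_mul]
  have hvp : W.valuation p = W.valuation (PerfU u m) := by
    rw [← hvc]
    exact Valuation.map_eq_of_sub_lt _ (by rw [hvc]; exact hm)
  have hvq : W.valuation q = W.valuation (PerfU u l) := by
    rw [← hvd]
    exact Valuation.map_eq_of_sub_lt _ (by rw [hvd]; exact hl)
  have hl0 : W.valuation (PerfU u l) ≠ 0 := (W.valuation.ne_zero_iff).2 (PerfU_ne hu0 l)
  have hml : m = l := by
    refine PerfU_inj W hu0 hu ?_
    rw [hPQ, map_div₀, hvp, hvq] at h1
    exact (div_eq_one_iff_eq hl0).1 h1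
  subst hml
  refine ⟨c / d, ?_⟩
  have hd0 : (d : K) ≠ 0 := fun h => hd (by exact_mod_cast h)
  have hq0 : q ≠ 0 := by
    rintro h
    rw [h, map_zero] at hvq
    exact hl0 hvq.symm
  have e1 : e - ((c / d : F) : K) =
      ((d : K) * (p - (c : K) * PerfU u m) - (c : K) * (q - (d : K) * PerfU u m)) / ((d : K) * q) := by
    rw [hPQ]
    push_cast
    field_simp
    ring
  rw [e1, map_div₀, map_mul W.valuation (d : K) q, hF d hd, one_mul, hvq]
  rw [div_lt_one₀ (zero_lt_iff.2 hl0)]
  refine Valuation.map_sub_lt _ ?_ ?_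
  · rw [map_mul, hF d hd, one_mul]
    exact hm
  · rw [map_mul, hF c hc, one_mul]
    exact hl

/-- Elements with residues independent over `k(t)`. -/
def PerfQ (W : ValuationSubring K) (F : IntermediateField k K) (m : ℕ) (x : Fin m → K) : Prop :=
  (∀ j, x j ∈ W) ∧ ∀ c : Fin m → F, c ≠ 0 → W.valuation (∑ j, (c j : K) * x j) = 1

theorem Perf_lin (W : ValuationSubring K) (F : IntermediateField k K)
    (hF : ∀ e : F, e ≠ 0 → W.valuation (e : K) = 1) {r : ℕ} {u : Fin r → K}
    (hu0 : ∀ i, u i ≠ 0)
    (hu : ∀ a : Fin r → ℤ, W.valuation (∏ i, u i ^ a i) = 1 → a = 0) {m : ℕ} {x : Fin m → K}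
    (hx : PerfQ W F m x) : LinearIndependent (IntermediateField.adjoin F (Set.range u)) x := by
  classical
  rw [Fintype.linearIndependent_iff]
  intro g hg
  by_contra hno
  push Not at hno
  obtain ⟨i0, hi0⟩ := hno
  obtain ⟨j0, -, hmax⟩ := Finset.exists_max_image Finset.univ
    (fun j => W.valuation ((g j : K))) ⟨i0, Finset.mem_univ _⟩
  have hj0 : (g j0 : K) ≠ 0 := by
    intro h
    have h1 := hmax i0 (Finset.mem_univ _)
    rw [h, map_zero] at h1
    have h2 := le_zero_iff.1 h1
    rw [Valuation.zero_iff] at h2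
    exact hi0 (by exact_mod_cast h2)
  have hv0 : W.valuation (g j0 : K) ≠ 0 := (W.valuation.ne_zero_iff).2 hj0
  have hc : ∀ j, ∃ c : F, W.valuation ((g j : K) / (g j0 : K) - (c : K)) < 1 := by
    intro j
    refine Perf_res W F hF hu0 hu _ (div_mem (g j).2 (g j0).2) ?_
    rw [map_div₀]
    exact (div_le_one₀ (zero_lt_iff.2 hv0)).2 (hmax j (Finset.mem_univ _))
  choose c hc using hc
  have hc0 : c ≠ 0 := by
    rintro rfl
    have h1 := hc j0
    rw [div_self hj0] at h1
    simp at h1
  have h1 := hx.2 c hc0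
  have h2 : ∑ j, (c j : K) * x j = -∑ j, ((g j : K) / (g j0 : K) - (c j : K)) * x j := by
    have h3 : ∑ j, (g j : K) / (g j0 : K) * x j = 0 := by
      have h4 : ∑ j, (g j : K) / (g j0 : K) * x j = (∑ j, (g j : K) * x j) / (g j0 : K) := by
        rw [Finset.sum_div]
        refine Finset.sum_congr rfl fun j _ => ?_
        ring
      rw [h4]
      have h5 : ∑ j, (g j : K) * x j = 0 := by
        rw [← hg]
        rfl
      rw [h5, zero_div]
    have h6 : ∑ j, ((g j : K) / (g j0 : K) - (c j : K)) * x j =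
        ∑ j, (g j : K) / (g j0 : K) * x j - ∑ j, (c j : K) * x j := by
      rw [← Finset.sum_sub_distrib]
      refine Finset.sum_congr rfl fun j _ => ?_
      ring
    rw [h6, h3]
    ring
  rw [h2, Valuation.map_neg] at h1
  have h3 : W.valuation (∑ j, ((g j : K) / (g j0 : K) - (c j : K)) * x j) < 1 := by
    refine Valuation.map_sum_lt _ one_ne_zero fun j _ => ?_
    rw [map_mul]
    exact mul_lt_one_of_lt_of_le (hc j) ((W.valuation_le_one_iff _).2 (hx.1 j))
  exact absurd h1 h3.ne

/-- common denominators in `k(t)` -/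
theorem Perf_den {d : ℕ} (t : Fin d → K) {m : ℕ}
    (c : Fin m → IntermediateField.adjoin k (Set.range t)) :
    ∃ q : K, q ≠ 0 ∧ q ∈ Algebra.adjoin k (Set.range t) ∧
      ∀ j, q * (c j : K) ∈ Algebra.adjoin k (Set.range t) := by
  classical
  have h : ∀ j, ∃ s ∈ Algebra.adjoin k (Set.range t), s ≠ 0 ∧
      s * (c j : K) ∈ Algebra.adjoin k (Set.range t) := by
    intro j
    obtain ⟨a, ha, s, hs, e⟩ := IntermediateField.mem_adjoin_iff_div.1 (c j).2
    by_cases hs0 : s = 0
    · refine ⟨1, one_mem _, one_ne_zero, ?_⟩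
      rw [e, hs0, div_zero, mul_zero]
      exact zero_mem _
    · refine ⟨s, hs, hs0, ?_⟩
      rw [e, mul_div_cancel₀ _ hs0]
      exact ha
  choose s hs hs0 hsc using h
  refine ⟨∏ j, s j, Finset.prod_ne_zero_iff.2 fun j _ => hs0 j, prod_mem fun j _ => hs j,
    fun j => ?_⟩
  rw [← Finset.prod_erase_mul _ _ (Finset.mem_univ j), mul_assoc]
  exact mul_mem (prod_mem fun i _ => hs i) (hsc j)

/-- In the case of equality in the Abhyankar inequality the residue field is finitely generated.
Proof: let `u i` have independent values, `r + d = trdeg`. `u, t` are algebraically independent, `K` is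
finite over `E = k(t, u)`. Elements of `E` of value `≤ 1` are congruent to elements of `k(t)` modulo
elements of value `< 1`: a polynomial `∑ c_m(t) u^m` equals its dominating term `c_m(t) u^m` times
`1 + (value < 1)`; for a quotient of value one both dominating monomials `u^m` have the same value,
hence are equal. Elements `x_j ∈ W` whose residues are linearly independent over the residues of
`k(t)` are linearly independent over `E` (divide a relation by the coefficient of largest value and
take residues); so finitely many `x_j ∈ W`, at most `[K : E]`, generate all residues as a vector space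
over the residues of `k(t)`; `T = {t i} ∪ {x j}`. -/
theorem fgRes_of_abh [Algebra.EssFiniteType k K] (W : ValuationSubring K)
    (hW : ∀ c : k, algebraMap k K c ∈ W) {d r : ℕ} (t : Fin d → K) (ht : ResInd k W t)
    (u : Fin r → K) (hu0 : ∀ i, u i ≠ 0)
    (hu : ∀ a : Fin r → ℤ, W.valuation (∏ i, u i ^ a i) = 1 → a = 0)
    (hn : Algebra.trdeg k K = ((r + d : ℕ) : Cardinal.{u})) : FGRes k W := by
  classical
  let F : IntermediateField k K := IntermediateField.adjoin k (Set.range t)
  have hF : ∀ e : F, e ≠ 0 → W.valuation (e : K) = 1 := fun e he =>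
    ht.val_adjoin (e : K) e.2 (fun h => he (by exact_mod_cast h))
  have hFW : ∀ e : F, algebraMap F K e ∈ W := fun e => ht.mem_adjoin (e : K) e.2
  have hai : AlgebraicIndependent F u := algInd_of_val (k := F) W hFW u hu0 hu
  have hess : Algebra.EssFiniteType F K := Algebra.EssFiniteType.of_comp k F K
  have htr : Algebra.trdeg F K ≤ (r : Cardinal.{u}) := by
    have h1 := trdeg_adjoin ht.algInd
    rw [hn] at h1
    have h2 : Algebra.trdeg F K < Cardinal.aleph0 := trdeg_lt_aleph0 F K
    obtain ⟨n, hn'⟩ := Cardinal.lt_aleph0.1 h2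
    change (d : Cardinal.{u}) + Algebra.trdeg F K = _ at h1
    rw [hn'] at h1 ⊢
    have h3 : d + n = r + d := by exact_mod_cast h1
    have h4 : n = r := by omega
    rw [h4]
  have hbas : IsTranscendenceBasis F u := by
    refine AlgebraicIndependent.isTranscendenceBasis_of_lift_trdeg_le_of_finite hai ?_
    have h1 := Cardinal.lift_le.{0}.2 htr
    simpa using h1
  let E : IntermediateField F K := IntermediateField.adjoin F (Set.range u)
  have halg : Algebra.IsAlgebraic E K := hbas.isAlgebraic_field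
  have hessE : Algebra.EssFiniteType E K := Algebra.EssFiniteType.of_comp F E K
  have hfin : FiniteDimensional E K := Perf_fin E K
  -- a maximal family
  have hmax : ∃ (m : ℕ) (x : Fin m → K), PerfQ W F m x ∧ ∀ y : Fin (m + 1) → K,
      ¬ PerfQ W F (m + 1) y := by
    by_contra hno
    push Not at hno
    have hall : ∀ m : ℕ, ∃ x : Fin m → K, PerfQ W F m x := by
      intro m
      induction m with
      | zero =>
        refine ⟨Fin.elim0, fun j => j.elim0, fun c hc => ?_⟩
        exact absurd (Subsingleton.elim c 0) hc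
      | succ m ih =>
        obtain ⟨x, hx⟩ := ih
        exact hno m x hx
    obtain ⟨x, hx⟩ := hall (Module.finrank E K + 1)
    have h1 := Perf_lin W F hF hu0 hu hx
    have h2 := h1.fintype_card_le_finrank
    rw [Fintype.card_fin] at h2
    have h3 : Module.finrank E K + 1 ≤ Module.finrank E K := h2
    omega
  obtain ⟨m, x, hx, hno⟩ := hmax
  refine ⟨Finset.univ.image t ∪ Finset.univ.image x, ?_, ?_⟩
  · intro y hy
    rw [Finset.mem_union, Finset.mem_image, Finset.mem_image] at hy
    rcases hy with ⟨i, -, rfl⟩ | ⟨j, -, rfl⟩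
    · exact ht.mem_adjoin _ (IntermediateField.subset_adjoin k _ ⟨i, rfl⟩)
    · exact hx.1 j
  intro y hy
  set T : Set K := ((Finset.univ.image t ∪ Finset.univ.image x : Finset K) : Set K) with hT
  have hTt : Algebra.adjoin k (Set.range t) ≤ Algebra.adjoin k T := by
    refine Algebra.adjoin_mono ?_
    rintro _ ⟨i, rfl⟩
    rw [hT]
    simp
  have hTx : ∀ j, x j ∈ Algebra.adjoin k T := by
    intro j
    refine Algebra.subset_adjoin ?_
    rw [hT]
    simp
  have h1 := hno (Fin.cons y x)
  have hmem : ∀ j, (Fin.cons y x : Fin (m + 1) → K) j ∈ W := by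
    intro j
    refine Fin.cases ?_ (fun i => ?_) j
    · simpa using hy
    · simpa using hx.1 i
  have h2 : ∃ c : Fin (m + 1) → F, c ≠ 0 ∧
      W.valuation (∑ j, (c j : K) * (Fin.cons y x : Fin (m + 1) → K) j) ≠ 1 := by
    by_contra hh
    push Not at hh
    exact h1 ⟨hmem, hh⟩
  obtain ⟨c, hc0, hc⟩ := h2
  have hle : W.valuation (∑ j, (c j : K) * (Fin.cons y x : Fin (m + 1) → K) j) < 1 := by
    refine lt_of_le_of_ne ?_ hc
    rw [W.valuation_le_one_iff]
    exact sum_mem fun j _ => mul_mem (hFW (c j)) (hmem j)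
  rw [Fin.sum_univ_succ] at hle
  simp only [Fin.cons_zero, Fin.cons_succ] at hle
  have hc00 : c 0 ≠ 0 := by
    intro h0
    have h3 : (fun j : Fin m => c j.succ) ≠ 0 := by
      intro h4
      apply hc0
      ext j
      refine Fin.cases ?_ (fun i => ?_) j
      · simp [h0]
      · have := congrFun h4 i
        simp only [Pi.zero_apply] at this
        rw [this]
        simp
    have h5 := hx.2 _ h3
    rw [h0] at hle
    simp only [ZeroMemClass.coe_zero, zero_mul, zero_add] at hle
    exact absurd h5 hle.ne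
  obtain ⟨q, hq0, hq, hqc⟩ := Perf_den t c
  have hqv : W.valuation q = 1 :=
    ht.val_adjoin q (IntermediateField.algebra_adjoin_le_adjoin k _ hq) hq0
  refine ⟨-∑ j : Fin m, (q * (c j.succ : K)) * x j, ?_, q * (c 0 : K), hTt (hqc 0), ?_, ?_⟩
  · exact neg_mem (sum_mem fun j _ => mul_mem (hTt (hqc _)) (hTx j))
  · rw [map_mul, hqv, one_mul]
    exact hF _ hc00
  · have e1 : y * (q * (c 0 : K)) - -∑ j : Fin m, (q * (c j.succ : K)) * x j =
        q * ((c 0 : K) * y + ∑ j : Fin m, (c j.succ : K) * x j) := by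
      rw [mul_add, Finset.mul_sum, sub_neg_eq_add]
      congr 1
      · ring
      · refine Finset.sum_congr rfl fun j _ => ?_
        ring
    rw [e1, map_mul, hqv, one_mul]
    exact hle

end LYC
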