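import Pool.Agent.LYC.ResLem
import Pool.Agent.LYC.ResTrans
import Pool.Agent.LYC.SepLem
import Pool.Agent.helper90.LX.FgSub

/-! Project LYC: residue fields which are finite separable over a subfield of the valuation ring. -/

set_option autoImplicit false

namespace LYC

universe u

variable {k K : Type u} [Field k] [Field K] [Algebra k K]

variable (k) in
/-- The residue field `κ` of `W` is finite and separable over the image of a field `L ⊆ W`
containing `k`. -/
def SepOver (W : ValuationSubring K) : Prop :=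
  ∃ (κ : Type u) (_ : Field κ) (_ : Algebra k κ) (R : LY.Res (k := k) W κ)
    (L : IntermediateField k K) (hL : ∀ x ∈ L, x ∈ W) (E : IntermediateField k κ),
    (∀ e ∈ E, ∃ (x : K) (hx : x ∈ L), R.π ⟨x, hL x hx⟩ = e) ∧
    FiniteDimensional E κ ∧ Algebra.IsSeparable E κ

/-- The residue map on a field contained in the valuation ring. -/
def SepOver_hom {κ : Type u} [Field κ] [Algebra k κ] (W : ValuationSubring K)
    (R : LY.Res (k := k) W κ) (L : IntermediateField k K) (hL : ∀ x ∈ L, x ∈ W) : L →ₐ[k] κ where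
  toFun x := R.π ⟨x, hL x x.2⟩
  map_one' := by
    show R.π ⟨1, _⟩ = 1
    exact map_one R.π
  map_mul' x y := by
    show R.π ⟨(x : K) * y, _⟩ = R.π ⟨x, _⟩ * R.π ⟨y, _⟩
    rw [← map_mul]
    rfl
  map_zero' := by
    show R.π ⟨0, _⟩ = 0
    exact map_zero R.π
  map_add' x y := by
    show R.π ⟨(x : K) + y, _⟩ = R.π ⟨x, _⟩ + R.π ⟨y, _⟩
    rw [← map_add]
    rfl
  commutes' c := R.alg c _ rfl

theorem SepOver_hom_apply {κ : Type u} [Field κ] [Algebra k κ] (W : ValuationSubring K)
    (R : LY.Res (k := k) W κ) (L : IntermediateField k K) (hL : ∀ x ∈ L, x ∈ W) (x : K)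
    (hx : x ∈ L) : SepOver_hom W R L hL ⟨x, hx⟩ = R.π ⟨x, hL x hx⟩ := rfl

/-- The residue map of the induced valuation ring. -/
theorem SepOver_res (V V₁ : ValuationSubring K) (κ : Type u) [Field κ] [Algebra k κ]
    (W' : ValuationSubring κ) (D : LY.Comp (k := k) V V₁ κ W') (κ₂ : Type u) [Field κ₂]
    [Algebra k κ₂] (D₂ : LY.Res (k := k) V κ₂) :
    ∃ R' : LY.Res (k := k) W' κ₂, ∀ (x : K) (hx : x ∈ V),
      R'.π ⟨D.π ⟨x, D.le hx⟩, (D.mem ⟨x, D.le hx⟩).2 hx⟩ = D₂.π ⟨x, hx⟩ := by
  let ρ : V →+* W' :=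
    { toFun := fun x => ⟨D.π ⟨x, D.le x.2⟩, (D.mem ⟨x, D.le x.2⟩).2 x.2⟩
      map_one' := Subtype.ext (by
        show D.π ⟨1, _⟩ = 1
        exact map_one D.π)
      map_mul' := fun x y => Subtype.ext (by
        show D.π ⟨(x : K) * y, _⟩ = D.π ⟨x, _⟩ * D.π ⟨y, _⟩
        rw [← map_mul]
        rfl)
      map_zero' := Subtype.ext (by
        show D.π ⟨0, _⟩ = 0
        exact map_zero D.π)
      map_add' := fun x y => Subtype.ext (by
        show D.π ⟨(x : K) + y, _⟩ = D.π ⟨x, _⟩ + D.π ⟨y, _⟩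
        rw [← map_add]
        rfl) }
  have hρ : Function.Surjective ρ := by
    intro y
    obtain ⟨x, hx⟩ := D.surj (y : κ)
    have hx2 : (x : K) ∈ V := (D.mem x).1 (by rw [hx]; exact y.2)
    exact ⟨⟨x, hx2⟩, Subtype.ext hx⟩
  have hker : RingHom.ker ρ ≤ RingHom.ker D₂.π := by
    intro x hx
    rw [RingHom.mem_ker] at hx ⊢
    have h1 : D.π ⟨x, D.le x.2⟩ = 0 := congrArg Subtype.val hx
    rw [D.ker] at h1
    rw [D₂.ker]
    exact ResTrans_lt D.le h1
  let φ : W' →+* κ₂ := RingHom.liftOfSurjective ρ hρ ⟨D₂.π, hker⟩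
  have hφ : ∀ x, φ (ρ x) = D₂.π x := fun x =>
    RingHom.liftOfRightInverse_comp_apply ρ (Function.surjInv hρ)
      (Function.rightInverse_surjInv hρ) ⟨D₂.π, hker⟩ x
  refine ⟨⟨φ, ?_, ?_, ?_⟩, fun x hx => hφ ⟨x, hx⟩⟩
  · intro z
    obtain ⟨x, hx⟩ := D₂.surj z
    exact ⟨ρ x, by rw [hφ, hx]⟩
  · intro y
    obtain ⟨x, rfl⟩ := hρ y
    rw [hφ, D₂.ker, ResTrans_unit, ResTrans_unit, not_iff_not]
    constructor
    · exact fun h => h.map ρ
    · intro h
      obtain ⟨y', hy'⟩ := h.exists_right_inv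
      obtain ⟨x', rfl⟩ := hρ y'
      rw [← map_mul] at hy'
      have h1 : D.π ⟨((x * x' : V) : K), D.le (x * x').2⟩ = 1 := congrArg Subtype.val hy'
      have h2 : D.π (⟨((x * x' : V) : K), D.le (x * x').2⟩ - 1) = 0 := by
        rw [map_sub, h1, map_one, sub_self]
      rw [D.ker] at h2
      have h3 : V.valuation (((x * x' - 1 : V)) : K) < 1 := ResTrans_lt D.le h2
      rw [ResTrans_unit] at h3
      have h4 : IsUnit (x * x') := by
        by_contra hn
        have h5 : x * x' ∈ IsLocalRing.maximalIdeal V := hn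
        have h6 : x * x' - 1 ∈ IsLocalRing.maximalIdeal V := h3
        have h7 := Ideal.sub_mem _ h5 h6
        rw [sub_sub_cancel] at h7
        exact (IsLocalRing.maximalIdeal.isMaximal V).ne_top ((Ideal.eq_top_iff_one _).2 h7)
      exact isUnit_of_mul_isUnit_left h4
  · intro c y hy
    have hc : algebraMap k K c ∈ V₁ := ResTrans_mem V₁ κ D.toRes c
    have h1 : D.π ⟨algebraMap k K c, hc⟩ = algebraMap k κ c := D.alg c _ rfl
    have hc2 : algebraMap k K c ∈ V := (D.mem ⟨_, hc⟩).1 (by rw [h1, ← hy]; exact y.2)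
    have h2 : ρ ⟨algebraMap k K c, hc2⟩ = y := Subtype.ext (by
      show D.π ⟨algebraMap k K c, _⟩ = _
      rw [h1, hy])
    rw [← h2, hφ]
    exact D₂.alg c _ rfl

/-- `L = k(t)`, `t` a lift of a separating transcendence basis. -/
theorem sepOver_of_sepRes (W : ValuationSubring K) (hW : ∀ c : k, algebraMap k K c ∈ W)
    (h : SepRes k W) : SepOver k W := by
  obtain ⟨κ, _, _, ⟨D⟩, d, tb, htb, hf, hs⟩ := h
  obtain ⟨t, ht, hti⟩ := exists_resInd W κ D hW tb htb
  have hL : ∀ x ∈ IntermediateField.adjoin k (Set.range t), x ∈ W := fun x hx => ht.mem_adjoin x hx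
  refine ⟨κ, inferInstance, inferInstance, D, IntermediateField.adjoin k (Set.range t), hL,
    IntermediateField.adjoin k (Set.range tb), ?_, hf, hs⟩
  have hle : IntermediateField.adjoin k (Set.range tb) ≤
      (SepOver_hom W D (IntermediateField.adjoin k (Set.range t)) hL).fieldRange := by
    rw [IntermediateField.adjoin_le_iff]
    rintro _ ⟨i, rfl⟩
    obtain ⟨h1, h2⟩ := hti i
    exact ⟨⟨t i, IntermediateField.subset_adjoin k _ ⟨i, rfl⟩⟩, h2⟩
  intro e he
  obtain ⟨x, hx⟩ := hle he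
  exact ⟨x, x.2, hx⟩

/-- If `W` contains a field `L ⊇ k` which maps onto the residue field (`R = IsLocalRing.ResidueField`,
`E = ⊤`). -/
theorem sepOver_of_rep (W : ValuationSubring K) (hW : ∀ c : k, algebraMap k K c ∈ W)
    (L : IntermediateField k K) (hL : ∀ x ∈ L, x ∈ W)
    (hres : ∀ x ∈ W, ∃ c ∈ L, W.valuation (x - c) < 1) : SepOver k W := by
  let π : W →+* IsLocalRing.ResidueField W := IsLocalRing.residue W
  let : Algebra k (IsLocalRing.ResidueField W) :=
    (π.comp ((algebraMap k K).codRestrict W.toSubring hW)).toAlgebra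
  have hker : ∀ x : W, π x = 0 ↔ W.valuation (x : K) < 1 := fun x => by
    rw [← W.valuation_lt_one_iff]
    exact IsLocalRing.residue_eq_zero_iff x
  let R : LY.Res (k := k) W (IsLocalRing.ResidueField W) :=
    { π := π
      surj := IsLocalRing.residue_surjective
      ker := hker
      alg := fun c x hx => by
        have : x = (algebraMap k K).codRestrict W.toSubring hW c := Subtype.ext hx
        rw [this]
        rfl }
  refine ⟨IsLocalRing.ResidueField W, inferInstance, inferInstance, R, L, hL, ⊤, ?_, ?_, ?_⟩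
  · intro e _
    obtain ⟨x, rfl⟩ := IsLocalRing.residue_surjective e
    obtain ⟨c, hc, hxc⟩ := hres x x.2
    refine ⟨c, hc, ?_⟩
    have h1 : π (x - ⟨c, hL c hc⟩) = 0 := (hker _).2 hxc
    rw [map_sub, sub_eq_zero] at h1
    exact h1.symm
  · exact Module.Finite.of_surjective
      (Algebra.linearMap (⊤ : IntermediateField k (IsLocalRing.ResidueField W)) _)
      (fun y => ⟨⟨y, trivial⟩, rfl⟩)
  · exact ⟨fun y => isSeparable_algebraMap
      (F := (⊤ : IntermediateField k (IsLocalRing.ResidueField W))) ⟨y, trivial⟩⟩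

/-- The residue field is finitely generated over `k`: `L` is (`LX.fg_sub`), hence so is its image
`E'` in `κ`, and `κ` is finite over `E ⊆ E'`. -/
theorem ess_of_sepOver [Algebra.EssFiniteType k K] (W : ValuationSubring K) (κ : Type u) [Field κ]
    [Algebra k κ] (R : LY.Res (k := k) W κ)
    (L : IntermediateField k K) (hL : ∀ x ∈ L, x ∈ W) (E : IntermediateField k κ)
    (h : ∀ e ∈ E, ∃ (x : K) (hx : x ∈ L), R.π ⟨x, hL x hx⟩ = e)
    (hf : FiniteDimensional E κ) : Algebra.EssFiniteType k κ := by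
  obtain ⟨t, htf, ht⟩ := LX.fg_sub L
  have htL : ∀ y : t, (y : K) ∈ L := fun y => by
    rw [← ht]
    exact IntermediateField.subset_adjoin k _ y.2
  have : Finite t := htf
  let S : Set κ := Set.range (fun y : t => R.π ⟨y, hL y (htL y)⟩)
  have hS : S.Finite := Set.finite_range _
  let φ := SepOver_hom W R L hL
  have hL2 : L ≤ ((IntermediateField.adjoin k S).comap φ).map L.val := by
    conv_lhs => rw [← ht]
    rw [IntermediateField.adjoin_le_iff]
    intro y hy
    refine ⟨⟨y, htL ⟨y, hy⟩⟩, ?_, rfl⟩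
    exact IntermediateField.subset_adjoin k S ⟨⟨y, hy⟩, rfl⟩
  have hle : E ≤ IntermediateField.adjoin k S := by
    intro e he
    obtain ⟨x, hx, rfl⟩ := h e he
    obtain ⟨y, hy, hyx⟩ := hL2 hx
    have h1 : y = ⟨x, hx⟩ := Subtype.ext hyx
    rw [h1] at hy
    exact hy
  have h1 : Algebra.EssFiniteType k (IntermediateField.adjoin k S) :=
    IntermediateField.essFiniteType_iff.2 (IntermediateField.fg_adjoin_of_finite hS)
  let : Algebra E (IntermediateField.adjoin k S) :=
    (IntermediateField.inclusion hle).toRingHom.toAlgebra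
  have : IsScalarTower E (IntermediateField.adjoin k S) κ :=
    IsScalarTower.of_algebraMap_eq (fun _ => rfl)
  have h2 : Module.Finite (IntermediateField.adjoin k S) κ :=
    Module.Finite.of_restrictScalars_finite E (IntermediateField.adjoin k S) κ
  have h3 : Algebra.FiniteType (IntermediateField.adjoin k S) κ := inferInstance
  exact Algebra.EssFiniteType.comp k (IntermediateField.adjoin k S) κ

/-- `SepOver` passes to the induced valuation ring (`L' = ` image of `L`, the same `E`;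
the residue map of `W'` is the one constructed in `exists_over` (ResTrans), now with the formula
`R'.π (D.π x) = R.π x` for `x ∈ V`). -/
theorem sepOver_comp (V V₁ : ValuationSubring K) (κ : Type u) [Field κ] [Algebra k κ]
    (W' : ValuationSubring κ) (D : LY.Comp (k := k) V V₁ κ W') (h : SepOver k V) :
    SepOver k W' := by
  obtain ⟨κ₂, _, _, R, L, hL, E, hE, hf, hs⟩ := h
  obtain ⟨R', hR'⟩ := SepOver_res V V₁ κ W' D κ₂ R
  have hL1 : ∀ x ∈ L, x ∈ V₁ := fun x hx => D.le (hL x hx)
  let φ := SepOver_hom V₁ D.toRes L hL1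
  have hL' : ∀ y ∈ φ.fieldRange, y ∈ W' := by
    rintro _ ⟨x, rfl⟩
    exact (D.mem ⟨x, hL1 x x.2⟩).2 (hL x x.2)
  refine ⟨κ₂, inferInstance, inferInstance, R', φ.fieldRange, hL', E, ?_, hf, hs⟩
  intro e he
  obtain ⟨x, hx, rfl⟩ := hE e he
  exact ⟨D.π ⟨x, hL1 x hx⟩, ⟨⟨x, hx⟩, rfl⟩, hR' x (hL x hx)⟩

end LYC
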