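import Pool.Agent.LYC.MaxOver
import Pool.Agent.LYC.Arch
import Pool.Agent.LYC.SepLem
import Pool.Agent.LYC.FGAdd
import Pool.Agent.LYC.Perf
import Pool.Agent.LYC.DefectAdd
import Pool.Agent.LYC.SepOver

/-! Project LYC: the induction on the rank, stepwise defect. -/

set_option autoImplicit false

namespace LYC

universe u

/-- The residue field of the induced valuation ring. -/
theorem res_comp {k K : Type u} [Field k] [Field K] [Algebra k K] (V V₁ : ValuationSubring K)
    (κ : Type u) [Field κ] [Algebra k κ] (W' : ValuationSubring κ)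
    (D : LY.Comp (k := k) V V₁ κ W') (κ₂ : Type u) [Field κ₂] [Algebra k κ₂]
    (R : LY.Res (k := k) V κ₂) : Nonempty (LY.Res (k := k) W' κ₂) := by
  obtain ⟨V₂, h1, h2, h3, h4⟩ := exists_over V V₁ κ W' D W' le_rfl
  have h5 : V₂ = V := by
    refine le_antisymm (fun x hx => ?_) h1
    exact (D.mem ⟨x, h2 hx⟩).1 ((h3 ⟨x, h2 hx⟩).2 hx)
  subst h5
  exact h4 κ₂ R

/-- The Abhyankar valuation rings have finitely generated residue fields. -/
theorem fgRes_of_defect {k K : Type u} [Field k] [Field K] [Algebra k K]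
    [Algebra.EssFiniteType k K] (W : ValuationSubring K)
    (hW : ∀ c : k, algebraMap k K c ∈ W) (h : defect k W = 0) : FGRes k W := by
  obtain ⟨t, ht⟩ := exists_td W hW
  have hrk := rank_eq_rr W hW
  have hfin : Algebra.trdeg k K < Cardinal.aleph0 := _root_.trdeg_lt_aleph0 k K
  obtain ⟨n, hn⟩ := Cardinal.lt_aleph0.1 hfin
  have h1 : ((rr W : ℕ) : Cardinal.{u}) ≤ Module.rank ℤ (Gam W) := hrk.ge
  obtain ⟨f, hf⟩ := Module.le_rank_iff.1 h1
  obtain ⟨u, hu0, -, hu⟩ := exists_lift W f hf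
  refine fgRes_of_abh W hW t ht u hu0 hu ?_
  unfold defect at h
  rw [hn, Cardinal.toNat_natCast] at h
  rw [hn]
  have h2 : n = rr W + td k W := by omega
  rw [h2]

/-- Units of `V` are units of larger valuation rings. -/
theorem val_one_of_le {K : Type u} [Field K] {V V₁ : ValuationSubring K} (hle : V ≤ V₁) {x : K}
    (hx : V.valuation x = 1) : V₁.valuation x = 1 := by
  have hx0 : x ≠ 0 := by
    rintro rfl
    rw [map_zero] at hx
    exact zero_ne_one hx
  have h1 : x ∈ V₁ := hle ((V.valuation_le_one_iff x).1 hx.le)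
  have h2 : x⁻¹ ∈ V₁ := hle ((V.valuation_le_one_iff _).1 (by rw [map_inv₀, hx, inv_one]))
  rw [← V₁.valuation_le_one_iff] at h1 h2
  refine le_antisymm h1 ?_
  rw [map_inv₀] at h2
  have h0 : V₁.valuation x ≠ 0 := (Valuation.ne_zero_iff _).2 hx0
  exact (inv_le_one₀ (zero_lt_iff.2 h0)).1 h2

/-- The condition on adjacent valuation rings `W ⋖ W₁`: the component has defect at most one, and the
residue field of `W` is finite and separable over a field contained in `W`, or `k` is perfect and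
either the component has defect zero or the residue field of `W` is finitely generated over `k`. -/
def Cond (k : Type u) {K : Type u} [Field k] [Field K] [Algebra k K]
    (W W₁ : ValuationSubring K) : Prop :=
  defect k W ≤ defect k W₁ + 1 ∧
    (SepOver k W ∨ (PerfectField k ∧ (defect k W = defect k W₁ ∨ FGRes k W)))

/-- The induction on the rank of a valuation, for a property `Q` of valuation rings of function
fields. -/
theorem inductB {k : Type u} [Field k]
    (Q : ∀ (K : Type u) [Field K] [Algebra k K], ValuationSubring K → Prop)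
    (h0 : ∀ (K : Type u) [Field K] [Algebra k K] [Algebra.EssFiniteType k K], Q K ⊤)
    (h1 : ∀ (K : Type u) [Field K] [Algebra k K] [Algebra.EssFiniteType k K]
      (W : ValuationSubring K) (_ : ∀ c : k, algebraMap k K c ∈ W)
      (_ : MulArchimedean W.ValueGroup) (_ : W ≠ ⊤) (_ : SepOver k W) (_ : defect k W ≤ 1)
      (_ : Group.FG (W.ValueGroup)ˣ ∨ Infinite k ∨ 1 ≤ td k W), Q K W)
    (h2 : ∀ (K : Type u) [Field K] [Algebra k K] [Algebra.EssFiniteType k K]
      (W W₁ : ValuationSubring K) (_ : ∀ c : k, algebraMap k K c ∈ W) (κ : Type u) [Field κ]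
      [Algebra k κ] [Algebra.EssFiniteType k κ] (W' : ValuationSubring κ)
      (_ : LY.Comp (k := k) W W₁ κ W') (_ : Q K W₁) (_ : Q κ W'), Q K W) :
    ∀ (n : ℕ) (K : Type u) [Field K] [Algebra k K] [Algebra.EssFiniteType k K]
      (V : ValuationSubring K) (_ : ∀ c : k, algebraMap k K c ∈ V)
      (_ : Algebra.trdeg k K = (n : Cardinal.{u}))
      (_ : ∀ W W₁ : ValuationSubring K, V ≤ W → W ⋖ W₁ → Cond k W W₁)
      (_ : Group.FG (V.ValueGroup)ˣ ∨ Infinite k ∨ 1 ≤ td k V), Q K V := by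
  intro n
  induction n using Nat.strong_induction_on with
  | _ n ih =>
  intro K _ _ _ V hV hn hcond hk
  by_cases htop : V = ⊤
  · subst htop
    exact h0 K
  obtain ⟨V₁, hle, hne₁, hmax⟩ := exists_max_over V hV htop
  have hV₁ : ∀ c : k, algebraMap k K c ∈ V₁ := fun c => hle (hV c)
  have hcov : V₁ ⋖ ⊤ := by
    refine ⟨lt_of_le_of_ne le_top hne₁, fun Z hZ hZ' => ?_⟩
    rcases hmax Z hZ.le with h | h
    · exact absurd h.symm hZ.ne
    · exact absurd h hZ'.ne
  obtain ⟨hd1, hsr⟩ := hcond V₁ ⊤ hle hcov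
  rw [defect_top, zero_add] at hd1
  have hsep : SepOver k V₁ := by
    rcases hsr with h | ⟨hp, h⟩
    · exact h
    · rw [defect_top] at h
      obtain ⟨κ, _, _, ⟨D⟩⟩ := exists_res V₁ hV₁
      refine sepOver_of_sepRes V₁ hV₁ (sepRes_of_fg V₁ D ?_)
      rcases h with h | h
      · exact fgRes_of_defect V₁ hV₁ h
      · exact h
  have e4 := rank_pos V₁ hne₁
  have e6 := rank_eq_rr V₁ hV₁
  have hfin : Algebra.trdeg k K < Cardinal.aleph0 := _root_.trdeg_lt_aleph0 k K
  have e7 := defect_nonneg (k := k) V₁ hV₁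
  have e8 : 1 ≤ rr V₁ := by
    rw [e6] at e4
    exact_mod_cast e4
  have e9 : defect k V₁ = (n : ℤ) - rr V₁ - td k V₁ := by
    unfold defect
    rw [hn, Cardinal.toNat_natCast]
  have hQ₁ : Q K V₁ := by
    refine h1 K V₁ hV₁ (arch_of_max V₁ hmax) hne₁ hsep hd1 ?_
    rcases hk with h | h | h
    · exact Or.inl (fg_of_le V V₁ hle h)
    · exact Or.inr (Or.inl h)
    · right
      right
      obtain ⟨t, ht⟩ := exists_td V hV
      have h3 : ResInd k V₁ t := by
        intro P hP
        have h4 := ht P hP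
        exact val_one_of_le hle h4
      have h4 := le_td V₁ hV₁ t h3
      omega
  obtain ⟨κ, _, _, D₀, L, hL, E, hE, hEf, hEs⟩ := hsep
  have hess : Algebra.EssFiniteType k κ := ess_of_sepOver V₁ κ D₀ L hL E hE hEf
  obtain ⟨W', D, hD, hW'⟩ := exists_comp V V₁ hV hle κ D₀
  have e5 := trdeg_eq_td V₁ hV₁ κ D.toRes
  have hQ' : Q κ W' := by
    refine ih (td k V₁) (by omega) κ W' hW' e5 ?_ ?_
    · intro X X₁ hX hXX
      obtain ⟨Y, Y₁, hY, hYY, ⟨DY⟩, ⟨DY₁⟩⟩ := covBy_comp V V₁ hV κ W' D X X₁ hX hXX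
      obtain ⟨g1, g2⟩ := hcond Y Y₁ hY hYY
      have hYk : ∀ c : k, algebraMap k K c ∈ Y := fun c => hY (hV c)
      have hY₁k : ∀ c : k, algebraMap k K c ∈ Y₁ := fun c => hYY.le (hYk c)
      have hXk : ∀ c : k, algebraMap k κ c ∈ X := fun c => hX (hW' c)
      have hX₁k : ∀ c : k, algebraMap k κ c ∈ X₁ := fun c => hXX.le (hXk c)
      have g3 := defect_comp Y V₁ hYk κ X hXk DY
      have g4 := defect_comp Y₁ V₁ hY₁k κ X₁ hX₁k DY₁
      refine ⟨by omega, ?_⟩
      rcases g2 with g2 | ⟨g2, g5 | g5⟩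
      · exact Or.inl (sepOver_comp Y V₁ κ X DY g2)
      · exact Or.inr ⟨g2, Or.inl (by omega)⟩
      · exact Or.inr ⟨g2, Or.inr (fgRes_comp Y V₁ κ X DY g5)⟩
    · rcases hk with h | h | h
      · exact Or.inl (fg_comp V V₁ κ W' D h)
      · exact Or.inr (Or.inl h)
      · rw [td_comp V V₁ hV κ W' hW' D] at h
        exact Or.inr (Or.inr h)
  exact h2 K V V₁ hV κ W' D hQ₁ hQ'

end LYC
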