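import Pool.Agent.LYC.RoDense
import Pool.Agent.LYC.CompTrans

/-! Project LYC: the induction on the rank, dense subfields of the components. -/

set_option autoImplicit false

namespace LYC

universe u

/-- The condition on adjacent valuation rings `W ⋖ W₁`: the component, a rank one valuation ring of the
residue field of `W₁`, is `Good`. -/
def CondC (k : Type u) {K : Type u} [Field k] [Field K] [Algebra k K]
    (W W₁ : ValuationSubring K) : Prop :=
  ∃ (κ : Type u) (_ : Field κ) (_ : Algebra k κ) (W' : ValuationSubring κ),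
    Nonempty (LY.Comp (k := k) W W₁ κ W') ∧ Good k W'

/-- The induction on the rank of a valuation, for a property `Q` of valuation rings of function
fields. -/
theorem inductC {k : Type u} [Field k]
    (Q : ∀ (K : Type u) [Field K] [Algebra k K], ValuationSubring K → Prop)
    (h0 : ∀ (K : Type u) [Field K] [Algebra k K] [Algebra.EssFiniteType k K], Q K ⊤)
    (h1 : ∀ (K : Type u) [Field K] [Algebra k K] [Algebra.EssFiniteType k K]
      (W : ValuationSubring K) (_ : ∀ c : k, algebraMap k K c ∈ W)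
      (_ : MulArchimedean W.ValueGroup) (_ : W ≠ ⊤) (_ : Good k W)
      (_ : Group.FG (W.ValueGroup)ˣ ∨ Infinite k ∨ 1 ≤ td k W), Q K W)
    (h2 : ∀ (K : Type u) [Field K] [Algebra k K] [Algebra.EssFiniteType k K]
      (W W₁ : ValuationSubring K) (_ : ∀ c : k, algebraMap k K c ∈ W) (κ : Type u) [Field κ]
      [Algebra k κ] [Algebra.EssFiniteType k κ] (W' : ValuationSubring κ)
      (_ : LY.Comp (k := k) W W₁ κ W') (_ : Q K W₁) (_ : Q κ W'), Q K W) :
    ∀ (n : ℕ) (K : Type u) [Field K] [Algebra k K] [Algebra.EssFiniteType k K]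
      (V : ValuationSubring K) (_ : ∀ c : k, algebraMap k K c ∈ V)
      (_ : Algebra.trdeg k K = (n : Cardinal.{u}))
      (_ : ∀ W W₁ : ValuationSubring K, V ≤ W → W ⋖ W₁ → CondC k W W₁)
      (_ : Group.FG (V.ValueGroup)ˣ ∨ Infinite k ∨ 1 ≤ td k V), Q K V := by
  intro n
  induction n using Nat.strong_induction_on with
  | _ n ih =>
  intro K _ _ _ V hV hn hcond hk
  by_cases htop : V = ⊤
  · subst htop
    exact h0 K
  obtain ⟨V₁, hle, hne₁, hmax⟩ := exists_max_over V hV htop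
  have hV₁ : ∀ c : k, algebraMap k K c ∈ V₁ := fun c => hle (hV c)
  have hcov : V₁ ⋖ ⊤ := by
    refine ⟨lt_of_le_of_ne le_top hne₁, fun Z hZ hZ' => ?_⟩
    rcases hmax Z hZ.le with h | h
    · exact absurd h.symm hZ.ne
    · exact absurd h hZ'.ne
  obtain ⟨κ₁, _, _, W₁', ⟨D₁⟩, hgood⟩ := hcond V₁ ⊤ hle hcov
  have hess₁ : Algebra.EssFiniteType k κ₁ := top_ess κ₁ D₁.toRes
  have hW₁' : ∀ c : k, algebraMap k κ₁ c ∈ W₁' := by
    intro c
    have h3 : D₁.π ⟨algebraMap k K c, ValuationSubring.mem_top _⟩ = algebraMap k κ₁ c :=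
      D₁.alg c _ rfl
    rw [← h3, D₁.mem]
    exact hV₁ c
  have hk₁ : Group.FG (W₁'.ValueGroup)ˣ ∨ Infinite k ∨ 1 ≤ td k W₁' := by
    rcases hk with h | h | h
    · exact Or.inl (fg_comp V₁ ⊤ κ₁ W₁' D₁ (fg_of_le V V₁ hle h))
    · exact Or.inr (Or.inl h)
    · right
      right
      obtain ⟨t, ht⟩ := exists_td V hV
      have h3 : ResInd k V₁ t := by
        intro P hP
        have h4 := ht P hP
        exact val_one_of_le hle h4
      have h4 := le_td V₁ hV₁ t h3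
      rw [td_comp V₁ ⊤ hV₁ κ₁ W₁' hW₁' D₁] at h4
      omega
  have hQ₁ : Q K V₁ := by
    refine h2 K V₁ ⊤ hV₁ κ₁ W₁' D₁ (h0 K) ?_
    exact h1 κ₁ W₁' hW₁' (arch_of_max W₁' (top_max V₁ hmax κ₁ W₁' D₁))
      (top_ne V₁ hne₁ κ₁ W₁' D₁) hgood hk₁
  obtain ⟨κ, _, _, ⟨D₀⟩⟩ := exists_res V₁ hV₁
  have hess : Algebra.EssFiniteType k κ := by
    obtain ⟨R⟩ := res_comp V₁ ⊤ κ₁ W₁' D₁ κ D₀
    exact ess_of_good W₁' hW₁' hgood κ R
  obtain ⟨W', D, hD, hW'⟩ := exists_comp V V₁ hV hle κ D₀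
  have e5 := trdeg_eq_td V₁ hV₁ κ D.toRes
  have e4 := rank_pos V₁ hne₁
  have e6 := rank_eq_rr V₁ hV₁
  have e7 := defect_nonneg (k := k) V₁ hV₁
  have e8 : 1 ≤ rr V₁ := by
    rw [e6] at e4
    exact_mod_cast e4
  have e9 : defect k V₁ = (n : ℤ) - rr V₁ - td k V₁ := by
    unfold defect
    rw [hn, Cardinal.toNat_natCast]
  have hQ' : Q κ W' := by
    refine ih (td k V₁) (by omega) κ W' hW' e5 ?_ ?_
    · intro X X₁ hX hXX
      obtain ⟨Y, Y₁, hY, hYY, hY₁, g1, g2⟩ := covBy_comp' V V₁ hV κ W' D X X₁ hX hXX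
      obtain ⟨κ₂, _, _, W₂, ⟨E⟩, hg⟩ := hcond Y Y₁ hY hYY
      exact ⟨κ₂, inferInstance, inferInstance, W₂,
        comp_comp V₁ κ D.toRes X X₁ hXX.le Y Y₁ hY₁ g1 g2 κ₂ W₂ E, hg⟩
    · rcases hk with h | h | h
      · exact Or.inl (fg_comp V V₁ κ W' D h)
      · exact Or.inr (Or.inl h)
      · rw [td_comp V V₁ hV κ W' hW' D] at h
        exact Or.inr (Or.inr h)
  exact h2 K V V₁ hV κ W' D hQ₁ hQ'

end LYC
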