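import Pool.Agent.LYC.ResLem

/-! Project LYC: the residue field in terms of elements. -/

set_option autoImplicit false

namespace LYC

open Polynomial

universe u

variable {k K : Type u} [Field k] [Field K] [Algebra k K]

/-- The inclusion of `k(t)` into `W`. -/
private def ResData_inc {W : ValuationSubring K} {d : ℕ} {t : Fin d → K} (ht : ResInd k W t) :
    IntermediateField.adjoin k (Set.range t) →+* W where
  toFun x := ⟨(x : K), ht.mem_adjoin (x : K) x.2⟩
  map_one' := rfl
  map_mul' _ _ := rfl
  map_zero' := rfl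
  map_add' _ _ := rfl

/-- The residue map on `k(t)`. -/
private def ResData_rho {W : ValuationSubring K} {d : ℕ} {t : Fin d → K} (ht : ResInd k W t)
    (κ : Type u) [Field κ] [Algebra k κ] (D : LY.Res (k := k) W κ) :
    IntermediateField.adjoin k (Set.range t) →ₐ[k] κ where
  toRingHom := D.π.comp (ResData_inc ht)
  commutes' c := D.alg c _ rfl

/-- The residue map on `k(t)` has all elements of `k(tb)` in its range. -/
private theorem ResData_range {W : ValuationSubring K} {d : ℕ} {t : Fin d → K}
    (ht : ResInd k W t) (κ : Type u) [Field κ] [Algebra k κ] (D : LY.Res (k := k) W κ)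
    (tb : Fin d → κ) (hl : ∀ i, ∃ h : t i ∈ W, D.π ⟨t i, h⟩ = tb i) (y : κ)
    (hy : y ∈ IntermediateField.adjoin k (Set.range tb)) :
    ∃ x : IntermediateField.adjoin k (Set.range t), ResData_rho ht κ D x = y := by
  have h1 : IntermediateField.adjoin k (Set.range tb) ≤ (ResData_rho ht κ D).fieldRange := by
    rw [IntermediateField.adjoin_le_iff]
    rintro _ ⟨i, rfl⟩
    obtain ⟨h, h2⟩ := hl i
    refine ⟨⟨t i, IntermediateField.subset_adjoin k _ ⟨i, rfl⟩⟩, ?_⟩
    exact h2
  exact h1 hy

/-- Lifting polynomials from `k(tb)` to `k(t)`. -/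
private theorem ResData_lift {W : ValuationSubring K} {d : ℕ} {t : Fin d → K}
    (ht : ResInd k W t) (κ : Type u) [Field κ] [Algebra k κ] (D : LY.Res (k := k) W κ)
    (tb : Fin d → κ) (hl : ∀ i, ∃ h : t i ∈ W, D.π ⟨t i, h⟩ = tb i)
    (q : (IntermediateField.adjoin k (Set.range tb))[X]) :
    ∃ Q : (IntermediateField.adjoin k (Set.range t))[X],
      Q.map (ResData_rho ht κ D : IntermediateField.adjoin k (Set.range t) →+* κ) =
        q.map (algebraMap (IntermediateField.adjoin k (Set.range tb)) κ) := by
  have h1 : q.map (algebraMap (IntermediateField.adjoin k (Set.range tb)) κ) ∈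
      Polynomial.lifts (ResData_rho ht κ D : IntermediateField.adjoin k (Set.range t) →+* κ) := by
    rw [Polynomial.lifts_iff_coeff_lifts]
    intro n
    rw [Polynomial.coeff_map]
    obtain ⟨x, hx⟩ := ResData_range ht κ D tb hl _ (q.coeff n).2
    exact ⟨x, hx⟩
  exact (Polynomial.mem_lifts _).1 h1

/-- Values of polynomials and their residues. -/
private theorem ResData_eval {W : ValuationSubring K} {d : ℕ} {t : Fin d → K}
    (ht : ResInd k W t) (κ : Type u) [Field κ] [Algebra k κ] (D : LY.Res (k := k) W κ) (a : W)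
    (Q : (IntermediateField.adjoin k (Set.range t))[X]) :
    ∃ b : W, (b : K) = aeval (a : K) Q ∧ D.π b =
      (Q.map (ResData_rho ht κ D : IntermediateField.adjoin k (Set.range t) →+* κ)).eval
        (D.π a) := by
  refine ⟨Q.eval₂ (ResData_inc ht) a, ?_, ?_⟩
  · have h1 := Polynomial.hom_eval₂ Q (ResData_inc ht) W.subtype a
    rw [Polynomial.aeval_def]
    exact h1
  · rw [Polynomial.eval_map]
    exact Polynomial.hom_eval₂ Q (ResData_inc ht) D.π a

/-- The residue field of `W` in terms of elements of `W`. Proof: `tb : Fin d → κ` from `FGSep`, `t` the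
lift (`exists_resInd`), `k' = k(t) ⊆ W`; the residue map `k' → κ` is injective with image `k(tb)`;
`ab` a primitive element of `κ/k(tb)`, `a ∈ W` a lift, `P` the polynomial over `k'` corresponding to
the minimal polynomial of `ab` over `k(tb)`. -/
theorem res_data (W : ValuationSubring K) (hW : ∀ c : k, algebraMap k K c ∈ W) (κ : Type u)
    [Field κ] [Algebra k κ] (D : LY.Res (k := k) W κ) (hκ : FGSep k κ) :
    ∃ (d : ℕ) (t : Fin d → K), ResInd k W t ∧ Algebra.trdeg k κ = (d : Cardinal.{u}) ∧
      ∃ (P : (IntermediateField.adjoin k (Set.range t))[X]) (a : K), P.Separable ∧ a ∈ W ∧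
        W.valuation (aeval a P) < 1 ∧
        ∀ x ∈ W, ∃ Q : (IntermediateField.adjoin k (Set.range t))[X],
          W.valuation (x - aeval a Q) < 1 := by
  obtain ⟨d, tb, htb, hfin, hsep⟩ := hκ
  obtain ⟨t, ht, hl⟩ := exists_resInd W κ D hW tb htb
  refine ⟨d, t, ht, ?_, ?_⟩
  · have h1 := trdeg_adjoin (k := k) (K := κ) htb
    have h2 : Algebra.trdeg (IntermediateField.adjoin k (Set.range tb)) κ = 0 :=
      trdeg_eq_zero
    rw [h2, add_zero] at h1
    exact h1.symm
  · obtain ⟨ab, hab⟩ := Field.exists_primitive_element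
      (IntermediateField.adjoin k (Set.range tb)) κ
    obtain ⟨a, ha⟩ := D.surj ab
    obtain ⟨P, hP⟩ := ResData_lift ht κ D tb hl
      (minpoly (IntermediateField.adjoin k (Set.range tb)) ab)
    have hint : IsIntegral (IntermediateField.adjoin k (Set.range tb)) ab :=
      Algebra.IsIntegral.isIntegral ab
    refine ⟨P, (a : K), ?_, a.2, ?_, ?_⟩
    · have h1 : (minpoly (IntermediateField.adjoin k (Set.range tb)) ab).Separable :=
        Algebra.IsSeparable.isSeparable _ ab
      have h2 : ((minpoly (IntermediateField.adjoin k (Set.range tb)) ab).map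
          (algebraMap (IntermediateField.adjoin k (Set.range tb)) κ)).Separable :=
        h1.map
      rw [← hP] at h2
      exact (Polynomial.separable_map _).1 h2
    · obtain ⟨b, hb, hb2⟩ := ResData_eval ht κ D a P
      rw [← hb, ← D.ker, hb2, hP, ha, Polynomial.eval_map, ← Polynomial.aeval_def]
      exact minpoly.aeval _ _
    · intro x hx
      have h1 : D.π ⟨x, hx⟩ ∈ Algebra.adjoin (IntermediateField.adjoin k (Set.range tb))
          ({ab} : Set κ) := by
        rw [← IntermediateField.adjoin_simple_toSubalgebra_of_isAlgebraic hint.isAlgebraic, hab]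
        exact Algebra.mem_top
      rw [Algebra.adjoin_singleton_eq_range_aeval] at h1
      obtain ⟨q, hq⟩ := h1
      obtain ⟨Q, hQ⟩ := ResData_lift ht κ D tb hl q
      refine ⟨Q, ?_⟩
      obtain ⟨b, hb, hb2⟩ := ResData_eval ht κ D a Q
      have h3 : D.π (⟨x, hx⟩ - b) = 0 := by
        rw [map_sub, hb2, hQ, ha, Polynomial.eval_map, ← Polynomial.aeval_def, sub_eq_zero]
        exact hq.symm
      rw [D.ker] at h3
      rw [← hb]
      exact h3

end LYC
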