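import Pool.Agent.LYC.Abh
import Pool.Agent.LYC.ResData
import Pool.Agent.helper90.LY.RoRel
import Pool.Agent.helper90.LY.RelAdj

/-! Project LYC: rank one valuations with finitely generated separable residue field. -/

set_option autoImplicit false

namespace LYC

open Polynomial

universe u

/-- A proper valuation ring contains a nonzero element of value less than one. -/
theorem exists_small {K : Type u} [Field K] (W : ValuationSubring K) (hne : W ≠ ⊤) :
    ∃ c : K, c ≠ 0 ∧ W.valuation c < 1 := by
  by_contra hcon
  push Not at hcon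
  apply hne
  rw [eq_top_iff]
  intro x _
  by_cases hx : x = 0
  · rw [hx]; exact zero_mem _
  · rw [← W.valuation_le_one_iff]
    have h1 := hcon x⁻¹ (inv_ne_zero hx)
    rw [map_inv₀] at h1
    have h0 : W.valuation x ≠ 0 := (Valuation.ne_zero_iff _).2 hx
    exact (one_le_inv₀ (zero_lt_iff.2 h0)).1 h1

/-- `ro_rel` with ranks as cardinals. -/
theorem ro_over {k K : Type u} [Field k] [Field K] [Algebra k K] [Algebra.EssFiniteType k K]
    (p : ℕ) [Fact p.Prime] [CharP k p]
    (W : ValuationSubring K) (hW : ∀ c : k, algebraMap k K c ∈ W)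
    (harch : MulArchimedean W.ValueGroup) (hne : W ≠ ⊤) (P : k[X]) (hP : P.Separable) (a : K)
    (haW : a ∈ W) (ha : W.valuation (aeval a P) < 1)
    (hres : ∀ x ∈ W, ∃ Q : k[X], W.valuation (x - aeval a Q) < 1) (m r : ℕ)
    (hm : Algebra.trdeg k K = (m : Cardinal.{u})) (hrk : Module.rank ℤ (Gam W) = (r : Cardinal.{u}))
    (h1 : r ≤ m) (h2 : m ≤ r + 1) (hk : Group.FG (W.ValueGroup)ˣ ∨ Infinite k) :
    LY.RelS k W := by
  have hr0 : 0 < r := by
    have h1 := rank_pos W hne
    rw [hrk] at h1
    exact_mod_cast h1
  have hfr : Module.finrank ℤ (Additive (W.ValueGroup)ˣ) = r := by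
    rw [Module.finrank]
    rw [show Module.rank ℤ (Additive (W.ValueGroup)ˣ) = (r : Cardinal.{u}) from hrk]
    exact Cardinal.toNat_natCast r
  have hdef : Algebra.trdeg k K = (r : ℕ) ∨ Algebra.trdeg k K = (r + 1 : ℕ) := by
    rw [hm]
    have : m = r ∨ m = r + 1 := by omega
    rcases this with h | h
    · left; rw [h]
    · right; rw [h]
  exact LY.ro_rel p W hW harch (exists_small W hne) P hP a haW ha hres r hfr hr0 hdef hk

/-- A field with a transcendental element in an extension generated by it is infinite. -/
theorem infinite_adjoin {k K : Type u} [Field k] [Field K] [Algebra k K] (x : K)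
    (hx : Transcendental k x) (E : IntermediateField k K) (hE : x ∈ E) : Infinite E := by
  have h4 : Transcendental k (⟨x, hE⟩ : E) := by
    intro h5
    apply hx
    obtain ⟨q, hq, hq0⟩ := h5
    refine ⟨q, hq, ?_⟩
    have h6 := congrArg (algebraMap E K) hq0
    rw [map_zero, ← Polynomial.aeval_algebraMap_apply] at h6
    exact h6
  by_contra hcon
  rw [not_infinite_iff_finite] at hcon
  have h7 : Finite k := Finite.of_injective _ (algebraMap k E).injective
  have h8 : Module.Finite k E := Module.Finite.of_finite
  have h9 : Algebra.IsAlgebraic k E := inferInstance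
  exact h4 (Algebra.IsAlgebraic.isAlgebraic _)

variable {k K : Type u} [Field k] [Field K] [Algebra k K]

/-- Rank one, residue field finitely generated and separable, transcendence defect at most one. -/
theorem ro_gen [Algebra.EssFiniteType k K] (p : ℕ) [Fact p.Prime] [CharP k p]
    (W : ValuationSubring K) (hW : ∀ c : k, algebraMap k K c ∈ W)
    (harch : MulArchimedean W.ValueGroup) (hne : W ≠ ⊤) (κ : Type u) [Field κ] [Algebra k κ]
    (D : LY.Res (k := k) W κ) (hκ : FGSep k κ)
    (hr : Algebra.trdeg k K ≤ Module.rank ℤ (Gam W) + Algebra.trdeg k κ + 1)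
    (hk : Group.FG (W.ValueGroup)ˣ ∨ Infinite k ∨ 1 ≤ Algebra.trdeg k κ) :
    LY.RelS k W := by
  obtain ⟨d, t, ht, hd, P, a, hP, haW, ha, hQ⟩ := res_data W hW κ D hκ
  have hchar : CharP (IntermediateField.adjoin k (Set.range t)) p :=
    charP_of_injective_algebraMap
      (algebraMap k (IntermediateField.adjoin k (Set.range t))).injective p
  have hess : Algebra.EssFiniteType (IntermediateField.adjoin k (Set.range t)) K :=
    Algebra.EssFiniteType.of_comp k _ K
  have htr := trdeg_adjoin ht.algInd
  have hab := abh_ineq W hW t ht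
  have hfin : Algebra.trdeg k K < Cardinal.aleph0 := _root_.trdeg_lt_aleph0 k K
  have hrkfin : Module.rank ℤ (Gam W) < Cardinal.aleph0 :=
    lt_of_le_of_lt (le_trans (self_le_add_right _ _) hab) hfin
  obtain ⟨r, hrk⟩ := Cardinal.lt_aleph0.1 hrkfin
  obtain ⟨n, hn⟩ := Cardinal.lt_aleph0.1 hfin
  have hfin' : Algebra.trdeg (IntermediateField.adjoin k (Set.range t)) K < Cardinal.aleph0 :=
    lt_of_le_of_lt (by rw [← htr]; exact self_le_add_left _ _) hfin
  obtain ⟨m, hm⟩ := Cardinal.lt_aleph0.1 hfin'
  have hdm : d + m = n := by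
    rw [hn, hm] at htr
    exact_mod_cast htr
  have h2 : r + d ≤ n := by
    rw [hrk, hn] at hab
    exact_mod_cast hab
  have h3 : n ≤ r + d + 1 := by
    rw [hrk, hn, hd] at hr
    exact_mod_cast hr
  have hinf : Group.FG (W.ValueGroup)ˣ ∨
      Infinite (IntermediateField.adjoin k (Set.range t)) := by
    rcases hk with h | h | h
    · exact Or.inl h
    · exact Or.inr (Infinite.of_injective _
        (algebraMap k (IntermediateField.adjoin k (Set.range t))).injective)
    · right
      rw [hd] at h
      have hd1 : 0 < d := by exact_mod_cast h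
      exact infinite_adjoin (t ⟨0, hd1⟩) (ht.algInd.transcendental _) _
        (IntermediateField.subset_adjoin k _ ⟨_, rfl⟩)
  exact LY.rel_of_adjoin (Set.range t) (Set.finite_range t) W (fun e he => ht.mem_adjoin e he)
    (ro_over p W (fun c => ht.mem_adjoin c.1 c.2) harch hne P hP a haW ha hQ m r hm hrk
      (by omega) (by omega) hinf)

end LYC
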