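import Pool.Agent.LYC.Top
import Pool.Agent.helper90.LY.RelS

/-! Project LYC: the trivial valuation, relative strong form. -/

set_option autoImplicit false

namespace LYC

universe u

variable {k K : Type u} [Field k] [Field K] [Algebra k K]

/-- Elements of the centre of the trivial valuation are zero. -/
private theorem TopRel_center {A : Subalgebra k K}
    (h : ∀ a ∈ A, a ∈ (⊤ : ValuationSubring K)) {a : A}
    (ha : a ≠ 0) : a ∉ LU.center (⊤ : ValuationSubring K) A h := by
  intro hc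
  have h0 : (a : K) ≠ 0 := fun h0 => ha (Subtype.ext h0)
  have h1 : LU.toV (⊤ : ValuationSubring K) A h a ∈
      IsLocalRing.maximalIdeal (⊤ : ValuationSubring K) := hc
  rw [IsLocalRing.mem_maximalIdeal, mem_nonunits_iff] at h1
  apply h1
  refine IsUnit.of_mul_eq_one (⟨(a : K)⁻¹, ValuationSubring.mem_top _⟩ : (⊤ : ValuationSubring K)) ?_
  apply Subtype.ext
  exact mul_inv_cancel₀ h0

/-- Powers of `H` clear the denominators of `A₀[H⁻¹]`. -/
private theorem TopRel_clear {T : Set K} {H : K} (hH : H ∈ Algebra.adjoin k T) (h0 : H ≠ 0)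
    {x : K} (hx : x ∈ Algebra.adjoin k (T ∪ {H⁻¹})) :
    ∃ e : ℕ, H ^ e * x ∈ Algebra.adjoin k T := by
  induction hx using Algebra.adjoin_induction with
  | mem x hx =>
    rcases hx with hx | hx
    · exact ⟨0, by rw [pow_zero, one_mul]; exact Algebra.subset_adjoin hx⟩
    · rw [Set.mem_singleton_iff] at hx
      refine ⟨1, ?_⟩
      rw [hx, pow_one, mul_inv_cancel₀ h0]
      exact one_mem _
  | algebraMap r => exact ⟨0, by rw [pow_zero, one_mul]; exact Subalgebra.algebraMap_mem _ r⟩
  | add x y _ _ hx hy =>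
    obtain ⟨e, he⟩ := hx
    obtain ⟨f, hf⟩ := hy
    refine ⟨e + f, ?_⟩
    have h1 : H ^ (e + f) * (x + y) = H ^ f * (H ^ e * x) + H ^ e * (H ^ f * y) := by ring
    rw [h1]
    exact add_mem (mul_mem (pow_mem hH f) he) (mul_mem (pow_mem hH e) hf)
  | mul x y _ _ hx hy =>
    obtain ⟨e, he⟩ := hx
    obtain ⟨f, hf⟩ := hy
    refine ⟨e + f, ?_⟩
    have h1 : H ^ (e + f) * (x * y) = (H ^ e * x) * (H ^ f * y) := by ring
    rw [h1]
    exact mul_mem he hf

/-- The trivial valuation: `B` = generators of `K/k`, `A₀ = k[B]`; given `F`, let `H ∈ A₀` be a common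
denominator of the elements of `F`, `A = k[B, H⁻¹]` (every element `x` of `A` has `H^e x ∈ A₀`),
`n = 0`. The centre of `⊤` on `A` is the zero ideal, the local ring is a field, `F ⊆ A`, and
`x * 1 = 1 * x` shows `MonS`. -/
theorem rel_top [Algebra.EssFiniteType k K] : LY.RelS k (⊤ : ValuationSubring K) := by
  classical
  set T : Finset K := Algebra.EssFiniteType.finset k K with hT
  have hfrac : ∀ z : K, ∃ p ∈ Algebra.adjoin k (T : Set K), ∃ q ∈ Algebra.adjoin k (T : Set K),
      q ≠ 0 ∧ z = p / q := by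
    intro z
    obtain ⟨⟨x, y⟩, hxy⟩ := IsLocalization.surj (Algebra.EssFiniteType.submonoid k K) z
    have hy : algebraMap (Algebra.EssFiniteType.subalgebra k K) K y ≠ 0 := by
      have h1 : IsUnit (algebraMap (Algebra.EssFiniteType.subalgebra k K) K y) := y.2
      exact h1.ne_zero
    exact ⟨(x : K), x.2, ((y : Algebra.EssFiniteType.subalgebra k K) : K), y.1.2, hy,
      eq_div_of_mul_eq hy hxy⟩
  choose p hp q hq hq0 hpq using hfrac
  refine ⟨T, fun F hF => ?_⟩
  let H : K := ∏ x ∈ F, q x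
  have hHmem : H ∈ Algebra.adjoin k (T : Set K) := prod_mem fun x _ => hq x
  have hH0 : H ≠ 0 := Finset.prod_ne_zero_iff.2 fun x _ => hq0 x
  let A : Subalgebra k K := Algebra.adjoin k ((T : Set K) ∪ {H⁻¹})
  have hTA : Algebra.adjoin k (T : Set K) ≤ A := Algebra.adjoin_mono Set.subset_union_left
  have hHA : H⁻¹ ∈ A := Algebra.subset_adjoin (Or.inr rfl)
  have h : ∀ a ∈ A, a ∈ (⊤ : ValuationSubring K) := fun a _ => ValuationSubring.mem_top a
  have hFA : ∀ x ∈ F, x ∈ A := by
    intro x hx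
    have h1 : H = q x * ∏ y ∈ F.erase x, q y := (Finset.mul_prod_erase F q hx).symm
    have h2 : (∏ y ∈ F.erase x, q y) ≠ 0 := Finset.prod_ne_zero_iff.2 fun y _ => hq0 y
    have h3 : x = p x * (∏ y ∈ F.erase x, q y) * H⁻¹ := by
      rw [h1]
      have h4 := hpq x
      have h5 := hq0 x
      rw [eq_div_iff h5] at h4
      rw [← h4]
      field_simp
    rw [h3]
    exact mul_mem (mul_mem (hTA (hp x)) (prod_mem fun y _ => hTA (hq y))) hHA
  have hmon : ∀ x ∈ A, x ≠ 0 → LY.MonS (⊤ : ValuationSubring K) A h (Fin.elim0 : Fin 0 → A) x := by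
    intro x hx hx0
    refine ⟨fun _ => 0, ⟨x, hx⟩, 1, TopRel_center h ?_, TopRel_center h one_ne_zero, ?_⟩
    · exact fun h0 => hx0 (congrArg Subtype.val h0)
    · simp
  have hField : IsField (Localization.AtPrime (LU.center (⊤ : ValuationSubring K) A h)) := by
    refine ⟨⟨0, 1, zero_ne_one⟩, mul_comm, ?_⟩
    intro x hx
    obtain ⟨a, s, rfl⟩ := IsLocalization.exists_mk'_eq
      (LU.center (⊤ : ValuationSubring K) A h).primeCompl x
    have ha : a ≠ 0 := by
      rintro rfl
      exact hx (IsLocalization.mk'_zero s)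
    refine ⟨IsLocalization.mk' _ (s : A) (⟨a, TopRel_center h ha⟩ :
      (LU.center (⊤ : ValuationSubring K) A h).primeCompl), ?_⟩
    exact IsLocalization.mk'_mul_mk'_eq_one' a s (TopRel_center h ha)
  refine ⟨A, h, 0, Fin.elim0, ⟨T ∪ {H⁻¹}, ?_⟩, ?_, ?_, ?_, ?_, fun x hx _ => hFA x hx,
    fun x hx => hmon x (hFA x hx) (hF x hx), H, hHmem, hH0, hmon H (hTA hHmem) hH0,
    fun x hx => TopRel_clear hHmem hH0 hx⟩
  · rw [Finset.coe_union, Finset.coe_singleton]
  · apply IsFractionRing.of_field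
    intro z
    exact ⟨⟨p z, hTA (hp z)⟩, ⟨q z, hTA (hq z)⟩, hpq z⟩
  · have : IsDomain (Localization.AtPrime (LU.center (⊤ : ValuationSubring K) A h)) := hField.isDomain
    have : IsPrincipalIdealRing
        (Localization.AtPrime (LU.center (⊤ : ValuationSubring K) A h)) := hField.isPrincipalIdealRing
    infer_instance
  · rw [Nat.cast_zero]
    exact ringKrullDim_eq_zero_of_isField hField
  · rw [Set.range_eq_empty, Ideal.span_empty]
    exact (IsLocalRing.isField_iff_maximalIdeal_eq.1 hField).symm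

end LYC
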