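import Pool.Agent.LYC.Induct
import Pool.Agent.LYC.RoGen
import Pool.Agent.LYC.TopRel
import Pool.Agent.LYC.Perf
import Pool.Agent.helper90.LY.CompB

/-! Project LYC: the main theorem. -/

set_option autoImplicit false

namespace LYC

universe u

variable {k K : Type u} [Field k] [Field K] [Algebra k K]

/-- Relative strong local uniformization for valuations of transcendence defect at most one with
finitely generated separable residue fields. -/
theorem main_sep [Algebra.EssFiniteType k K] (p : ℕ) [Fact p.Prime] [CharP k p]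
    (V : ValuationSubring K) (hV : ∀ c : k, algebraMap k K c ∈ V)
    (hsep : ∀ V₂ : ValuationSubring K, V ≤ V₂ → SepRes k V₂) (d : ℕ) (t : Fin d → K)
    (ht : ResInd k V t)
    (hr : Algebra.trdeg k K ≤ Module.rank ℤ (Gam V) + (d : Cardinal.{u}) + 1)
    (hk : Group.FG (V.ValueGroup)ˣ ∨ Infinite k ∨ 1 ≤ d) : LY.RelS k V := by
  obtain ⟨n, hn⟩ := Cardinal.lt_aleph0.1 (_root_.trdeg_lt_aleph0 k K)
  exact induct (k := k) (fun K _ _ V => LY.RelS k V)
    (fun K _ _ _ => rel_top)
    (fun K _ _ _ W hW harch hne κ _ _ D hκ hr hk => ro_gen p W hW harch hne κ D hκ hr hk)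
    (fun K _ _ _ W W₁ hW κ _ _ _ W' D h1 h2 => LY.comp_rel W W₁ hW κ W' D h1 h2)
    n K V hV hn hsep d t ht hr hk

/-- A finitely generated extension of a subfield: the residue field is finitely generated if the
valuation is Abhyankar. -/
theorem fgRes_of_rank [Algebra.EssFiniteType k K] (W : ValuationSubring K)
    (hW : ∀ c : k, algebraMap k K c ∈ W) {d : ℕ} (t : Fin d → K) (ht : ResInd k W t)
    (hn : Algebra.trdeg k K ≤ Module.rank ℤ (Gam W) + (d : Cardinal.{u})) : FGRes k W := by
  have hab := abh_ineq W hW t ht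
  have hfin : Algebra.trdeg k K < Cardinal.aleph0 := _root_.trdeg_lt_aleph0 k K
  obtain ⟨r, hrk⟩ := Cardinal.lt_aleph0.1
    (lt_of_le_of_lt (le_trans (self_le_add_right _ _) hab) hfin)
  have h1 : (r : Cardinal.{u}) ≤ Module.rank ℤ (Gam W) := hrk.ge
  obtain ⟨f, hf⟩ := Module.le_rank_iff.1 h1
  obtain ⟨u, hu0, -, hu⟩ := exists_lift W f hf
  refine fgRes_of_abh W hW t ht u hu0 hu ?_
  rw [hrk] at hn hab
  push_cast
  exact le_antisymm hn hab

/-- Relative strong local uniformization over a perfect field: transcendence defect at most one,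
finitely generated residue fields (only to be checked for the coarsenings of defect one). -/
theorem main_perfect [PerfectField k] [Algebra.EssFiniteType k K] (p : ℕ) [Fact p.Prime]
    [CharP k p] (V : ValuationSubring K) (hV : ∀ c : k, algebraMap k K c ∈ V)
    (hfg : ∀ V₂ : ValuationSubring K, V ≤ V₂ →
      (∀ (d : ℕ) (t : Fin d → K), ResInd k V₂ t →
        Module.rank ℤ (Gam V₂) + (d : Cardinal.{u}) < Algebra.trdeg k K) → FGRes k V₂)
    (d : ℕ) (t : Fin d → K) (ht : ResInd k V t)
    (hr : Algebra.trdeg k K ≤ Module.rank ℤ (Gam V) + (d : Cardinal.{u}) + 1)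
    (hk : Group.FG (V.ValueGroup)ˣ ∨ Infinite k ∨ 1 ≤ d) : LY.RelS k V := by
  refine main_sep p V hV (fun V₂ hle => ?_) d t ht hr hk
  have hV₂ : ∀ c : k, algebraMap k K c ∈ V₂ := fun c => hle (hV c)
  obtain ⟨κ, _, _, ⟨D⟩⟩ := exists_res V₂ hV₂
  refine sepRes_of_fg V₂ D ?_
  by_cases h : ∀ (d : ℕ) (t : Fin d → K), ResInd k V₂ t →
      Module.rank ℤ (Gam V₂) + (d : Cardinal.{u}) < Algebra.trdeg k K
  · exact hfg V₂ hle h
  · push Not at h
    obtain ⟨d₂, t₂, ht₂, h2⟩ := h
    exact fgRes_of_rank V₂ hV₂ t₂ ht₂ h2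

end LYC
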