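import Pool.Agent.LYC.SepData
import Pool.Agent.LYC.RoGen

/-! Project LYC: rank one valuations of defect at most one. -/

set_option autoImplicit false

namespace LYC

open Polynomial

universe u

variable {k K : Type u} [Field k] [Field K] [Algebra k K]

/-- Rank one, defect at most one, residue field finite separable over a field contained in `W`. -/
theorem ro_sep [Algebra.EssFiniteType k K] (p : ℕ) [Fact p.Prime] [CharP k p]
    (W : ValuationSubring K) (hW : ∀ c : k, algebraMap k K c ∈ W)
    (harch : MulArchimedean W.ValueGroup) (hne : W ≠ ⊤) (hsep : SepOver k W)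
    (hd : defect k W ≤ 1) (hk : Group.FG (W.ValueGroup)ˣ ∨ Infinite k ∨ 1 ≤ td k W) :
    LY.RelS k W := by
  obtain ⟨L, hL, P, a, hP, haW, ha, hQ, htr, hinf⟩ := sep_data W hW hsep
  have hfin : Algebra.trdeg k K < Cardinal.aleph0 := _root_.trdeg_lt_aleph0 k K
  obtain ⟨n, hn⟩ := Cardinal.lt_aleph0.1 hfin
  have hfin' : Algebra.trdeg L K < Cardinal.aleph0 :=
    lt_of_le_of_lt (by rw [← htr]; exact self_le_add_left _ _) hfin
  obtain ⟨m, hm⟩ := Cardinal.lt_aleph0.1 hfin'
  have hdm : td k W + m = n := by
    rw [hn, hm] at htr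
    exact_mod_cast htr
  have h1 := defect_nonneg (k := k) W hW
  have h2 : defect k W = (n : ℤ) - rr W - td k W := by
    unfold defect
    rw [hn, Cardinal.toNat_natCast]
  have hk' : Group.FG (W.ValueGroup)ˣ ∨ Infinite L := by
    rcases hk with h | h | h
    · exact Or.inl h
    · exact Or.inr (Infinite.of_injective _ (algebraMap k L).injective)
    · exact Or.inr (hinf h)
  obtain ⟨T, hT, hTL⟩ := LX.fg_sub L
  subst hTL
  have hchar : CharP (IntermediateField.adjoin k T) p :=
    charP_of_injective_algebraMap
      (algebraMap k (IntermediateField.adjoin k T)).injective p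
  have hess : Algebra.EssFiniteType (IntermediateField.adjoin k T) K :=
    Algebra.EssFiniteType.of_comp k _ K
  exact LY.rel_of_adjoin T hT W hL
    (ro_over p W (fun c => hL c.1 c.2) harch hne P hP a haW ha hQ m (rr W) hm (rank_eq_rr W hW)
      (by omega) (by omega) hk')

end LYC
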