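import Pool.Agent.LYC.InductC
import Pool.Agent.LYC.TopRel
import Pool.Agent.helper90.LY.CompB

/-! Project LYC: the main theorem, dense version. -/

set_option autoImplicit false

namespace LYC

universe u

variable {k K : Type u} [Field k] [Field K] [Algebra k K]

/-- Relative strong local uniformization for valuations all of whose components are dense over a
component of transcendence defect at most one. -/
theorem main_condC [Algebra.EssFiniteType k K] (p : ℕ) [Fact p.Prime] [CharP k p]
    (V : ValuationSubring K) (hV : ∀ c : k, algebraMap k K c ∈ V)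
    (hcond : ∀ W W₁ : ValuationSubring K, V ≤ W → W ⋖ W₁ → CondC k W W₁)
    (hk : Group.FG (V.ValueGroup)ˣ ∨ Infinite k ∨ 1 ≤ td k V) : LY.RelS k V := by
  obtain ⟨n, hn⟩ := Cardinal.lt_aleph0.1 (_root_.trdeg_lt_aleph0 k K)
  exact inductC (k := k) (fun K _ _ V => LY.RelS k V)
    (fun K _ _ _ => rel_top)
    (fun K _ _ _ W hW harch hne hg hk => ro_good p W hW harch hne hg hk)
    (fun K _ _ _ W W₁ hW κ _ _ _ W' D h1 h2 => LY.comp_rel W W₁ hW κ W' D h1 h2)
    n K V hV hn hcond hk

end LYC
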