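import Pool.Agent.LYD.Dense
import Pool.Agent.LYC.DenseRes
import Pool.Agent.LYC.InductB
import Pool.Agent.LYC.RoGenB

/-! Project LYC: rank one valuations with a dense subfield of defect at most one. -/

set_option autoImplicit false

namespace LYC

universe u

variable {k K : Type u} [Field k] [Field K] [Algebra k K]

/-- The residue field condition of `Good` gives `SepOver` for the subfield. -/
theorem sepOver_of_good (W : ValuationSubring K) (hW : ∀ c : k, algebraMap k K c ∈ W)
    [Algebra.EssFiniteType k K]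
    (h : SepOver k W ∨ (PerfectField k ∧ (FGRes k W ∨ defect k W = 0))) : SepOver k W := by
  rcases h with h | ⟨hp, h⟩
  · exact h
  · obtain ⟨κ, _, _, ⟨D⟩⟩ := exists_res W hW
    refine sepOver_of_sepRes W hW (sepRes_of_fg W D ?_)
    rcases h with h | h
    · exact h
    · exact fgRes_of_defect W hW h

/-- Rank one, `Good`. -/
theorem ro_good [Algebra.EssFiniteType k K] (p : ℕ) [Fact p.Prime] [CharP k p]
    (W : ValuationSubring K) (hW : ∀ c : k, algebraMap k K c ∈ W)
    (harch : MulArchimedean W.ValueGroup) (hne : W ≠ ⊤) (h : Good k W)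
    (hk : Group.FG (W.ValueGroup)ˣ ∨ Infinite k ∨ 1 ≤ td k W) : LY.RelS k W := by
  obtain ⟨L, hsep, hd, hdef, hres⟩ := h
  have hL : Algebra.EssFiniteType k L := by
    obtain ⟨T, hT, hTL⟩ := LX.fg_sub L
    subst hTL
    exact IntermediateField.essFiniteType_iff.2 (IntermediateField.fg_adjoin_of_finite hT)
  have hWL : ∀ c : k, algebraMap k L c ∈ W.comap (algebraMap L K) := fun c =>
    ValuationSubring.mem_comap.2 (hW c)
  refine LYD.rel_dense W hW L hsep.fin hd ?_
  refine ro_sep p _ hWL (dense_arch W L harch) (dense_ne_top W L hd hne)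
    (sepOver_of_good _ hWL hres) hdef ?_
  rcases hk with h | h | h
  · exact Or.inl (dense_fg W L hd h)
  · exact Or.inr (Or.inl h)
  · exact Or.inr (Or.inr (h.trans (dense_td W hW L hd)))

/-- The residue field. -/
theorem ess_of_good [Algebra.EssFiniteType k K] (W : ValuationSubring K)
    (hW : ∀ c : k, algebraMap k K c ∈ W) (h : Good k W) (κ : Type u) [Field κ] [Algebra k κ]
    (R : LY.Res (k := k) W κ) : Algebra.EssFiniteType k κ := by
  obtain ⟨L, hsep, hd, hdef, hres⟩ := h
  have hL : Algebra.EssFiniteType k L := by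
    obtain ⟨T, hT, hTL⟩ := LX.fg_sub L
    subst hTL
    exact IntermediateField.essFiniteType_iff.2 (IntermediateField.fg_adjoin_of_finite hT)
  have hWL : ∀ c : k, algebraMap k L c ∈ W.comap (algebraMap L K) := fun c =>
    ValuationSubring.mem_comap.2 (hW c)
  obtain ⟨R'⟩ := dense_res W L hd κ R
  obtain ⟨κ₀, _, _, R₀, M, hM, E, hE, hEf, hEs⟩ := sepOver_of_good _ hWL hres
  have h0 : Algebra.EssFiniteType k κ₀ := ess_of_sepOver _ κ₀ R₀ M hM E hE hEf
  exact ess_unique _ κ₀ κ R₀ R'

end LYC
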