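import Pool.Agent.LYC.SepOver
import Pool.Agent.LYC.Defect

/-! Project LYC: `SepOver` in terms of elements. -/

set_option autoImplicit false

namespace LYC

open Polynomial

universe u

variable {k K : Type u} [Field k] [Field K] [Algebra k K]

/-- The inclusion of a field `L` into `W`. -/
private def SepData_inc (W : ValuationSubring K) (L : IntermediateField k K)
    (hL : ∀ x ∈ L, x ∈ W) : L →+* W where
  toFun x := ⟨(x : K), hL x x.2⟩
  map_one' := rfl
  map_mul' _ _ := rfl
  map_zero' := rfl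
  map_add' _ _ := rfl

/-- The residue map on `L`. -/
private def SepData_rho (W : ValuationSubring K) (L : IntermediateField k K)
    (hL : ∀ x ∈ L, x ∈ W) (κ : Type u) [Field κ] [Algebra k κ] (D : LY.Res (k := k) W κ) :
    L →ₐ[k] κ where
  toRingHom := D.π.comp (SepData_inc W L hL)
  commutes' c := D.alg c _ rfl

/-- Lifting polynomials from `E` to `L`. -/
private theorem SepData_lift (W : ValuationSubring K) (L : IntermediateField k K)
    (hL : ∀ x ∈ L, x ∈ W) (κ : Type u) [Field κ] [Algebra k κ] (D : LY.Res (k := k) W κ)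
    (E : IntermediateField k κ)
    (hE : ∀ e ∈ E, ∃ (x : K) (hx : x ∈ L), D.π ⟨x, hL x hx⟩ = e) (q : E[X]) :
    ∃ Q : L[X], Q.map (SepData_rho W L hL κ D : L →+* κ) = q.map (algebraMap E κ) := by
  have h1 : q.map (algebraMap E κ) ∈
      Polynomial.lifts (SepData_rho W L hL κ D : L →+* κ) := by
    rw [Polynomial.lifts_iff_coeff_lifts]
    intro n
    rw [Polynomial.coeff_map]
    obtain ⟨x, hx, h2⟩ := hE _ (q.coeff n).2
    exact ⟨⟨x, hx⟩, h2⟩
  exact (Polynomial.mem_lifts _).1 h1

/-- Values of polynomials and their residues. -/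
private theorem SepData_eval (W : ValuationSubring K) (L : IntermediateField k K)
    (hL : ∀ x ∈ L, x ∈ W) (κ : Type u) [Field κ] [Algebra k κ] (D : LY.Res (k := k) W κ)
    (a : W) (Q : L[X]) :
    ∃ b : W, (b : K) = aeval (a : K) Q ∧ D.π b =
      (Q.map (SepData_rho W L hL κ D : L →+* κ)).eval (D.π a) := by
  refine ⟨Q.eval₂ (SepData_inc W L hL) a, ?_, ?_⟩
  · have h1 := Polynomial.hom_eval₂ Q (SepData_inc W L hL) W.subtype a
    rw [Polynomial.aeval_def]
    exact h1
  · rw [Polynomial.eval_map]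
    exact Polynomial.hom_eval₂ Q (SepData_inc W L hL) D.π a

/-- The transcendence degrees of `L` and `κ` agree. -/
private theorem SepData_trdeg (W : ValuationSubring K) (L : IntermediateField k K)
    (hL : ∀ x ∈ L, x ∈ W) (κ : Type u) [Field κ] [Algebra k κ] (D : LY.Res (k := k) W κ)
    (E : IntermediateField k κ)
    (hE : ∀ e ∈ E, ∃ (x : K) (hx : x ∈ L), D.π ⟨x, hL x hx⟩ = e)
    (hf : FiniteDimensional E κ) : Algebra.trdeg k L = Algebra.trdeg k κ := by
  have hle : E ≤ (SepData_rho W L hL κ D).fieldRange := by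
    intro e he
    obtain ⟨x, hx, h2⟩ := hE e he
    exact ⟨⟨x, hx⟩, h2⟩
  have h1 : Algebra.IsAlgebraic (SepData_rho W L hL κ D).fieldRange κ := by
    refine ⟨fun y => ?_⟩
    obtain ⟨p, hp, hp2⟩ := (Algebra.IsAlgebraic.isAlgebraic (R := E) y)
    refine ⟨p.map (IntermediateField.inclusion hle : E →+* _), ?_, ?_⟩
    · rw [Ne, Polynomial.map_eq_zero]
      exact hp
    · rw [Polynomial.aeval_def, Polynomial.eval₂_map]
      exact hp2
  have h2 : Algebra.trdeg k L = Algebra.trdeg k (SepData_rho W L hL κ D).fieldRange :=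
    (AlgEquiv.ofInjectiveField (SepData_rho W L hL κ D)).trdeg_eq
  have h3 := trdeg_add_eq k (SepData_rho W L hL κ D).fieldRange (A := κ)
  have h4 : Algebra.trdeg (SepData_rho W L hL κ D).fieldRange κ = 0 :=
    trdeg_eq_zero
  rw [h4, add_zero] at h3
  rw [h2, h3]

/-- `SepOver` in terms of elements of `W`; compare `res_data` (store LYC_ResData.lean). `κ` is finite
separable over the image `E'` of `L`; `ab` a primitive element of `κ/E'`, `a ∈ W` a lift, `P` the
polynomial over `L` corresponding to the minimal polynomial of `ab` over `E'`. The transcendence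
degree of `L` is that of `κ` (`trdeg_eq_td`, `κ/E'` algebraic, `L ≅ E'`), and
`trdeg k L + trdeg L K = trdeg k K`. -/
theorem sep_data [Algebra.EssFiniteType k K] (W : ValuationSubring K)
    (hW : ∀ c : k, algebraMap k K c ∈ W) (h : SepOver k W) :
    ∃ (L : IntermediateField k K) (_ : ∀ x ∈ L, x ∈ W) (P : L[X]) (a : K), P.Separable ∧ a ∈ W ∧
      W.valuation (aeval a P) < 1 ∧ (∀ x ∈ W, ∃ Q : L[X], W.valuation (x - aeval a Q) < 1) ∧
      (td k W : Cardinal.{u}) + Algebra.trdeg L K = Algebra.trdeg k K ∧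
      (1 ≤ td k W → Infinite L) := by
  obtain ⟨κ, _, _, D, L, hL, E, hE, hfin, hsep⟩ := h
  have hess : Algebra.EssFiniteType k κ := ess_of_sepOver W κ D L hL E hE hfin
  have htd : Algebra.trdeg k L = (td k W : Cardinal.{u}) := by
    rw [SepData_trdeg W L hL κ D E hE hfin, trdeg_eq_td W hW κ D]
  obtain ⟨ab, hab⟩ := Field.exists_primitive_element E κ
  obtain ⟨a, ha⟩ := D.surj ab
  obtain ⟨P, hP⟩ := SepData_lift W L hL κ D E hE (minpoly E ab)
  have hint : IsIntegral E ab := Algebra.IsIntegral.isIntegral ab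
  refine ⟨L, hL, P, (a : K), ?_, a.2, ?_, ?_, ?_, ?_⟩
  · have h1 : (minpoly E ab).Separable := Algebra.IsSeparable.isSeparable _ ab
    have h2 : ((minpoly E ab).map (algebraMap E κ)).Separable := h1.map
    rw [← hP] at h2
    exact (Polynomial.separable_map _).1 h2
  · obtain ⟨b, hb, hb2⟩ := SepData_eval W L hL κ D a P
    rw [← hb, ← D.ker, hb2, hP, ha, Polynomial.eval_map, ← Polynomial.aeval_def]
    exact minpoly.aeval _ _
  · intro x hx
    have h1 : D.π ⟨x, hx⟩ ∈ Algebra.adjoin E ({ab} : Set κ) := by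
      rw [← IntermediateField.adjoin_simple_toSubalgebra_of_isAlgebraic hint.isAlgebraic, hab]
      exact Algebra.mem_top
    rw [Algebra.adjoin_singleton_eq_range_aeval] at h1
    obtain ⟨q, hq⟩ := h1
    obtain ⟨Q, hQ⟩ := SepData_lift W L hL κ D E hE q
    refine ⟨Q, ?_⟩
    obtain ⟨b, hb, hb2⟩ := SepData_eval W L hL κ D a Q
    have h3 : D.π (⟨x, hx⟩ - b) = 0 := by
      rw [map_sub, hb2, hQ, ha, Polynomial.eval_map, ← Polynomial.aeval_def, sub_eq_zero]
      exact hq.symm
    rw [D.ker] at h3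
    rw [← hb]
    exact h3
  · rw [← htd]
    exact trdeg_add_eq k L
  · intro h1
    by_contra h2
    rw [not_infinite_iff_finite] at h2
    have h3 : Module.Finite k L := inferInstance
    have h4 : Algebra.trdeg k L = 0 := trdeg_eq_zero
    rw [htd] at h4
    have h5 : td k W = 0 := by exact_mod_cast h4
    omega

end LYC
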