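import Pool.Agent.LYC.SepOver
import Pool.Agent.LYC.CompOf

/-! Project LYC: `SepOver` from an elementary description of the residue field. -/

set_option autoImplicit false

namespace LYC

open Polynomial

universe u

variable {k K : Type u} [Field k] [Field K] [Algebra k K]

/-- If the residue field of `W` is generated over the image of a field `L ⊆ W` by the residue of `a`,
which is a root of (the residue of) a separable polynomial, then `SepOver`. -/
theorem sepOver_of_elem (W : ValuationSubring K) (hW : ∀ c : k, algebraMap k K c ∈ W)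
    (L : IntermediateField k K) (hL : ∀ x ∈ L, x ∈ W) (P : L[X]) (a : K) (hP : P.Separable)
    (haW : a ∈ W) (ha : W.valuation (aeval a P) < 1)
    (hQ : ∀ x ∈ W, ∃ Q : L[X], W.valuation (x - aeval a Q) < 1) : SepOver k W := by
  classical
  obtain ⟨κ, _, _, ⟨R⟩⟩ := exists_res W hW
  let φ : L →ₐ[k] κ :=
    { toFun := fun x => R.π ⟨x, hL x x.2⟩
      map_one' := by
        rw [← map_one R.π]
        rfl
      map_mul' := fun x y => by
        rw [← map_mul R.π]
        rfl
      map_zero' := by
        rw [← map_zero R.π]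
        rfl
      map_add' := fun x y => by
        rw [← map_add R.π]
        rfl
      commutes' := fun c => R.alg c _ rfl }
  have hφ : ∀ x : L, φ x = R.π ⟨x, hL x x.2⟩ := fun x => rfl
  -- residues of polynomial values
  have hev : ∀ Q : L[X], ∃ h : aeval a Q ∈ W,
      R.π ⟨aeval a Q, h⟩ = Q.eval₂ (φ : L →+* κ) (R.π ⟨a, haW⟩) := by
    intro Q
    induction Q using Polynomial.induction_on' with
    | add f g hf hg =>
      obtain ⟨h1, h2⟩ := hf
      obtain ⟨h3, h4⟩ := hg
      refine ⟨by rw [map_add]; exact add_mem h1 h3, ?_⟩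
      rw [Polynomial.eval₂_add, ← h2, ← h4, ← map_add R.π]
      congr 1
      apply Subtype.ext
      exact map_add _ _ _
    | monomial n c =>
      have h1 : aeval a (monomial n c) = (c : K) * a ^ n := by
        rw [aeval_monomial]
        rfl
      have hc : (c : K) ∈ W := hL c c.2
      refine ⟨by rw [h1]; exact mul_mem hc (pow_mem haW n), ?_⟩
      rw [Polynomial.eval₂_monomial]
      change _ = R.π ⟨c, hL c c.2⟩ * _
      rw [← map_pow R.π, ← map_mul R.π]
      congr 1
      apply Subtype.ext
      exact h1
  set E : IntermediateField k κ := φ.fieldRange with hE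
  let ψ : L →+* E := (φ : L →+* κ).codRestrict E fun x => ⟨x, rfl⟩
  set ab : κ := R.π ⟨a, haW⟩ with hab
  -- `ab` is a root of the image of `P`
  have hroot : aeval ab (P.map ψ) = 0 := by
    obtain ⟨h1, h2⟩ := hev P
    have h3 : R.π ⟨aeval a P, h1⟩ = 0 := (R.ker _).2 ha
    rw [Polynomial.aeval_def, Polynomial.eval₂_map]
    exact h2.symm.trans h3
  have hPs : (P.map ψ).Separable := hP.map
  have hsepab : IsSeparable E ab := hPs.of_dvd (minpoly.dvd E ab hroot)
  have htop : IntermediateField.adjoin E {ab} = ⊤ := by
    rw [eq_top_iff]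
    intro y _
    obtain ⟨x, rfl⟩ := R.surj y
    obtain ⟨Q, hQx⟩ := hQ x x.2
    obtain ⟨h1, h2⟩ := hev Q
    have h3 : R.π x = R.π ⟨aeval a Q, h1⟩ := by
      rw [← sub_eq_zero, ← map_sub, R.ker]
      exact hQx
    rw [h3, h2]
    have h4 : Q.eval₂ (φ : L →+* κ) ab = aeval ab (Q.map ψ) := by
      rw [Polynomial.aeval_def, Polynomial.eval₂_map]
      rfl
    rw [h4]
    exact IntermediateField.algebra_adjoin_le_adjoin E _ (Polynomial.aeval_mem_adjoin_singleton E ab)
  refine ⟨κ, inferInstance, inferInstance, R, L, hL, E, ?_, ?_, ?_⟩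
  · rintro e ⟨x, rfl⟩
    exact ⟨x, x.2, rfl⟩
  · have h1 : FiniteDimensional E (IntermediateField.adjoin E {ab}) :=
      IntermediateField.adjoin.finiteDimensional hsepab.isIntegral
    rw [htop] at h1
    exact (IntermediateField.topEquiv (F := E) (E := κ)).toLinearEquiv.finiteDimensional
  · have h1 : Algebra.IsSeparable E (IntermediateField.adjoin E {ab}) :=
      (IntermediateField.isSeparable_adjoin_simple_iff_isSeparable E κ).2 hsepab
    rw [htop] at h1
    exact Algebra.IsSeparable.of_algHom E (⊤ : IntermediateField E κ)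
      (IntermediateField.topEquiv (F := E) (E := κ)).symm.toAlgHom

end LYC
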