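import Pool.Agent.LYC.Defs

/-! Project LYC: the trivial valuation. -/

set_option autoImplicit false

namespace LYC

universe u

variable {k K : Type u} [Field k] [Field K] [Algebra k K]

/-- Elements of the centre of the trivial valuation are zero. -/
private theorem Top_center {A : Subalgebra k K} (h : ∀ a ∈ A, a ∈ (⊤ : ValuationSubring K)) {a : A}
    (ha : a ≠ 0) : a ∉ LU.center (⊤ : ValuationSubring K) A h := by
  intro hc
  have h0 : (a : K) ≠ 0 := fun h0 => ha (Subtype.ext h0)
  have h1 : LU.toV (⊤ : ValuationSubring K) A h a ∈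
      IsLocalRing.maximalIdeal (⊤ : ValuationSubring K) := hc
  rw [IsLocalRing.mem_maximalIdeal, mem_nonunits_iff] at h1
  apply h1
  refine IsUnit.of_mul_eq_one (⟨(a : K)⁻¹, ValuationSubring.mem_top _⟩ : (⊤ : ValuationSubring K)) ?_
  apply Subtype.ext
  exact mul_inv_cancel₀ h0

/-- The trivial valuation: any affine model (`A = k[F ∪ T]`, `T` generators of `K/k`); the centre is
the zero ideal, and the local ring is a field. -/
theorem ru_top [Algebra.EssFiniteType k K] : LY.RU k (⊤ : ValuationSubring K) := by
  classical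
  intro F _
  set T : Finset K := Algebra.EssFiniteType.finset k K with hT
  let A : Subalgebra k K := Algebra.adjoin k ((F ∪ T : Finset K) : Set K)
  have hTA : Algebra.adjoin k (T : Set K) ≤ A := Algebra.adjoin_mono (by
    rw [Finset.coe_union]
    exact Set.subset_union_right)
  have h : ∀ a ∈ A, a ∈ (⊤ : ValuationSubring K) := fun a _ => ValuationSubring.mem_top a
  refine ⟨A, h, ⟨F ∪ T, rfl⟩, ?_, ?_, fun x hx => Algebra.subset_adjoin (by
    rw [Finset.coe_union]
    exact Or.inl hx)⟩
  · apply IsFractionRing.of_field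
    intro z
    obtain ⟨⟨x, y⟩, hxy⟩ := IsLocalization.surj (Algebra.EssFiniteType.submonoid k K) z
    have hy : algebraMap (Algebra.EssFiniteType.subalgebra k K) K y ≠ 0 := by
      have h1 : IsUnit (algebraMap (Algebra.EssFiniteType.subalgebra k K) K y) := y.2
      exact h1.ne_zero
    refine ⟨⟨(x : K), hTA x.2⟩, ⟨((y : Algebra.EssFiniteType.subalgebra k K) : K), hTA y.1.2⟩, ?_⟩
    exact eq_div_of_mul_eq hy hxy
  · have hF : IsField (Localization.AtPrime (LU.center (⊤ : ValuationSubring K) A h)) := by
      refine ⟨⟨0, 1, zero_ne_one⟩, mul_comm, ?_⟩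
      intro x hx
      obtain ⟨a, s, rfl⟩ := IsLocalization.exists_mk'_eq
        (LU.center (⊤ : ValuationSubring K) A h).primeCompl x
      have ha : a ≠ 0 := by
        rintro rfl
        exact hx (IsLocalization.mk'_zero s)
      refine ⟨IsLocalization.mk' _ (s : A) (⟨a, Top_center h ha⟩ :
        (LU.center (⊤ : ValuationSubring K) A h).primeCompl), ?_⟩
      exact IsLocalization.mk'_mul_mk'_eq_one' a s (Top_center h ha)
    have : IsDomain (Localization.AtPrime (LU.center (⊤ : ValuationSubring K) A h)) := hF.isDomain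
    have : IsPrincipalIdealRing
        (Localization.AtPrime (LU.center (⊤ : ValuationSubring K) A h)) := hF.isPrincipalIdealRing
    infer_instance

end LYC
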