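import Pool.Agent.LYC.Defs

/-! Project LYC: elements with independent values. -/

set_option autoImplicit false

namespace LYC

universe u

variable {k K : Type u} [Field k] [Field K] [Algebra k K]

theorem Val_const (W : ValuationSubring K) (hW : ∀ c : k, algebraMap k K c ∈ W) {c : k}
    (hc : c ≠ 0) : W.valuation (algebraMap k K c) = 1 := by
  apply le_antisymm
  · exact (ValuationSubring.valuation_le_one_iff _ _).2 (hW c)
  · have h1 : W.valuation (algebraMap k K c⁻¹) ≤ 1 :=
      (ValuationSubring.valuation_le_one_iff _ _).2 (hW c⁻¹)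
    have h0 : algebraMap k K c ≠ 0 := by
      rw [Ne, map_eq_zero]; exact hc
    have hv : W.valuation (algebraMap k K c) ≠ 0 := (Valuation.ne_zero_iff _).2 h0
    rw [map_inv₀, map_inv₀] at h1
    exact (inv_le_one₀ (zero_lt_iff.2 hv)).1 h1

/-- Elements with independent values are algebraically independent over a field contained in `W`.
Proof: distinct monomials `u^m` have distinct values, nonzero constants have value one, so in
`∑ c_m u^m` one term dominates (choose the maximum over the support; `Valuation.map_sum_lt` for the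
rest), and the sum is nonzero. Compare `LUW/AbhFG.lean` (`fa_aeval`) for real valuations. -/
theorem algInd_of_val (W : ValuationSubring K) (hW : ∀ c : k, algebraMap k K c ∈ W) {r : ℕ}
    (u : Fin r → K) (hu0 : ∀ i, u i ≠ 0)
    (hu : ∀ a : Fin r → ℤ, W.valuation (∏ i, u i ^ a i) = 1 → a = 0) :
    AlgebraicIndependent k u := by
  classical
  rw [algebraicIndependent_iff]
  intro P hP
  by_contra hne
  have hinj : ∀ m m' : Fin r →₀ ℕ, W.valuation (∏ i, u i ^ m i) = W.valuation (∏ i, u i ^ m' i) →
      m = m' := by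
    intro m m' h
    have h1 : W.valuation (∏ i, u i ^ ((m i : ℤ) - (m' i : ℤ))) = 1 := by
      have h2 : ∏ i, u i ^ ((m i : ℤ) - (m' i : ℤ)) = (∏ i, u i ^ m i) * (∏ i, u i ^ m' i)⁻¹ := by
        rw [← Finset.prod_inv_distrib, ← Finset.prod_mul_distrib]
        refine Finset.prod_congr rfl fun i _ => ?_
        rw [zpow_sub₀ (hu0 i), zpow_natCast, zpow_natCast, div_eq_mul_inv]
      rw [h2, map_mul, map_inv₀, h]
      refine mul_inv_cancel₀ ((Valuation.ne_zero_iff _).2 ?_)
      exact Finset.prod_ne_zero_iff.2 fun i _ => pow_ne_zero _ (hu0 i)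
    have h3 := hu _ h1
    ext i
    have h4 := congrFun h3 i
    simp only [Pi.zero_apply] at h4
    omega
  have hsupp : P.support.Nonempty := MvPolynomial.support_nonempty.2 hne
  obtain ⟨m0, hm0, hmax⟩ := P.support.exists_max_image
    (fun m => W.valuation (∏ i, u i ^ m i)) hsupp
  set g : W.ValueGroup := W.valuation (∏ i, u i ^ m0 i) with hg
  have hg0 : g ≠ 0 := (Valuation.ne_zero_iff _).2
    (Finset.prod_ne_zero_iff.2 fun i _ => pow_ne_zero _ (hu0 i))
  have hterm : ∀ m ∈ P.support, W.valuation (algebraMap k K (P.coeff m) * ∏ i, u i ^ m i) =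
      W.valuation (∏ i, u i ^ m i) := by
    intro m hm
    rw [map_mul, Val_const W hW (MvPolynomial.mem_support_iff.1 hm), one_mul]
  have hrest : W.valuation (∑ m ∈ P.support.erase m0,
      algebraMap k K (P.coeff m) * ∏ i, u i ^ m i) < g := by
    refine Valuation.map_sum_lt _ hg0 fun m hm => ?_
    rw [hterm m (Finset.mem_of_mem_erase hm)]
    refine lt_of_le_of_ne (hmax m (Finset.mem_of_mem_erase hm)) fun h => ?_
    exact (Finset.ne_of_mem_erase hm) (hinj _ _ h)
  rw [MvPolynomial.aeval_def, MvPolynomial.eval₂_eq', ← Finset.add_sum_erase _ _ hm0] at hP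
  have h5 : W.valuation (algebraMap k K (P.coeff m0) * ∏ i, u i ^ m0 i +
      ∑ m ∈ P.support.erase m0, algebraMap k K (P.coeff m) * ∏ i, u i ^ m i) = g := by
    rw [Valuation.map_add_eq_of_lt_left, hterm m0 hm0]
    rw [hterm m0 hm0]
    exact hrest
  rw [hP, map_zero] at h5
  exact hg0 h5.symm

/-- Lifting an independent family of the value group. -/
theorem exists_lift (W : ValuationSubring K) {r : ℕ} (e : Fin r → Gam W)
    (he : LinearIndependent ℤ e) :
    ∃ u : Fin r → K, (∀ i, u i ≠ 0) ∧
      (∀ i, W.valuation (u i) = ((e i).toMul : W.ValueGroup)) ∧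
      ∀ a : Fin r → ℤ, W.valuation (∏ i, u i ^ a i) = 1 → a = 0 := by
  have h1 : ∀ i, ∃ x : K, W.valuation x = ((e i).toMul : W.ValueGroup) := fun i =>
    W.valuation_surjective _
  choose u hu using h1
  refine ⟨u, fun i h => ?_, hu, fun a ha => ?_⟩
  · have h2 := hu i
    rw [h, map_zero] at h2
    exact (e i).toMul.ne_zero h2.symm
  · rw [Fintype.linearIndependent_iff] at he
    have h3 : ∑ i, a i • e i = 0 := by
      apply Additive.toMul.injective
      rw [toMul_sum, toMul_zero]
      apply Units.ext
      rw [Units.val_one, Units.coe_prod, ← ha, map_prod]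
      refine Finset.prod_congr rfl fun i _ => ?_
      rw [toMul_zsmul, Units.val_zpow_eq_zpow_val, map_zpow₀, hu i]
    funext i
    exact he a h3 i

/-- Conversely, elements with independent values bound the rank from below. -/
theorem le_rank (W : ValuationSubring K) {r : ℕ} (u : Fin r → K) (hu0 : ∀ i, u i ≠ 0)
    (hu : ∀ a : Fin r → ℤ, W.valuation (∏ i, u i ^ a i) = 1 → a = 0) :
    (r : Cardinal.{u}) ≤ Module.rank ℤ (Gam W) := by
  let e : Fin r → Gam W := fun i =>
    Additive.ofMul (Units.mk0 (W.valuation (u i)) ((Valuation.ne_zero_iff _).2 (hu0 i)))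
  have he : LinearIndependent ℤ e := by
    rw [Fintype.linearIndependent_iff]
    intro a ha i
    have h1 : W.valuation (∏ i, u i ^ a i) = 1 := by
      have h2 := congrArg (fun x : Gam W => ((x.toMul : (W.ValueGroup)ˣ) : W.ValueGroup)) ha
      simp only [toMul_sum, toMul_zero, Units.val_one, Units.coe_prod, toMul_zsmul,
        Units.val_zpow_eq_zpow_val] at h2
      rw [map_prod, ← h2]
      refine Finset.prod_congr rfl fun i _ => ?_
      rw [map_zpow₀]
      rfl
    exact congrFun (hu a h1) i
  have h3 := he.cardinal_lift_le_rank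
  simpa using h3

/-- The value group of a nontrivial valuation has positive rank (it is torsion free). -/
theorem rank_pos (W : ValuationSubring K) (hne : W ≠ ⊤) : 1 ≤ Module.rank ℤ (Gam W) := by
  have h1 : ∃ x : K, x ∉ W := by
    by_contra h
    push Not at h
    exact hne (eq_top_iff.2 fun x _ => h x)
  obtain ⟨x, hx⟩ := h1
  have hx0 : x ≠ 0 := fun h => hx (h ▸ W.zero_mem)
  have hv : W.valuation x ≠ 1 := fun h =>
    hx ((ValuationSubring.valuation_le_one_iff _ _).1 h.le)
  have h2 := le_rank W (r := 1) (fun _ => x) (fun _ => hx0) (fun a ha => by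
    rw [Fin.prod_univ_one, map_zpow₀, zpow_eq_one_iff_right₀ zero_le hv] at ha
    funext i
    rw [Subsingleton.elim i 0, ha]
    rfl)
  simpa using h2

end LYC
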